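import Pool.Agent.Lib_MP_752436_nb.Defs

/-!
PIECE FIELD: the critical points of a Morse function in the disc are finite in number, and there is
a gradient like field.

`exists_gradField`: at a saddle `c` with Hessian `H` choose `e₁` with `H e₁ e₁ < 0`, `e₀ ≠ 0` with
`H e₀ e₁ = 0`; then `0 < H e₀ e₀`; `L z = z 0 • e₀ + z 1 • e₁`, `W (c + L z) = L (z 0, -z 1)`, and
`fderiv ℝ t x (W x) = H (x - c) (W x) + O(|x - c| ^ 3) > 0` near `c`. Then
`V = η • (∑ ρ_c • W_c + (1 - ∑ ρ_c) • ∇t)` with bumps `ρ_c` with disjoint supports near the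
(finitely many) saddles `c`, and a cut off `η` equal to `1` on the disc.
-/

open Metric Set Filter
open scoped ContDiff Topology NNReal

namespace Pool.Agent.Lib_MP_752436_nb

open Pool.Agent.Lib_MP_752436_gt Pool.Agent.Lib_MP_752436_tp Pool.Agent.Lib_MP_752436_rb

private theorem field_isolated {t : Plane → ℝ} (hs : ContDiff ℝ ∞ t) {c : Plane}
    (hm : ∀ u, u ≠ 0 → ∃ w, fderiv ℝ (fderiv ℝ t) c u w ≠ 0) :
    ∀ᶠ x in 𝓝[≠] c, fderiv ℝ t x ≠ 0 := by
  have hd : HasFDerivAt (fderiv ℝ t) (fderiv ℝ (fderiv ℝ t) c) c :=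
    (((hs.fderiv_right (m := ∞) (by simp)).differentiable (by simp)) c).hasFDerivAt
  have hker : LinearMap.ker (fderiv ℝ (fderiv ℝ t) c : Plane →ₗ[ℝ] (Plane →L[ℝ] ℝ)) = ⊥ := by
    rw [LinearMap.ker_eq_bot']
    intro u hu
    by_contra h
    obtain ⟨w, hw⟩ := hm u h
    apply hw
    have : fderiv ℝ (fderiv ℝ t) c u = 0 := hu
    rw [this]
    simp
  obtain ⟨K, -, hK⟩ := LinearMap.exists_antilipschitzWith _ hker
  exact hd.eventually_ne ⟨K, hK⟩

theorem finite_crit {t : Plane → ℝ} (hs : ContDiff ℝ ∞ t) (ht : MorseNB t) :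
    {x | x ∈ closedBall (0 : Plane) 1 ∧ fderiv ℝ t x = 0}.Finite := by
  by_contra hinf
  have hclosed : IsClosed {x : Plane | fderiv ℝ t x = 0} :=
    isClosed_eq (hs.continuous_fderiv (by simp)) continuous_const
  have hcomp : IsCompact {x | x ∈ closedBall (0 : Plane) 1 ∧ fderiv ℝ t x = 0} :=
    (isCompact_closedBall (0 : Plane) 1).inter_right hclosed
  obtain ⟨x, hx, hacc⟩ := Set.Infinite.exists_accPt_of_subset_isCompact hinf hcomp subset_rfl
  have hxb : x ∈ ball (0 : Plane) 1 := by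
    rcases (mem_closedBall.1 hx.1).lt_or_eq with h | h
    · exact mem_ball.2 h
    · exact absurd hx.2 (ht.neat x (mem_sphere.2 h))
  rw [accPt_iff_frequently] at hacc
  have hev := field_isolated hs (ht.morse x hxb hx.2)
  rw [eventually_nhdsWithin_iff] at hev
  exact hacc (hev.mono fun y hy hy' => hy hy'.1 hy'.2.2)

/-- The linear model `(z₀, z₁) ↦ (z₀, -z₁)`. -/
private noncomputable def fieldA (z : Plane) : Plane := !₂[z 0, -z 1]

private theorem fieldA_contDiff : ContDiff ℝ ∞ fieldA := by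
  unfold fieldA
  rw [contDiff_euclidean]
  intro i
  fin_cases i
  · simp only [Fin.zero_eta, PiLp.toLp_apply, Matrix.cons_val_zero]
    fun_prop
  · simp only [Fin.mk_one, PiLp.toLp_apply, Matrix.cons_val_one, Matrix.cons_val_fin_one]
    fun_prop

private theorem fieldA_norm (z : Plane) : ‖fieldA z‖ = ‖z‖ := by
  simp [fieldA, EuclideanSpace.norm_eq, Fin.sum_univ_two]

private theorem field_saddle {t : Plane → ℝ} (hs : ContDiff ℝ ∞ t) {c : Plane}
    (hc : fderiv ℝ t c = 0) (hneg : ∃ u, fderiv ℝ (fderiv ℝ t) c u u < 0)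
    (hpos : ∃ u, 0 < fderiv ℝ (fderiv ℝ t) c u u) :
    ∃ L : Plane ≃L[ℝ] Plane, ∀ᶠ x in 𝓝 c, x ≠ c →
      0 < fderiv ℝ t x (L (fieldA (L.symm (x - c)))) := by
  set H := fderiv ℝ (fderiv ℝ t) c with hH
  have hd : HasFDerivAt (fderiv ℝ t) H c :=
    (((hs.fderiv_right (m := ∞) (by simp)).differentiable (by simp)) c).hasFDerivAt
  have hsymm : ∀ u w, H u w = H w u := by
    intro u w
    exact second_derivative_symmetric
      (fun y => (hs.differentiable (by simp) y).hasFDerivAt) hd u w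
  obtain ⟨e₁, he₁⟩ := hneg
  obtain ⟨u, hu⟩ := hpos
  set e₀ : Plane := u - (H u e₁ / H e₁ e₁) • e₁ with he₀
  have h01 : H e₀ e₁ = 0 := by
    rw [he₀, map_sub, map_smul]
    simp only [ContinuousLinearMap.sub_apply, ContinuousLinearMap.smul_apply, smul_eq_mul]
    rw [div_mul_cancel₀ _ he₁.ne, sub_self]
  have h10 : H e₁ e₀ = 0 := by rw [hsymm, h01]
  have h00 : 0 < H e₀ e₀ := by
    have h1 : H e₀ e₀ = H e₀ u := by
      conv_lhs => rw [he₀]
      rw [← he₀, map_sub, map_smul, h01]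
      simp
    have h2 : H e₀ u = H u u - (H u e₁) ^ 2 / H e₁ e₁ := by
      rw [he₀, map_sub, map_smul]
      simp only [ContinuousLinearMap.sub_apply, ContinuousLinearMap.smul_apply, smul_eq_mul]
      rw [hsymm e₁ u]
      ring
    have h3 : (H u e₁) ^ 2 / H e₁ e₁ ≤ 0 := div_nonpos_of_nonneg_of_nonpos (sq_nonneg _) he₁.le
    rw [h1, h2]
    linarith
  -- the linear isomorphism
  let L₀ : Plane →ₗ[ℝ] Plane :=
    { toFun := fun z => z 0 • e₀ + z 1 • e₁
      map_add' := fun x y => by simp only [PiLp.add_apply]; module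
      map_smul' := fun a x => by simp only [PiLp.smul_apply, smul_eq_mul, RingHom.id_apply]; module }
  have hL₀ : ∀ z, L₀ z = z 0 • e₀ + z 1 • e₁ := fun z => rfl
  have hinj : Function.Injective L₀ := by
    rw [injective_iff_map_eq_zero]
    intro z hz
    rw [hL₀] at hz
    have h1 : H (z 0 • e₀ + z 1 • e₁) e₁ = 0 := by rw [hz]; simp
    simp only [map_add, map_smul, ContinuousLinearMap.add_apply, ContinuousLinearMap.smul_apply,
      smul_eq_mul, h01, mul_zero, zero_add] at h1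
    have h2 : H (z 0 • e₀ + z 1 • e₁) e₀ = 0 := by rw [hz]; simp
    simp only [map_add, map_smul, ContinuousLinearMap.add_apply, ContinuousLinearMap.smul_apply,
      smul_eq_mul, h10, mul_zero, add_zero] at h2
    have h3 : z 1 = 0 := by
      rcases mul_eq_zero.1 h1 with h | h
      · exact h
      · exact absurd h he₁.ne
    have h4 : z 0 = 0 := by
      rcases mul_eq_zero.1 h2 with h | h
      · exact h
      · exact absurd h h00.ne'
    ext i
    fin_cases i
    · simpa using h4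
    · simpa using h3
  let L : Plane ≃L[ℝ] Plane := (LinearEquiv.ofInjectiveEndo L₀ hinj).toContinuousLinearEquiv
  have hL : ∀ z, L z = z 0 • e₀ + z 1 • e₁ := fun z => rfl
  refine ⟨L, ?_⟩
  set m := min (H e₀ e₀) (-H e₁ e₁) with hm
  have hm0 : 0 < m := lt_min h00 (by linarith)
  set N := ‖(L : Plane →L[ℝ] Plane)‖ with hN
  have hN0 : 0 ≤ N := norm_nonneg _
  have hLN : ∀ z, ‖L z‖ ≤ N * ‖z‖ := fun z => (L : Plane →L[ℝ] Plane).le_opNorm z
  have hε : 0 < m / (2 * (N ^ 2 + 1)) := by positivity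
  have hev := (hasFDerivAt_iff_isLittleO.1 hd).def hε
  filter_upwards [hev] with x hx hxc
  set z := L.symm (x - c) with hz
  have hLz : L z = x - c := by rw [hz, L.apply_symm_apply]
  have hz0 : z ≠ 0 := by
    intro h
    rw [h, map_zero] at hLz
    exact hxc (sub_eq_zero.1 hLz.symm)
  have hz1 : 0 < ‖z‖ := norm_pos_iff.2 hz0
  rw [hc, sub_zero] at hx
  have h1 : H (x - c) (L (fieldA z)) = z 0 ^ 2 * H e₀ e₀ + z 1 ^ 2 * (-H e₁ e₁) := by
    rw [← hLz, hL, hL]
    simp only [fieldA, map_add, map_smul, ContinuousLinearMap.add_apply,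
      ContinuousLinearMap.smul_apply, smul_eq_mul, PiLp.toLp_apply, Matrix.cons_val_zero,
      Matrix.cons_val_one, Matrix.cons_val_fin_one, h01, h10]
    ring
  have h2 : m * ‖z‖ ^ 2 ≤ H (x - c) (L (fieldA z)) := by
    rw [h1, EuclideanSpace.norm_sq_eq, Fin.sum_univ_two]
    simp only [Real.norm_eq_abs, sq_abs]
    have h3 : m ≤ H e₀ e₀ := min_le_left _ _
    have h4 : m ≤ -H e₁ e₁ := min_le_right _ _
    nlinarith [mul_le_mul_of_nonneg_left h3 (sq_nonneg (z 0)),
      mul_le_mul_of_nonneg_left h4 (sq_nonneg (z 1))]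
  have h3 : |(fderiv ℝ t x - H (x - c)) (L (fieldA z))| ≤
      m / (2 * (N ^ 2 + 1)) * ‖x - c‖ * (N * ‖z‖) := by
    have h4 := (fderiv ℝ t x - H (x - c)).le_opNorm (L (fieldA z))
    rw [Real.norm_eq_abs] at h4
    refine h4.trans ?_
    have h5 : ‖L (fieldA z)‖ ≤ N * ‖z‖ := by
      have := hLN (fieldA z)
      rwa [fieldA_norm] at this
    exact mul_le_mul hx h5 (norm_nonneg _) (by positivity)
  have h4 : ‖x - c‖ ≤ N * ‖z‖ := by rw [← hLz]; exact hLN z
  have h5 : m / (2 * (N ^ 2 + 1)) * ‖x - c‖ * (N * ‖z‖) ≤ m / 2 * ‖z‖ ^ 2 := by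
    calc m / (2 * (N ^ 2 + 1)) * ‖x - c‖ * (N * ‖z‖)
        ≤ m / (2 * (N ^ 2 + 1)) * (N * ‖z‖) * (N * ‖z‖) := by gcongr
      _ = m / 2 * ‖z‖ ^ 2 * (N ^ 2 / (N ^ 2 + 1)) := by field_simp
      _ ≤ m / 2 * ‖z‖ ^ 2 * 1 := by
          gcongr
          rw [div_le_one (by positivity)]
          linarith
      _ = m / 2 * ‖z‖ ^ 2 := mul_one _
  have h6 := (abs_le.1 (h3.trans h5)).1
  rw [ContinuousLinearMap.sub_apply] at h6
  have h7 : 0 < m / 2 * ‖z‖ ^ 2 := by positivity
  nlinarith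

theorem exists_gradField {t : Plane → ℝ} (hs : ContDiff ℝ ∞ t) (ht : MorseNB t) :
    ∃ V, GradField t V := by
  classical
  set S : Set Plane := {c | c ∈ ball (0 : Plane) 1 ∧ fderiv ℝ t c = 0 ∧
    ∃ u, 0 < fderiv ℝ (fderiv ℝ t) c u u} with hS
  have hfin : S.Finite := (finite_crit hs ht).subset fun c hc =>
    ⟨ball_subset_closedBall hc.1, hc.2.1⟩
  -- local models
  have hloc : ∀ c, ∃ L : Plane ≃L[ℝ] Plane, c ∈ S → ∀ᶠ x in 𝓝 c, x ≠ c →
      0 < fderiv ℝ t x (L (fieldA (L.symm (x - c)))) := by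
    intro c
    by_cases hc : c ∈ S
    · obtain ⟨L, hL⟩ := field_saddle hs hc.2.1 (ht.noMin c hc.1 hc.2.1) hc.2.2
      exact ⟨L, fun _ => hL⟩
    · exact ⟨ContinuousLinearEquiv.refl ℝ Plane, fun h => absurd h hc⟩
  choose L hL using hloc
  set W : Plane → Plane → Plane := fun c x => L c (fieldA ((L c).symm (x - c))) with hW
  have hWc : ∀ c, W c c = 0 := by
    intro c
    have : fieldA 0 = 0 := by
      ext i
      fin_cases i <;> simp [fieldA]
    simp [hW, this]
  have hWs : ∀ c, ContDiff ℝ ∞ (W c) := by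
    intro c
    exact (L c).contDiff.comp (fieldA_contDiff.comp
      ((L c).symm.contDiff.comp (contDiff_id.sub contDiff_const)))
  -- a uniform radius
  have hδ : ∃ δ : ℝ, 0 < δ ∧ (∀ c ∈ S, ∀ x ∈ ball c δ, x ∈ ball (0 : Plane) 1 ∧
      (x ≠ c → 0 < fderiv ℝ t x (W c x))) ∧ ∀ c ∈ S, ∀ c' ∈ S, c ≠ c' → 2 * δ < dist c c' := by
    have h1 : ∀ c ∈ S, ∀ᶠ δ : ℝ in 𝓝[>] 0, ∀ x ∈ ball c δ, x ∈ ball (0 : Plane) 1 ∧
        (x ≠ c → 0 < fderiv ℝ t x (W c x)) := by
      intro c hc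
      have h2 : ∀ᶠ x in 𝓝 c, x ∈ ball (0 : Plane) 1 ∧ (x ≠ c → 0 < fderiv ℝ t x (W c x)) :=
        Eventually.and (isOpen_ball.mem_nhds hc.1) (hL c hc)
      obtain ⟨r, hr, hr'⟩ := Metric.eventually_nhds_iff_ball.1 h2
      filter_upwards [nhdsWithin_le_nhds (Iio_mem_nhds hr)] with δ hδ x hx
      exact hr' x (ball_subset_ball (le_of_lt hδ) hx)
    have h2 : ∀ c ∈ S, ∀ᶠ δ : ℝ in 𝓝[>] 0, ∀ c' ∈ S, c ≠ c' → 2 * δ < dist c c' := by
      intro c hc
      rw [eventually_all_finite hfin]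
      intro c' hc'
      by_cases h : c = c'
      · exact Eventually.of_forall fun _ h' => absurd h h'
      · have h3 : (0 : ℝ) < dist c c' / 2 := by
          have := dist_pos.2 h
          positivity
        filter_upwards [nhdsWithin_le_nhds (Iio_mem_nhds h3)] with δ hδ _
        have : δ < dist c c' / 2 := hδ
        linarith
    have h3 := (eventually_all_finite hfin).2 h1
    have h4 := (eventually_all_finite hfin).2 h2
    obtain ⟨δ, ⟨hδ1, hδ2⟩, hδ3⟩ := ((h3.and h4).and self_mem_nhdsWithin).exists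
    exact ⟨δ, hδ3, hδ1, hδ2⟩
  obtain ⟨δ, hδ, hδ1, hδ2⟩ := hδ
  -- the gradient
  set G : Plane → Plane := fun x => (InnerProductSpace.toDual ℝ Plane).symm (fderiv ℝ t x) with hG
  have hGs : ContDiff ℝ ∞ G :=
    (InnerProductSpace.toDual ℝ Plane).symm.contDiff.comp (hs.fderiv_right (m := ∞) (by simp))
  have hGt : ∀ x w, fderiv ℝ t x w = inner ℝ (G x) w := by
    intro x w
    rw [hG]
    simp
  have hG0 : ∀ x, fderiv ℝ t x = 0 → G x = 0 := by
    intro x hx
    simp [hG, hx]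
  have hGpos : ∀ x, fderiv ℝ t x ≠ 0 → 0 < fderiv ℝ t x (G x) := by
    intro x hx
    rw [hGt, real_inner_self_eq_norm_sq]
    have : G x ≠ 0 := by
      intro h
      apply hx
      ext w
      rw [hGt, h]
      simp
    have := norm_pos_iff.2 this
    positivity
  -- bumps
  let ρ : ∀ c : Plane, ContDiffBump c := fun c => ⟨δ / 2, δ, half_pos hδ, half_lt_self hδ⟩
  let η : ContDiffBump (0 : Plane) := ⟨1, 2, one_pos, one_lt_two⟩
  have hρz : ∀ c x, δ ≤ dist x c → ρ c x = 0 := fun c x h => (ρ c).zero_of_le_dist h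
  have hρo : ∀ c x, dist x c ≤ δ / 2 → ρ c x = 1 := fun c x h =>
    (ρ c).one_of_mem_closedBall (mem_closedBall.2 h)
  have hηo : ∀ x ∈ closedBall (0 : Plane) 1, η x = 1 := fun x hx => η.one_of_mem_closedBall hx
  set V : Plane → Plane := fun x => η x • (G x + ∑ c ∈ hfin.toFinset, ρ c x • (W c x - G x))
    with hV
  have hsingle : ∀ c ∈ S, ∀ x, dist x c < δ →
      ∑ c ∈ hfin.toFinset, ρ c x • (W c x - G x) = ρ c x • (W c x - G x) := by
    intro c hc x hx
    refine Finset.sum_eq_single c (fun c' hc' hne => ?_) fun h => ?_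
    · rw [hρz c' x, zero_smul]
      by_contra h
      push Not at h
      have h1 := hδ2 c hc c' (hfin.mem_toFinset.1 hc') hne.symm
      have h2 := dist_triangle_left c c' x
      linarith
    · exact absurd (hfin.mem_toFinset.2 hc) h
  have hnone : ∀ x, (∀ c ∈ S, δ ≤ dist x c) →
      ∑ c ∈ hfin.toFinset, ρ c x • (W c x - G x) = 0 := by
    intro x hx
    refine Finset.sum_eq_zero fun c hc => ?_
    rw [hρz c x (hx c (hfin.mem_toFinset.1 hc)), zero_smul]
  refine ⟨V, ?_, ?_, ?_, ?_, ?_⟩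
  · refine η.contDiff.smul (hGs.add (ContDiff.sum fun c _ => ?_))
    exact (ρ c).contDiff.smul ((hWs c).sub hGs)
  · exact η.hasCompactSupport.smul_right
  · intro x hx h0
    by_cases h : ∀ c ∈ S, δ ≤ dist x c
    · simp only [hV]
      rw [hnone x h, hG0 x h0]
      simp
    · push Not at h
      obtain ⟨c, hc, hxc⟩ := h
      have hxc' : x = c := by
        by_contra hne
        have := (hδ1 c hc x (mem_ball.2 hxc)).2 hne
        rw [h0] at this
        simp at this
      simp only [hV]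
      rw [hsingle c hc x hxc, hG0 x h0, hxc', hWc]
      simp
  · intro x hx h0
    by_cases h : ∀ c ∈ S, δ ≤ dist x c
    · simp only [hV]
      rw [hnone x h, hηo x hx, one_smul, add_zero]
      exact hGpos x h0
    · push Not at h
      obtain ⟨c, hc, hxc⟩ := h
      have hxc' : x ≠ c := by
        rintro rfl
        exact h0 hc.2.1
      have h1 := (hδ1 c hc x (mem_ball.2 hxc)).2 hxc'
      have h2 := hGpos x h0
      simp only [hV]
      rw [hsingle c hc x hxc, hηo x hx, one_smul, map_add, map_smul, map_sub, smul_eq_mul]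
      have h3 : 0 ≤ ρ c x := (ρ c).nonneg
      have h4 : ρ c x ≤ 1 := (ρ c).le_one
      rcases h3.eq_or_lt with h5 | h5
      · rw [← h5]
        linarith
      · nlinarith
  · intro c hcb hc0 hcpos
    have hc : c ∈ S := ⟨hcb, hc0, hcpos⟩
    refine ⟨L c, δ / 2 / (‖(L c : Plane →L[ℝ] Plane)‖ + 1), by positivity, fun z hz => ?_⟩
    have hz' : ‖z‖ < δ / 2 / (‖(L c : Plane →L[ℝ] Plane)‖ + 1) := mem_ball_zero_iff.1 hz
    have hd : dist (c + L c z) c < δ / 2 := by
      rw [dist_self_add_left]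
      have h1 : ‖L c z‖ ≤ ‖(L c : Plane →L[ℝ] Plane)‖ * ‖z‖ := (L c : Plane →L[ℝ] Plane).le_opNorm z
      have h2 : 0 ≤ ‖(L c : Plane →L[ℝ] Plane)‖ := norm_nonneg _
      rw [lt_div_iff₀ (by positivity)] at hz'
      have h3 := norm_nonneg z
      nlinarith
    have hb := (hδ1 c hc (c + L c z) (mem_ball.2 (by linarith))).1
    simp only [hV]
    rw [hsingle c hc _ (by linarith), hηo _ (ball_subset_closedBall hb), hρo c _ hd.le, one_smul,
      one_smul, add_sub_cancel]
    simp only [hW, add_sub_cancel_left, ContinuousLinearEquiv.symm_apply_apply]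
    rfl

end Pool.Agent.Lib_MP_752436_nb
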