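import Pool.Agent.Lib_MP_752436_nb.Defs

/-!
PIECE FROMDISC: a Morse slice disc without births, in working form.
-/

open Metric Set Filter
open scoped ContDiff Topology NNReal

namespace Pool.Agent.Lib_MP_752436_nb

open Pool.Agent.Lib_MP_752436_gt Pool.Agent.Lib_MP_752436_tp Pool.Agent.Lib_MP_752436_rb

private theorem fromDisc_coord {n m : ℕ}
    {F : EuclideanSpace ℝ (Fin n) → EuclideanSpace ℝ (Fin m)}
    {x : EuclideanSpace ℝ (Fin n)} (hF : DifferentiableAt ℝ F x) (i : Fin m)
    (u : EuclideanSpace ℝ (Fin n)) :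
    fderiv ℝ (fun y => F y i) x u = fderiv ℝ F x u i := by
  have h1 : HasFDerivAt (fun y => F y i)
      ((EuclideanSpace.proj i : EuclideanSpace ℝ (Fin m) →L[ℝ] ℝ).comp (fderiv ℝ F x)) x :=
    (EuclideanSpace.proj i : EuclideanSpace ℝ (Fin m) →L[ℝ] ℝ).hasFDerivAt.comp x hF.hasFDerivAt
  rw [h1.fderiv]
  rfl

private theorem fromDisc_smf {G : Plane → EuclideanSpace ℝ (Fin 4)} (hG : ContDiff ℝ ∞ G) :
    ContDiff ℝ ∞ (shadow G) := by
  have h := contDiff_euclidean.1 hG
  rw [contDiff_euclidean]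
  intro i
  fin_cases i
  · exact h 0
  · exact h 1
  · exact h 2

theorem sdisc_of_sliceDisc {G : Plane → EuclideanSpace ℝ (Fin 4)} (hG : IsSliceDisc G) :
    SDisc (shadow G) (height G) := by
  have hsm := contDiff_euclidean.1 hG.smooth
  have hsh := fromDisc_smf hG.smooth
  refine ⟨hsh, hsm 3, ?_, ?_, hG.boundary, hG.interior⟩
  · intro x hx y hy h1 h2
    apply hG.inj hx hy
    have e : ∀ i : Fin 3, shadow G x i = shadow G y i := fun i => by rw [h1]
    have e0 : G x 0 = G y 0 := e 0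
    have e1 : G x 1 = G y 1 := e 1
    have e2 : G x 2 = G y 2 := e 2
    have e3 : G x 3 = G y 3 := h2
    ext i
    fin_cases i
    · exact e0
    · exact e1
    · exact e2
    · exact e3
  · intro x hx u h1 h2
    have hd : DifferentiableAt ℝ G x := (hG.smooth.differentiable (by simp)) x
    have hds : DifferentiableAt ℝ (shadow G) x := (hsh.differentiable (by simp)) x
    have c : ∀ i : Fin 3, fderiv ℝ (fun y => shadow G y i) x u = 0 := by
      intro i
      rw [fromDisc_coord hds i u, h1]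
      rfl
    have c0 : fderiv ℝ G x u 0 = 0 := by
      rw [← fromDisc_coord hd 0 u]; exact c 0
    have c1 : fderiv ℝ G x u 1 = 0 := by
      rw [← fromDisc_coord hd 1 u]; exact c 1
    have c2 : fderiv ℝ G x u 2 = 0 := by
      rw [← fromDisc_coord hd 2 u]; exact c 2
    have c3 : fderiv ℝ G x u 3 = 0 := by
      rw [← fromDisc_coord hd 3 u]; exact h2
    apply hG.immersion x hx
    rw [map_zero]
    ext i
    fin_cases i
    · exact c0
    · exact c1
    · exact c2
    · exact c3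

private theorem fromDisc_localMin {h : Plane → ℝ} (hh : ContDiff ℝ ∞ h) {x : Plane}
    (h0 : fderiv ℝ h x = 0) (hnd : ∀ u, u ≠ 0 → ∃ w, fderiv ℝ (fderiv ℝ h) x u w ≠ 0)
    (hnn : ∀ u, 0 ≤ fderiv ℝ (fderiv ℝ h) x u u) : IsLocalMin h x := by
  have hc1 : ContDiff ℝ ∞ (fderiv ℝ h) := hh.fderiv_right (by simp)
  have hc2 : ContDiff ℝ ∞ (fderiv ℝ (fderiv ℝ h)) := hc1.fderiv_right (by simp)
  have hsymm : ∀ u w, fderiv ℝ (fderiv ℝ h) x u w = fderiv ℝ (fderiv ℝ h) x w u := by
    intro u w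
    have hf : ∀ y, HasFDerivAt h (fderiv ℝ h y) y := fun y =>
      ((hh.differentiable (by simp)) y).hasFDerivAt
    have hx : HasFDerivAt (fderiv ℝ h) (fderiv ℝ (fderiv ℝ h) x) x :=
      ((hc1.differentiable (by simp)) x).hasFDerivAt
    exact second_derivative_symmetric hf hx u w
  have hpos : ∀ u, u ≠ 0 → 0 < fderiv ℝ (fderiv ℝ h) x u u := by
    intro u hu
    rcases (hnn u).lt_or_eq with h1 | h1
    · exact h1
    exfalso
    obtain ⟨w, hw⟩ := hnd u hu
    set a : ℝ := fderiv ℝ (fderiv ℝ h) x u w with ha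
    set b : ℝ := fderiv ℝ (fderiv ℝ h) x w w with hb
    have key : ∀ s : ℝ, 0 ≤ 2 * s * a + s ^ 2 * b := by
      intro s
      have h2 := hnn (u + s • w)
      have h3 : fderiv ℝ (fderiv ℝ h) x (u + s • w) (u + s • w) = 2 * s * a + s ^ 2 * b := by
        simp only [map_add, map_smul, add_apply, smul_apply, smul_eq_mul]
        rw [← h1, hsymm w u, ← ha, ← hb]
        ring
      rw [h3] at h2
      exact h2
    have hb0 : 0 ≤ b := hnn w
    have k1 := key (-a / (b + 1))
    have hb1 : 0 < b + 1 := by linarith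
    have k2 : 2 * (-a / (b + 1)) * a + (-a / (b + 1)) ^ 2 * b
        = -(a ^ 2 * (b + 2)) / (b + 1) ^ 2 := by
      field_simp
      ring
    rw [k2] at k1
    have ha2 : 0 < a ^ 2 := by positivity
    have k3 : -(a ^ 2 * (b + 2)) / (b + 1) ^ 2 < 0 := by
      apply div_neg_of_neg_of_pos
      · have : 0 < a ^ 2 * (b + 2) := by positivity
        linarith
      · positivity
    linarith
  have hev : ∀ᶠ y in 𝓝 x, ∀ u ∈ sphere (0 : Plane) 1, 0 < fderiv ℝ (fderiv ℝ h) y u u := by
    apply IsCompact.eventually_forall_of_forall_eventually (isCompact_sphere _ _)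
    intro u hu
    have hcont : Continuous (fun z : Plane × Plane => fderiv ℝ (fderiv ℝ h) z.1 z.2 z.2) :=
      ((hc2.continuous.comp continuous_fst).clm_apply continuous_snd).clm_apply continuous_snd
    have hu0 : u ≠ 0 := by
      rintro rfl
      simp at hu
    exact (isOpen_lt continuous_const hcont).mem_nhds (hpos u hu0)
  obtain ⟨r, hr, hball⟩ := Metric.eventually_nhds_iff_ball.1 hev
  have hnonneg : ∀ y ∈ ball x r, ∀ w, 0 ≤ fderiv ℝ (fderiv ℝ h) y w w := by
    intro y hy w
    by_cases hw : w = 0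
    · rw [hw]; simp
    · have hn : 0 < ‖w‖ := norm_pos_iff.2 hw
      have h1 := hball y hy (‖w‖⁻¹ • w) (by
        rw [mem_sphere_zero_iff_norm, norm_smul, norm_inv, norm_norm, inv_mul_cancel₀ hn.ne'])
      simp only [map_smul, smul_apply, smul_eq_mul] at h1
      have h2 : 0 < ‖w‖⁻¹ := inv_pos.2 hn
      have h3 := (pos_iff_pos_of_mul_pos h1).1 h2
      have h4 := (pos_iff_pos_of_mul_pos h3).1 h2
      exact h4.le
  refine Metric.eventually_nhds_iff_ball.2 ⟨r, hr, ?_⟩
  intro y hy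
  set w : Plane := y - x with hw
  set z : ℝ → Plane := fun s => x + s • w with hz
  have hzm : ∀ s ∈ Icc (0 : ℝ) 1, z s ∈ ball x r := by
    intro s hs
    rw [mem_ball_iff_norm]
    simp only [hz, add_sub_cancel_left]
    rw [norm_smul, Real.norm_eq_abs, abs_of_nonneg hs.1]
    have h1 : ‖w‖ < r := by rw [hw]; exact mem_ball_iff_norm.1 hy
    calc s * ‖w‖ ≤ 1 * ‖w‖ := mul_le_mul_of_nonneg_right hs.2 (norm_nonneg _)
      _ < r := by rw [one_mul]; exact h1
  have hzd : ∀ s : ℝ, HasDerivAt z w s := by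
    intro s
    have h1 : HasDerivAt (fun s : ℝ => s • w) ((1 : ℝ) • w) s := (hasDerivAt_id s).smul_const w
    rw [one_smul] at h1
    exact h1.const_add x
  have hD1 : ∀ s : ℝ, HasDerivAt (fun s => h (z s)) (fderiv ℝ h (z s) w) s := by
    intro s
    have h1 : HasFDerivAt h (fderiv ℝ h (z s)) (z s) :=
      ((hh.differentiable (by simp)) _).hasFDerivAt
    exact h1.comp_hasDerivAt s (hzd s)
  have hD2 : ∀ s : ℝ, HasDerivAt (fun s => fderiv ℝ h (z s) w)
      (fderiv ℝ (fderiv ℝ h) (z s) w w) s := by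
    intro s
    have h1 : HasFDerivAt (fderiv ℝ h) (fderiv ℝ (fderiv ℝ h) (z s)) (z s) :=
      ((hc1.differentiable (by simp)) _).hasFDerivAt
    have h2 := (h1.comp_hasDerivAt s (hzd s)).clm_apply (hasDerivAt_const s w)
    simpa using h2
  have hz0 : z 0 = x := by simp [hz]
  have hz1 : z 1 = y := by simp [hz, hw]
  have hmono : MonotoneOn (fun s => fderiv ℝ h (z s) w) (Icc (0 : ℝ) 1) := by
    apply monotoneOn_of_deriv_nonneg (convex_Icc 0 1)
    · exact fun s _ => (hD2 s).continuousAt.continuousWithinAt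
    · exact fun s _ => (hD2 s).differentiableAt.differentiableWithinAt
    · intro s hs
      rw [(hD2 s).deriv]
      rw [interior_Icc] at hs
      exact hnonneg _ (hzm s ⟨hs.1.le, hs.2.le⟩) w
  have hge : ∀ s ∈ Icc (0 : ℝ) 1, 0 ≤ fderiv ℝ h (z s) w := by
    intro s hs
    have h1 := hmono (left_mem_Icc.2 zero_le_one) hs hs.1
    simp only [hz0, h0] at h1
    simpa using h1
  have hmono2 : MonotoneOn (fun s => h (z s)) (Icc (0 : ℝ) 1) := by
    apply monotoneOn_of_deriv_nonneg (convex_Icc 0 1)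
    · exact fun s _ => (hD1 s).continuousAt.continuousWithinAt
    · exact fun s _ => (hD1 s).differentiableAt.differentiableWithinAt
    · intro s hs
      rw [(hD1 s).deriv]
      rw [interior_Icc] at hs
      exact hge s ⟨hs.1.le, hs.2.le⟩
  have h5 := hmono2 (left_mem_Icc.2 zero_le_one) (right_mem_Icc.2 zero_le_one) zero_le_one
  simp only [hz0, hz1] at h5
  exact h5

private theorem fromDisc_dd {h : Plane → ℝ} (hh : ContDiff ℝ ∞ h) (x u w : Plane) :
    dd (dd h w) u x = fderiv ℝ (fderiv ℝ h) x u w := by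
  have h1 : HasFDerivAt (fderiv ℝ h) (fderiv ℝ (fderiv ℝ h) x) x :=
    (((hh.fderiv_right (m := ∞) (by simp)).differentiable (by simp)) x).hasFDerivAt
  have h2 := h1.clm_apply (hasFDerivAt_const w x)
  have h3 : dd (dd h w) u x = fderiv ℝ (fun y => fderiv ℝ h y w) x u := rfl
  rw [h3, h2.fderiv]
  simp

theorem morseNB_of_births {G : Plane → EuclideanSpace ℝ (Fin 4)} (hG : MorseDisc G)
    (hb : births G = ∅) : MorseNB (height G) := by
  have hs : ContDiff ℝ ∞ (height G) := (contDiff_euclidean.1 hG.slice.smooth) 3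
  have hmorse : ∀ x ∈ ball (0 : Plane) 1, fderiv ℝ (height G) x = 0 →
      ∀ u, u ≠ 0 → ∃ w, fderiv ℝ (fderiv ℝ (height G)) x u w ≠ 0 := by
    intro x hx h0 u hu
    obtain ⟨w, hw⟩ := hG.morse x hx (fun v => by unfold dd; rw [h0]; rfl) u hu
    exact ⟨w, by rw [← fromDisc_dd hs]; exact hw⟩
  refine ⟨?_, hmorse, ?_⟩
  · intro x hx h0
    obtain ⟨u, hu⟩ := hG.neat x hx
    apply hu
    unfold dd
    rw [h0]
    rfl
  · intro x hx h0
    by_contra hcon
    push Not at hcon
    have hmin := fromDisc_localMin hs h0 (hmorse x hx h0) hcon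
    have : x ∈ births G := ⟨hx, hmin⟩
    rw [hb] at this
    exact this

end Pool.Agent.Lib_MP_752436_nb
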