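import Pool.Agent.Lib_MP_752436_nb.Root

/-!
Moving the level sets of a function `e` along a vector field `V` with `de(V) > 0`, by the implicit
function theorem.
-/

open Metric Set Filter
open scoped ContDiff Topology NNReal

namespace Pool.Agent.Lib_MP_752436_nb

variable {E : Type*} [NormedAddCommGroup E] [NormedSpace ℝ E] [FiniteDimensional ℝ E]

/-- Pushing the levels of `e` along `V`: for small `s` the map `z ↦ z + U s z` is near to the
identity and sends the point `z` to a point with `e`-value `e z + s * β z`. -/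
theorem exists_level_push {e : E → ℝ} {V : E → E} (he : ContDiff ℝ ∞ e) (hV : ContDiff ℝ ∞ V)
    {β : E → ℝ} (hβ : ContDiff ℝ ∞ β) (hβc : HasCompactSupport β) (hβ01 : ∀ z, β z ∈ Icc (0 : ℝ) 1)
    (hpos : ∀ z ∈ tsupport β, 0 < fderiv ℝ e z (V z)) {η : ℝ} (hη : 0 < η) :
    ∃ h : ℝ, 0 < h ∧ ∃ U : ℝ → E → E, ContDiff ℝ ∞ (fun p : ℝ × E => U p.1 p.2) ∧
      (∀ z, U 0 z = 0) ∧ (∀ s, ∀ z ∉ tsupport β, U s z = 0) ∧
      (∀ s, |s| ≤ h → ∀ z, e (z + U s z) = e z + s * β z) ∧
      (∀ s, |s| ≤ h → ∀ z, ‖fderiv ℝ (U s) z‖ ≤ 1 / 2) ∧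
      ∀ s, |s| ≤ h → ∀ z, ‖U s z‖ ≤ η := by
  have hQ : IsCompact (tsupport β) := hβc
  set Q := tsupport β with hQdef
  have hed : Differentiable ℝ e := he.differentiable (by simp)
  have hder : ∀ z u, HasDerivAt (fun u : ℝ => e (z + u • V z)) (fderiv ℝ e (z + u • V z) (V z)) u := by
    intro z u
    have h1 : HasDerivAt (fun u : ℝ => z + u • V z) (V z) u := by
      simpa using ((hasDerivAt_id u).smul_const (V z)).const_add z
    exact (hed (z + u • V z)).hasFDerivAt.comp_hasDerivAt u h1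
  -- positivity near `Q × {0}`
  have hqc : Continuous fun p : E × ℝ => fderiv ℝ e (p.1 + p.2 • V p.1) (V p.1) := by
    have h1 : Continuous fun p : E × ℝ => fderiv ℝ e (p.1 + p.2 • V p.1) :=
      (he.continuous_fderiv (by simp)).comp
        (continuous_fst.add (continuous_snd.smul (hV.continuous.comp continuous_fst)))
    exact h1.clm_apply (hV.continuous.comp continuous_fst)
  obtain ⟨Ω, I, hΩ, hI, hQΩ, h0I, hΩI⟩ := generalized_tube_lemma hQ (isCompact_singleton (x := (0:ℝ)))
    (isOpen_lt continuous_const hqc : IsOpen {p : E × ℝ | 0 < fderiv ℝ e (p.1 + p.2 • V p.1) (V p.1)})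
    (by
      rintro ⟨z, u⟩ ⟨hz, hu⟩
      simp only [mem_singleton_iff] at hu
      subst hu
      simpa using hpos z hz)
  obtain ⟨r', hr', hrI'⟩ := Metric.isOpen_iff.1 hI 0 (h0I rfl)
  obtain ⟨r, hr, hrr'⟩ : ∃ r : ℝ, 0 < r ∧ r < r' := ⟨r' / 2, by positivity, by linarith⟩
  have hrI : Icc (-r) r ⊆ I := by
    intro u hu
    apply hrI'
    rw [mem_ball, Real.dist_eq, sub_zero, abs_lt]
    constructor <;> linarith [hu.1, hu.2]
  have hposΩ : ∀ z ∈ Ω, ∀ u ∈ Icc (-r) r, 0 < fderiv ℝ e (z + u • V z) (V z) := fun z hz u hu =>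
    hΩI (mk_mem_prod hz (hrI hu))
  have hmonoΩ : ∀ z ∈ Ω, StrictMonoOn (fun u : ℝ => e (z + u • V z)) (Icc (-r) r) := by
    intro z hz
    refine strictMonoOn_of_deriv_pos (convex_Icc _ _)
      (fun u _ => (hder z u).continuousAt.continuousWithinAt) fun u hu => ?_
    rw [(hder z u).deriv]
    exact hposΩ z hz u (interior_subset hu)
  -- the range of `s`
  obtain ⟨h₁, hh₁, hup, hdown⟩ : ∃ h₁ : ℝ, 0 < h₁ ∧ (∀ z ∈ Q, h₁ ≤ e (z + r • V z) - e z) ∧
      ∀ z ∈ Q, h₁ ≤ e z - e (z + (-r) • V z) := by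
    have hc1 : Continuous fun z => e (z + r • V z) - e z :=
      (he.continuous.comp (continuous_id.add (continuous_const.smul hV.continuous))).sub
        he.continuous
    have hc2 : Continuous fun z => e z - e (z + (-r) • V z) :=
      he.continuous.sub
        (he.continuous.comp (continuous_id.add (continuous_const.smul hV.continuous)))
    rcases Q.eq_empty_or_nonempty with hemp | hne
    · exact ⟨1, one_pos, by simp [hemp], by simp [hemp]⟩
    · obtain ⟨z1, hz1, hm1⟩ := hQ.exists_isMinOn hne hc1.continuousOn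
      obtain ⟨z2, hz2, hm2⟩ := hQ.exists_isMinOn hne hc2.continuousOn
      refine ⟨min (e (z1 + r • V z1) - e z1) (e z2 - e (z2 + (-r) • V z2)), lt_min ?_ ?_, ?_, ?_⟩
      · have := hmonoΩ z1 (hQΩ hz1) (a := 0) (b := r) ⟨by linarith, hr.le⟩ ⟨by linarith, le_rfl⟩ hr
        simp only [zero_smul, add_zero] at this
        linarith
      · have := hmonoΩ z2 (hQΩ hz2) (a := -r) (b := 0) ⟨le_rfl, by linarith⟩ ⟨by linarith, hr.le⟩
          (by linarith)
        simp only [zero_smul, add_zero] at this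
        linarith
      · exact fun z hz => (min_le_left _ _).trans (hm1 hz)
      · exact fun z hz => (min_le_right _ _).trans (hm2 hz)
  -- the cut off in `s`
  let b : ContDiffBump (0 : ℝ) := ⟨h₁ / 2, h₁, by positivity, by linarith⟩
  set κ : ℝ → ℝ := fun s => s * b s with hκ
  have hκs : ContDiff ℝ ∞ κ := contDiff_id.mul b.contDiff
  have hκ1 : ∀ s, |s| ≤ h₁ / 2 → κ s = s := by
    intro s hs
    have : b s = 1 := b.one_of_mem_closedBall (by simpa [Real.dist_eq] using hs)
    rw [hκ]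
    simp [this]
  have hκ2 : ∀ s, |κ s| < h₁ := by
    intro s
    by_cases hs : |s| < h₁
    · rw [hκ]
      simp only [abs_mul]
      refine lt_of_le_of_lt ?_ hs
      have h1 : |b s| ≤ 1 := by
        rw [abs_of_nonneg b.nonneg]
        exact b.le_one
      nlinarith [abs_nonneg s]
    · have : b s = 0 := b.zero_of_le_dist (by
        rw [Real.dist_eq, sub_zero]
        exact not_lt.1 hs)
      rw [hκ]
      simp [this, hh₁]
  -- the root
  have hroot : ∀ p : E × ℝ, ∃ u ∈ Ioo (-r) r, (p.1 ∈ Q → e (p.1 + u • V p.1) - e p.1 =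
      κ p.2 * β p.1) ∧ (p.1 ∉ Q → u = 0) := by
    rintro ⟨z, s⟩
    by_cases hz : z ∈ Q
    · have ht : |κ s * β z| < h₁ := by
        rw [abs_mul]
        have h1 : |β z| ≤ 1 := by
          rw [abs_of_nonneg (hβ01 z).1]
          exact (hβ01 z).2
        have h2 := hκ2 s
        nlinarith [abs_nonneg (κ s), abs_nonneg (β z)]
      have ht' := abs_lt.1 ht
      have hcont : ContinuousOn (fun u : ℝ => e (z + u • V z) - e z) (Icc (-r) r) := fun u _ =>
        ((hder z u).continuousAt.sub continuousAt_const).continuousWithinAt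
      obtain ⟨u, hu, hu'⟩ := intermediate_value_Ioo (by linarith : -r ≤ r) hcont
        (show κ s * β z ∈ Ioo ((fun u : ℝ => e (z + u • V z) - e z) (-r))
          ((fun u : ℝ => e (z + u • V z) - e z) r) from
          ⟨by have := hdown z hz; simp only; linarith, by have := hup z hz; simp only; linarith⟩)
      exact ⟨u, hu, fun _ => hu', fun h => absurd hz h⟩
    · exact ⟨0, ⟨by linarith, hr⟩, fun h => absurd h hz, fun _ => rfl⟩
  choose g hgI hgQ hgn using hroot
  have hβ0 : ∀ z ∉ Q, β z = 0 := fun z hz => image_eq_zero_of_notMem_tsupport hz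
  have hgeq : ∀ p : E × ℝ, e (p.1 + g p • V p.1) - e p.1 - κ p.2 * β p.1 = 0 := by
    intro p
    by_cases hz : p.1 ∈ Q
    · rw [hgQ p hz, sub_self]
    · rw [hgn p hz, hβ0 _ hz]
      simp
  have hgsm : ContDiff ℝ ∞ g := by
    rw [contDiff_iff_contDiffAt]
    rintro ⟨z, s⟩
    by_cases hz : z ∈ Ω
    · let F : (E × ℝ) × ℝ → ℝ := fun q => e (q.1.1 + q.2 • V q.1.1) - e q.1.1 - κ q.1.2 * β q.1.1
      have hF : ContDiff ℝ ∞ F := by
        have h1 : ContDiff ℝ ∞ fun q : (E × ℝ) × ℝ => q.1.1 := contDiff_fst.comp contDiff_fst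
        have h2 : ContDiff ℝ ∞ fun q : (E × ℝ) × ℝ => q.1.2 := contDiff_snd.comp contDiff_fst
        have h3 : ContDiff ℝ ∞ fun q : (E × ℝ) × ℝ => q.2 := contDiff_snd
        exact ((he.comp (h1.add (h3.smul (hV.comp h1)))).sub (he.comp h1)).sub
          ((hκs.comp h2).mul (hβ.comp h1))
      refine contDiffAt_root hF (Ω := Ω ×ˢ univ) (hΩ.prod isOpen_univ) (r := r) ?_
        (fun p _ => hgI p) (fun p _ => hgeq p) (mk_mem_prod hz (mem_univ _))
      rintro ⟨y, t⟩ ⟨hy, -⟩ u hu
      have h1 : HasDerivAt (fun u : ℝ => F ((y, t), u)) (fderiv ℝ e (y + u • V y) (V y)) u :=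
        ((hder y u).sub_const (e y)).sub_const (κ t * β y)
      rw [h1.deriv]
      exact hposΩ y hy u hu
    · have hz' : z ∉ Q := fun h => hz (hQΩ h)
      have hev : g =ᶠ[𝓝 (z, s)] fun _ => 0 := by
        have : (Qᶜ ×ˢ univ : Set (E × ℝ)) ∈ 𝓝 (z, s) :=
          (hQ.isClosed.isOpen_compl.prod isOpen_univ).mem_nhds (mk_mem_prod hz' (mem_univ _))
        filter_upwards [this] with p hp
        exact hgn p hp.1
      exact contDiffAt_const.congr_of_eventuallyEq hev
  set U : ℝ → E → E := fun s z => g (z, s) • V z with hU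
  have hUs : ContDiff ℝ ∞ (fun p : ℝ × E => U p.1 p.2) :=
    (hgsm.comp (contDiff_snd.prodMk contDiff_fst)).smul (hV.comp contDiff_snd)
  have hU0 : ∀ z, U 0 z = 0 := by
    intro z
    have h1 : g (z, 0) = 0 := by
      by_cases hz : z ∈ Q
      · have h2 := hgQ (z, 0) hz
        have h3 : κ 0 = 0 := by simp [hκ]
        simp only [h3, zero_mul] at h2
        have h4 := hmonoΩ z (hQΩ hz)
        have h5 := h4.injOn (x₁ := g (z, 0)) (x₂ := 0) ⟨(hgI (z, 0)).1.le, (hgI (z, 0)).2.le⟩
          ⟨by linarith, hr.le⟩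
        apply h5
        simp only [zero_smul, add_zero]
        linarith
      · exact hgn (z, 0) hz
    rw [hU]
    simp [h1]
  have hUout : ∀ s, ∀ z ∉ Q, U s z = 0 := by
    intro s z hz
    rw [hU]
    simp [hgn (z, s) hz]
  -- smallness
  have hfd : Continuous fun p : ℝ × E => fderiv ℝ (U p.1) p.2 := by
    have h1 : ContDiff ℝ 1 (Function.uncurry fun (p : ℝ × E) (y : E) => U p.1 y) :=
      (hUs.comp ((contDiff_fst.comp contDiff_fst).prodMk contDiff_snd)).of_le (by simp)
    exact (ContDiff.fderiv (n := 0) (m := 1) h1 contDiff_snd (by simp)).continuous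
  have hfd0 : ∀ z, fderiv ℝ (U 0) z = 0 := by
    intro z
    have : U 0 = fun _ => 0 := funext hU0
    rw [this]
    simp
  obtain ⟨J, W, hJ, -, h0J, hQW, hJW⟩ := generalized_tube_lemma (isCompact_singleton (x := (0:ℝ))) hQ
    ((isOpen_lt hfd.norm continuous_const : IsOpen {p : ℝ × E | ‖fderiv ℝ (U p.1) p.2‖ < 1 / 2}).inter
      (isOpen_lt hUs.continuous.norm continuous_const : IsOpen {p : ℝ × E | ‖U p.1 p.2‖ < η}))
    (by
      rintro ⟨s, z⟩ ⟨hs, hz⟩
      simp only [mem_singleton_iff] at hs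
      subst hs
      simp only [mem_inter_iff, mem_ofPred_eq, hfd0, hU0, norm_zero]
      exact ⟨by norm_num, hη⟩)
  obtain ⟨h₂, hh₂, hh₂J⟩ := Metric.isOpen_iff.1 hJ 0 (h0J rfl)
  refine ⟨min (h₁ / 2) (h₂ / 2), lt_min (by positivity) (by positivity), U, hUs, hU0, hUout, ?_, ?_, ?_⟩
  · intro s hs z
    have h1 := hgeq (z, s)
    simp only [hκ1 s (hs.trans (min_le_left _ _))] at h1
    rw [hU]
    simp only
    linarith
  · intro s hs z
    by_cases hz : z ∈ Q
    · have : (s, z) ∈ J ×ˢ W := by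
        refine mk_mem_prod (hh₂J ?_) (hQW hz)
        rw [mem_ball, Real.dist_eq, sub_zero]
        exact (hs.trans (min_le_right _ _)).trans_lt (by linarith)
      exact (hJW this).1.le
    · have hev : U s =ᶠ[𝓝 z] fun _ => 0 := by
        filter_upwards [hQ.isClosed.isOpen_compl.mem_nhds hz] with y hy
        exact hUout s y hy
      rw [hev.fderiv_eq]
      simp
  · intro s hs z
    by_cases hz : z ∈ Q
    · have : (s, z) ∈ J ×ˢ W := by
        refine mk_mem_prod (hh₂J ?_) (hQW hz)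
        rw [mem_ball, Real.dist_eq, sub_zero]
        exact (hs.trans (min_le_right _ _)).trans_lt (by linarith)
      exact (hJW this).2.le
    · rw [hUout s z hz, norm_zero]
      exact hη.le

end Pool.Agent.Lib_MP_752436_nb
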