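import Pool.Agent.Lib_MP_752436_nb.Defs
import Pool.Agent.Lib_MP_752436_nb.Level
import Pool.Agent.Lib_MP_752436_rb.SmallDiffeo

/-!
PIECE LEVELPUSH: diffeomorphisms which raise the levels of a height function.
-/

open Metric Set Filter
open scoped ContDiff Topology NNReal Manifold

namespace Pool.Agent.Lib_MP_752436_nb

open Pool.Agent.Lib_MP_752436_gt Pool.Agent.Lib_MP_752436_tp Pool.Agent.Lib_MP_752436_rb

/-- Smooth cut off functions. -/
theorem exists_smooth_cutoff {E : Type*} [NormedAddCommGroup E] [NormedSpace ℝ E]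
    [FiniteDimensional ℝ E] {K G : Set E} (hK : IsCompact K) (hG : IsOpen G) (hKG : K ⊆ G) :
    ∃ β : E → ℝ, ContDiff ℝ ∞ β ∧ HasCompactSupport β ∧ tsupport β ⊆ G ∧
      (∀ z, β z ∈ Icc (0 : ℝ) 1) ∧ ∀ z ∈ K, β z = 1 := by
  obtain ⟨δ, hδ, hδG⟩ := hK.exists_cthickening_subset_open hG hKG
  have hcl : IsClosed (thickening δ K)ᶜ := isOpen_thickening.isClosed_compl
  have hdisj : Disjoint (thickening δ K)ᶜ K :=
    disjoint_compl_left_iff_subset.2 (self_subset_thickening hδ K)
  obtain ⟨f, h0, h1, h01⟩ := exists_contMDiffMap_zero_one_of_isClosed 𝓘(ℝ, E) (n := ⊤) hcl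
    hK.isClosed hdisj
  have hsupp : tsupport (f : E → ℝ) ⊆ cthickening δ K := by
    refine closure_minimal ?_ isClosed_cthickening
    intro z hz
    by_contra hcon
    exact hz (h0 fun h => hcon (thickening_subset_cthickening _ _ h))
  refine ⟨f, f.contMDiff.contDiff, ?_, hsupp.trans hδG, h01, fun z hz => h1 hz⟩
  exact hK.cthickening.of_isClosed_subset (isClosed_tsupport _) hsupp

/-- A function which vanishes on the unit circle, is positive inside and increases along a vector
field at the points of the circle is negative just outside. -/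
theorem exists_neg_outside {e : Plane → ℝ} {V : Plane → Plane} (he : ContDiff ℝ ∞ e)
    (bd : ∀ x ∈ sphere (0 : Plane) 1, e x = 0) (pos : ∀ x ∈ ball (0 : Plane) 1, 0 < e x)
    (incr : ∀ x ∈ sphere (0 : Plane) 1, 0 < fderiv ℝ e x (V x)) :
    ∃ η : ℝ, 0 < η ∧ ∀ w : Plane, 1 < ‖w‖ → ‖w‖ ≤ 1 + η → e w < 0 := by
  have hed : Differentiable ℝ e := he.differentiable (by simp)
  -- the radial derivative is negative on the circle
  have hrad : ∀ x ∈ sphere (0 : Plane) 1, fderiv ℝ e x x < 0 := by
    intro x hx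
    have hxn : ‖x‖ = 1 := mem_sphere_zero_iff_norm.1 hx
    -- radial derivative is `≤ 0`
    have hle : fderiv ℝ e x x ≤ 0 := by
      have hd : HasDerivAt (fun s : ℝ => e (x - s • x)) (-(fderiv ℝ e x x)) 0 := by
        have h1 : HasDerivAt (fun s : ℝ => x - s • x) (-x) 0 := by
          simpa using ((hasDerivAt_id (0 : ℝ)).smul_const x).const_sub x
        have h2 : HasFDerivAt e (fderiv ℝ e x) (x - (0 : ℝ) • x) := by
          rw [zero_smul, sub_zero]
          exact (hed x).hasFDerivAt
        have h3 := h2.comp_hasDerivAt 0 h1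
        rw [map_neg] at h3
        exact h3
      have hsl := hd.tendsto_slope_zero_right
      simp only [zero_add, zero_smul, sub_zero, bd x hx] at hsl
      have : 0 ≤ -(fderiv ℝ e x x) := by
        refine ge_of_tendsto hsl ?_
        filter_upwards [Ioo_mem_nhdsGT (show (0 : ℝ) < 1 by norm_num)] with s hs
        have hs1 : x - s • x ∈ ball (0 : Plane) 1 := by
          rw [mem_ball_zero_iff, show x - s • x = (1 - s) • x by rw [sub_smul, one_smul],
            norm_smul, hxn, Real.norm_of_nonneg (by linarith [hs.2])]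
          linarith [hs.1]
        have := pos _ hs1
        have hs0 : 0 < s := hs.1
        rw [smul_eq_mul]
        positivity
      linarith
    -- tangential derivative vanishes
    refine lt_of_le_of_ne hle fun h0 => ?_
    have htan : ∀ y : Plane, inner ℝ x y = 0 → fderiv ℝ e x y = 0 := by
      intro y hy
      by_cases hy0 : y = 0
      · rw [hy0, map_zero]
      have hyn : 0 < ‖y‖ := norm_pos_iff.2 hy0
      -- normalise
      have key : ∀ y : Plane, inner ℝ x y = 0 → ‖y‖ = 1 → fderiv ℝ e x y = 0 := by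
        intro y hy hyn
        have hd : HasDerivAt (fun s : ℝ => Real.cos s • x + Real.sin s • y) y 0 := by
          have h1 := ((Real.hasDerivAt_cos 0).smul_const x).fun_add
            ((Real.hasDerivAt_sin 0).smul_const y)
          simpa using h1
        have hc : HasDerivAt (fun s : ℝ => e (Real.cos s • x + Real.sin s • y))
            (fderiv ℝ e x y) 0 := by
          have h2 : HasFDerivAt e (fderiv ℝ e x) (Real.cos 0 • x + Real.sin 0 • y) := by
            simpa using (hed x).hasFDerivAt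
          exact h2.comp_hasDerivAt 0 hd
        have hz : (fun s : ℝ => e (Real.cos s • x + Real.sin s • y)) = fun _ => 0 := by
          funext s
          apply bd
          rw [mem_sphere_zero_iff_norm]
          have h3 : ‖Real.cos s • x + Real.sin s • y‖ ^ 2 = 1 := by
            rw [norm_add_sq_real, norm_smul, norm_smul, inner_smul_left, inner_smul_right, hy,
              hxn, hyn]
            simp only [Real.norm_eq_abs, mul_one, sq_abs, mul_zero, add_zero]
            exact Real.cos_sq_add_sin_sq s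
          nlinarith [norm_nonneg (Real.cos s • x + Real.sin s • y)]
        rw [hz] at hc
        exact hc.unique (hasDerivAt_const 0 0)
      have h4 := key ((‖y‖)⁻¹ • y) (by rw [inner_smul_right, hy, mul_zero])
        (by rw [norm_smul, norm_inv, norm_norm, inv_mul_cancel₀ hyn.ne'])
      rw [map_smul, smul_eq_mul] at h4
      rcases mul_eq_zero.1 h4 with h5 | h5
      · exact absurd (inv_eq_zero.1 h5) hyn.ne'
      · exact h5
    have hV : fderiv ℝ e x (V x) = 0 := by
      have h1 : V x = inner ℝ x (V x) • x + (V x - inner ℝ x (V x) • x) := by abel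
      rw [h1, map_add, map_smul, h0, smul_zero, zero_add]
      apply htan
      rw [inner_sub_right, inner_smul_right, real_inner_self_eq_norm_sq, hxn]
      ring
    exact absurd (incr x hx) (by rw [hV]; exact lt_irrefl _)
  -- negative radial derivative near the circle
  have hc : Continuous fun x : Plane => fderiv ℝ e x x :=
    (he.continuous_fderiv (by simp)).clm_apply continuous_id
  obtain ⟨δ, hδ, hδG⟩ := (isCompact_sphere (0 : Plane) 1).exists_cthickening_subset_open
    (isOpen_lt hc continuous_const : IsOpen {x : Plane | fderiv ℝ e x x < 0}) hrad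
  refine ⟨δ, hδ, fun w hw1 hw2 => ?_⟩
  have hw0 : (0 : ℝ) < ‖w‖ := by linarith
  set x : Plane := (‖w‖)⁻¹ • w with hx
  have hxn : ‖x‖ = 1 := by rw [hx, norm_smul, norm_inv, norm_norm, inv_mul_cancel₀ hw0.ne']
  have hwx : w = ‖w‖ • x := by rw [hx, smul_smul, mul_inv_cancel₀ hw0.ne', one_smul]
  have hder : ∀ s : ℝ, HasDerivAt (fun s : ℝ => e (s • x)) (fderiv ℝ e (s • x) x) s := by
    intro s
    have h1 : HasDerivAt (fun s : ℝ => s • x) x s := by
      simpa using (hasDerivAt_id s).smul_const x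
    exact (hed (s • x)).hasFDerivAt.comp_hasDerivAt s h1
  have hanti : StrictAntiOn (fun s : ℝ => e (s • x)) (Icc 1 (1 + δ)) := by
    refine strictAntiOn_of_deriv_neg (convex_Icc _ _)
      (fun s _ => (hder s).continuousAt.continuousWithinAt) fun s hs => ?_
    rw [(hder s).deriv]
    have hs' : s ∈ Ioo 1 (1 + δ) := by rwa [interior_Icc] at hs
    have hs0 : 0 < s := by linarith [hs'.1]
    have h1 : fderiv ℝ e (s • x) (s • x) < 0 := by
      apply hδG
      refine mem_cthickening_of_dist_le (s • x) x δ _ (mem_sphere_zero_iff_norm.2 hxn) ?_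
      rw [dist_eq_norm, show s • x - x = (s - 1) • x by rw [sub_smul, one_smul], norm_smul, hxn,
        Real.norm_of_nonneg (by linarith [hs'.1])]
      linarith [hs'.2]
    rw [map_smul, smul_eq_mul] at h1
    by_contra hcon
    push Not at hcon
    nlinarith
  have := hanti (a := 1) (b := ‖w‖) ⟨le_rfl, by linarith⟩ ⟨hw1.le, hw2⟩ hw1
  simp only [one_smul, ← hwx] at this
  rwa [bd x (mem_sphere_zero_iff_norm.2 hxn)] at this

/-- **Raising the levels.** -/
theorem exists_levelPush' {e : Plane → ℝ} {V : Plane → Plane} (he : ContDiff ℝ ∞ e)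
    (hV : ContDiff ℝ ∞ V) (bd : ∀ x ∈ sphere (0 : Plane) 1, e x = 0)
    (pos : ∀ x ∈ ball (0 : Plane) 1, 0 < e x) {c : ℝ} (hc : 0 ≤ c)
    (incr : ∀ x ∈ closedBall (0 : Plane) 1, e x ≤ c → 0 < fderiv ℝ e x (V x)) :
    ∃ h₀ : ℝ, 0 < h₀ ∧ ∃ Θ, LevelPush e c h₀ Θ := by
  obtain ⟨η, hη, hneg⟩ := exists_neg_outside he bd pos fun x hx =>
    incr x (sphere_subset_closedBall hx) (by rw [bd x hx]; exact hc)
  have hnn : ∀ x ∈ closedBall (0 : Plane) 1, 0 ≤ e x := by
    intro x hx
    rcases (mem_closedBall_zero_iff.1 hx).lt_or_eq with h | h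
    · exact (pos x (mem_ball_zero_iff.2 h)).le
    · exact (bd x (mem_sphere_zero_iff_norm.2 h)).ge
  have hK : IsCompact {x : Plane | x ∈ closedBall (0 : Plane) 1 ∧ e x ≤ c} :=
    (isCompact_closedBall (0 : Plane) 1).inter_right (isClosed_le he.continuous continuous_const)
  have hqc : Continuous fun x : Plane => fderiv ℝ e x (V x) :=
    (he.continuous_fderiv (by simp)).clm_apply hV.continuous
  obtain ⟨β, hβ, hβc, hβs, hβ01, hβ1⟩ := exists_smooth_cutoff hK
    (isOpen_lt continuous_const hqc : IsOpen {x : Plane | 0 < fderiv ℝ e x (V x)})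
    (fun x hx => incr x hx.1 hx.2)
  obtain ⟨h₀, hh₀, U, hU, hU0, -, hUe, hUd, hUη⟩ :=
    exists_level_push he hV hβ hβc hβ01 hβs hη
  have habs : ∀ h ∈ Icc (0 : ℝ) h₀, |h| ≤ h₀ := fun h hh => by
    rw [abs_of_nonneg hh.1]
    exact hh.2
  -- `z` and its image are in the disc together
  have hin : ∀ h ∈ Icc (0 : ℝ) h₀, ∀ z : Plane, 0 ≤ e z → 0 ≤ e (z + U h z) →
      (z ∈ closedBall (0 : Plane) 1 ↔ z + U h z ∈ closedBall (0 : Plane) 1) := by
    intro h hh z hz hz'
    have hn := hUη h (habs h hh) z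
    simp only [mem_closedBall_zero_iff]
    constructor
    · intro h1
      by_contra hcon
      push Not at hcon
      have h2 : ‖z + U h z‖ ≤ 1 + η := (norm_add_le _ _).trans (by linarith)
      exact absurd (hneg _ hcon h2) (not_lt.2 hz')
    · intro h1
      by_contra hcon
      push Not at hcon
      have h2 : ‖z‖ ≤ 1 + η := by
        have : ‖z‖ = ‖(z + U h z) - U h z‖ := by congr 1; abel
        rw [this]
        exact (norm_sub_le _ _).trans (by linarith)
      exact absurd (hneg _ hcon h2) (not_lt.2 hz)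
  have hinv : ∀ h ∈ Icc (0 : ℝ) h₀, ∃ Φ : Plane → Plane, ContDiff ℝ ∞ Φ ∧
      (∀ x, Φ (x + U h x) = x) ∧ ∀ x, Φ x + U h (Φ x) = x := fun h hh =>
    exists_inverse_id_add (hU.comp (contDiff_const.prodMk contDiff_id)) (hUd h (habs h hh))
  refine ⟨h₀, hh₀, fun h z => z + U h z, ?_, ?_, ?_, ?_, ?_⟩
  · exact contDiff_snd.add hU
  · intro x
    simp [hU0]
  · exact hinv
  · intro h hh s hs hsc
    have hh0 := hh.1
    ext w
    constructor
    · rintro ⟨z, ⟨hz, hzs⟩, rfl⟩
      have h1 : e (z + U h z) = s + h := by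
        rw [hUe h (habs h hh) z, hβ1 z ⟨hz, by linarith⟩, hzs, mul_one]
      exact ⟨(hin h hh z (hnn z hz) (by linarith)).1 hz, h1⟩
    · rintro ⟨hw, hws⟩
      obtain ⟨Φ, -, -, hΦ⟩ := hinv h hh
      have h1 : e (Φ w + U h (Φ w)) = e (Φ w) + h * β (Φ w) := hUe h (habs h hh) (Φ w)
      rw [hΦ, hws] at h1
      have h2 := hβ01 (Φ w)
      have h3 : s ≤ e (Φ w) := by nlinarith [h2.1, h2.2]
      have h4 : Φ w ∈ closedBall (0 : Plane) 1 := by
        refine (hin h hh (Φ w) (by linarith) ?_).2 (by rwa [hΦ])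
        rw [hΦ, hws]
        linarith
      have h5 : e (Φ w) ≤ c := by nlinarith [h2.1, h2.2]
      refine ⟨Φ w, ⟨h4, ?_⟩, hΦ w⟩
      rw [hβ1 _ ⟨h4, h5⟩] at h1
      linarith
  · intro h hh s hs hsc
    have hh0 := hh.1
    ext w
    constructor
    · rintro ⟨z, ⟨hz, hzs⟩, rfl⟩
      have h0 := hUe h (habs h hh) z
      have h2 := hβ01 z
      have h1 : s + h < e (z + U h z) := by
        rcases le_or_gt (e z) c with h3 | h3
        · rw [h0, hβ1 z ⟨hz, h3⟩]
          linarith
        · rw [h0]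
          nlinarith [h2.1, h2.2]
      exact ⟨(hin h hh z (hnn z hz) (by linarith)).1 hz, h1⟩
    · rintro ⟨hw, hws⟩
      obtain ⟨Φ, -, -, hΦ⟩ := hinv h hh
      have h1 : e (Φ w + U h (Φ w)) = e (Φ w) + h * β (Φ w) := hUe h (habs h hh) (Φ w)
      rw [hΦ] at h1
      have h2 := hβ01 (Φ w)
      have h3 : s < e (Φ w) := by nlinarith [h2.1, h2.2]
      have h4 : Φ w ∈ closedBall (0 : Plane) 1 := by
        refine (hin h hh (Φ w) (by linarith) ?_).2 (by rwa [hΦ])
        rw [hΦ]
        linarith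
      exact ⟨Φ w, ⟨h4, h3⟩, hΦ w⟩

theorem exists_levelPush {e : Plane → ℝ} {V : Plane → Plane} {c c₁ : ℝ} (he : ContDiff ℝ ∞ e)
    (hV : ContDiff ℝ ∞ V) (hbd : ∀ x ∈ sphere (0 : Plane) 1, e x = 0)
    (hpos : ∀ x ∈ ball (0 : Plane) 1, 0 < e x) (hc : 0 < c) (hcc : c < c₁)
    (hincr : ∀ x ∈ closedBall (0 : Plane) 1, e x ≤ c₁ → 0 < fderiv ℝ e x (V x)) :
    ∃ (h₀ : ℝ) (Θ : ℝ → Plane → Plane), 0 < h₀ ∧ LevelPush e c h₀ Θ := by
  obtain ⟨h₀, hh₀, Θ, hΘ⟩ := exists_levelPush' he hV hbd hpos hc.le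
    fun x hx hxc => hincr x hx (hxc.trans hcc.le)
  exact ⟨h₀, Θ, hh₀, hΘ⟩

end Pool.Agent.Lib_MP_752436_nb
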