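import Pool.Agent.Lib_MP_752436_nb.Straight
import Pool.Agent.Lib_MP_752436_rc.Main
import Pool.Agent.Lib_MP_752436_gt.KLocal2
import Pool.Agent.Lib_MP_752436_gt.DiagramBirths

/-!
Characterisations of ribbon knots by slice discs whose upper double points enclose little curvature,
and by diagrams without traps.
-/

open MeasureTheory Metric Set Filter
open scoped ContDiff Topology NNReal ENNReal

namespace Pool.Agent.Lib_MP_752436_nb

open Pool.Agent.Lib_MP_752436_gt Pool.Agent.Lib_MP_752436_tp Pool.Agent.Lib_MP_752436_rb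
  Pool.Agent.Lib_MP_752436_rc

theorem boundaryKnot_congr {F G : Plane → EuclideanSpace ℝ (Fin 4)}
    (h : ∀ x, ∀ i, i ≠ 3 → G x i = F x i) : boundaryKnot G = boundaryKnot F := by
  unfold boundaryKnot
  refine image_congr fun x _ => ?_
  ext i
  fin_cases i
  · exact h x 0 (by decide)
  · exact h x 1 (by decide)
  · exact h x 2 (by decide)

/-- A ribbon knot bounds a slice disc with immersed projection whose upper double points enclose
nothing. -/
theorem exists_slice_of_ribbon {K : Set Space} (hK : IsRibbonKnot K) :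
    ∃ F, IsSliceDisc F ∧ boundaryKnot F = K ∧ singularSet F = ∅ ∧ volume (upperSet F) = 0 ∧
      enclosedBy (upperSet F) = upperSet F := by
  obtain ⟨f, A, B, G, h, hfK⟩ := exists_graphDisc hK
  obtain ⟨t, ht, hlt⟩ := h.exists_height
  have hF := isSliceDisc_of_sdisc ht
  have hsh : shadow (lift4 f t) = f := shadow_lift4 f t
  have hproj : projThree (lift4 f t) = f := hsh
  have hval : ∀ x, lift4 f t x 3 = t x := fun x => by simp [lift4]
  have hfi : ∀ x y, (∀ i, i ≠ 3 → lift4 f t x i = lift4 f t y i) → f x = f y := by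
    intro x y hxy
    ext i
    fin_cases i
    · have := hxy 0 (by decide)
      simpa [lift4] using this
    · have := hxy 1 (by decide)
      simpa [lift4] using this
    · have := hxy 2 (by decide)
      simpa [lift4] using this
  have hUA : upperSet (lift4 f t) ⊆ A := by
    rintro x ⟨hx, y, hy, hxy, hlt'⟩
    rw [hval, hval] at hlt'
    have hne : x ≠ y := fun h0 => by rw [h0] at hlt'; exact lt_irrefl _ hlt'
    rcases h.double x hx y hy hne (hfi x y hxy) with ⟨h1, _⟩ | ⟨h1, h2⟩
    · exact h1
    · exact absurd hlt' (not_lt.2 (hlt y h2 x h1).le)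
  refine ⟨lift4 f t, hF, ?_, ?_, measure_mono_null hUA h.volume_zero, ?_⟩
  · unfold boundaryKnot
    rw [hsh, hfK]
  · rw [eq_empty_iff_forall_notMem]
    rintro x ⟨hx, hx0⟩
    refine nvec_ne_zero_of_immersed hF ?_ hx hx0
    intro y hy u hu
    by_contra hcon
    push Not at hcon
    apply hu
    have hinj := h.immersion y hy
    rw [injective_iff_map_eq_zero] at hinj
    apply hinj
    have hcoord : ∀ {n : ℕ} {G : Plane → EuclideanSpace ℝ (Fin n)} {x : Plane}
        (_ : DifferentiableAt ℝ G x) (i : Fin n) (u : Plane),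
        (fderiv ℝ G x u) i = fderiv ℝ (fun y => G y i) x u := by
      intro n G x hG i u
      have h1 : HasFDerivAt (fun y => G y i)
          ((EuclideanSpace.proj i : EuclideanSpace ℝ (Fin n) →L[ℝ] ℝ).comp (fderiv ℝ G x)) x :=
        (EuclideanSpace.proj i : EuclideanSpace ℝ (Fin n) →L[ℝ] ℝ).hasFDerivAt.comp x
          hG.hasFDerivAt
      rw [h1.fderiv]
      rfl
    have hd := (hF.smooth.differentiable (by simp)) y
    have hdf := (h.smooth.differentiable (by simp)) y
    ext i
    rw [hcoord hdf]
    fin_cases i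
    · have h1 := hcon 0 (by decide)
      rw [hcoord hd] at h1
      have h2 : (fun y => lift4 f t y 0) = fun y => f y 0 := by
        funext z
        simp [lift4]
      rw [h2] at h1
      exact h1
    · have h1 := hcon 1 (by decide)
      rw [hcoord hd] at h1
      have h2 : (fun y => lift4 f t y 1) = fun y => f y 1 := by
        funext z
        simp [lift4]
      rw [h2] at h1
      exact h1
    · have h1 := hcon 2 (by decide)
      rw [hcoord hd] at h1
      have h2 : (fun y => lift4 f t y 2) = fun y => f y 2 := by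
        funext z
        simp [lift4]
      rw [h2] at h1
      exact h1
  · ext z
    constructor
    · rintro ⟨hz, hz'⟩
      by_contra hzU
      obtain ⟨y, hy, hj⟩ := h.joined hUA hz hzU
      exact hz' y hy hj
    · intro hz
      exact ⟨hz.1, fun y _ hj => hj.source_mem.2 hz⟩

theorem ribbon_of_enclosed {K : Set Space} {F : Plane → EuclideanSpace ℝ (Fin 4)}
    (hF : IsSliceDisc F) (hK : boundaryKnot F = K) (hS : (singularSet F).Countable)
    (hU : volume (upperSet F) = 0)
    (hc : posCurvatureOn (projThree F) (enclosedBy (upperSet F ∪ singularSet F)) <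
      ENNReal.ofReal (4 * Real.pi)) : IsRibbonKnot K := by
  obtain ⟨G, hG, hfin, hle, hGF, -⟩ := curvature_births_obstacle hF hS hU
  have hpi := Real.pi_pos
  have hb : births G = ∅ := by
    rw [← Set.ncard_eq_zero hfin]
    by_contra h0
    have h1 : (1 : ℝ) ≤ (births G).ncard := by
      exact_mod_cast Nat.one_le_iff_ne_zero.2 h0
    have h2 : ENNReal.ofReal (4 * Real.pi) ≤
        ENNReal.ofReal (4 * Real.pi * (births G).ncard) := by
      apply ENNReal.ofReal_le_ofReal
      nlinarith
    exact absurd (h2.trans hle) (not_le.2 hc)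
  rw [← hK, ← boundaryKnot_congr hGF]
  exact isRibbonKnot_of_noBirths hG hb

/-- The enclosed curvature: gap theorem. -/
theorem ribbon_iff_enclosed (K : Set Space) :
    (IsRibbonKnot K ↔ ∃ F, IsSliceDisc F ∧ boundaryKnot F = K ∧ (singularSet F).Countable ∧
      volume (upperSet F) = 0 ∧
      posCurvatureOn (projThree F) (enclosedBy (upperSet F ∪ singularSet F)) <
        ENNReal.ofReal (4 * Real.pi)) ∧
    (IsRibbonKnot K ↔ ∃ F, IsSliceDisc F ∧ boundaryKnot F = K ∧ singularSet F = ∅ ∧
      volume (upperSet F) = 0 ∧ enclosedBy (upperSet F) = upperSet F) := by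
  have h1 : ∀ F : Plane → EuclideanSpace ℝ (Fin 4), singularSet F = ∅ →
      volume (upperSet F) = 0 → enclosedBy (upperSet F) = upperSet F →
      posCurvatureOn (projThree F) (enclosedBy (upperSet F ∪ singularSet F)) <
        ENNReal.ofReal (4 * Real.pi) := by
    intro F hS hU hE
    rw [hS, union_empty, hE, posCurvatureOn, setLIntegral_measure_zero _ _ hU]
    exact ENNReal.ofReal_pos.2 (by positivity)
  refine ⟨⟨fun h => ?_, ?_⟩, ⟨exists_slice_of_ribbon, ?_⟩⟩
  · obtain ⟨F, hF, hK, hS, hU, hE⟩ := exists_slice_of_ribbon h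
    exact ⟨F, hF, hK, by rw [hS]; exact countable_empty, hU, h1 F hS hU hE⟩
  · rintro ⟨F, hF, hK, hS, hU, hc⟩
    exact ribbon_of_enclosed hF hK hS hU hc
  · rintro ⟨F, hF, hK, hS, hU, hE⟩
    exact ribbon_of_enclosed hF hK (by rw [hS]; exact countable_empty) hU (h1 F hS hU hE)

/-- Diagrams without traps. -/
theorem ribbon_iff_noTrap (K : Set Space) :
    IsRibbonKnot K ↔ ∃ (f : Plane → Space) (R : Plane → Plane → Prop), ContDiff ℝ ∞ f ∧
      (∀ x ∈ closedBall (0 : Plane) 1, Function.Injective (fderiv ℝ f x)) ∧ CrossingInfo f R ∧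
      f '' sphere 0 1 = K ∧ ∀ Z, ¬ IsTrapOf R Z := by
  constructor
  · intro hK
    obtain ⟨f, A, B, G, h, hfK⟩ := exists_graphDisc hK
    refine ⟨f, fun x y => x ∈ A ∧ y ∈ B ∧ y ∈ closedBall (0 : Plane) 1 ∧ f x = f y, h.smooth,
      h.immersion, ⟨?_, ?_, ?_⟩, hfK, ?_⟩
    · have h1 : IsClosed {p : Plane × Plane | p.1 ∈ A} := h.compact.isClosed.preimage continuous_fst
      have h2 : IsClosed {p : Plane × Plane | p.2 ∈ B} := h.closed.preimage continuous_snd
      have h3 : IsClosed {p : Plane × Plane | p.2 ∈ closedBall (0 : Plane) 1} :=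
        isClosed_closedBall.preimage continuous_snd
      have h4 : IsClosed {p : Plane × Plane | f p.1 = f p.2} :=
        isClosed_eq (h.smooth.continuous.comp continuous_fst)
          (h.smooth.continuous.comp continuous_snd)
      exact h1.inter (h2.inter (h3.inter h4))
    · rintro x y ⟨hx, hy, hy', hfxy⟩
      exact ⟨h.inside hx, hy', fun hxy => Set.disjoint_left.1 h.disjoint hx (hxy ▸ hy), hfxy⟩
    · intro x hx y hy hxy hfxy
      rcases h.double x hx y hy hxy hfxy with ⟨h1, h2⟩ | ⟨h1, h2⟩
      · exact Or.inl ⟨h1, h2, hy, hfxy⟩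
      · exact Or.inr ⟨h2, h1, hx, hfxy.symm⟩
    · intro Z hZ
      have hZc : IsClosed Z := hZ.compact.isClosed
      have hfrA : frontier Z ⊆ A := fun x hx => (hZ.above x hx).choose_spec.2.1
      -- `Z` is contained in `A`
      have hZA : Z ⊆ A := by
        intro z hz
        by_contra hzA
        have hzD : z ∈ closedBall (0 : Plane) 1 := ball_subset_closedBall (hZ.sub hz)
        obtain ⟨y, hy, hj⟩ := h.joined subset_rfl hzD hzA
        have hyZ : y ∉ Z := fun hyZ => by
          have h1 := mem_ball.1 (hZ.sub hyZ)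
          have h2 := mem_sphere.1 hy
          linarith
        set S := Set.range hj.somePath with hS
        have hSc : IsPreconnected S := isPreconnected_range hj.somePath.continuous
        have hSA : ∀ x ∈ S, x ∉ A := by
          rintro x ⟨s, rfl⟩
          exact (hj.somePath_mem s).2
        have hcov : S ⊆ interior Z ∪ Zᶜ := by
          intro x hx
          by_cases hxZ : x ∈ Z
          · left
            by_contra hxi
            refine hSA x hx (hfrA ?_)
            rw [frontier, hZc.closure_eq]
            exact ⟨hxZ, hxi⟩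
          · exact Or.inr hxZ
        have hz1 : (S ∩ interior Z).Nonempty := by
          have hzS : z ∈ S := ⟨0, hj.somePath.source⟩
          refine ⟨z, hzS, ?_⟩
          rcases hcov hzS with h1 | h1
          · exact h1
          · exact absurd hz h1
        have hy1 : (S ∩ Zᶜ).Nonempty := ⟨y, ⟨1, hj.somePath.target⟩, hyZ⟩
        obtain ⟨w, _, hw1, hw2⟩ := hSc _ _ isOpen_interior hZc.isOpen_compl hcov hz1 hy1
        exact hw2 (interior_subset hw1)
      obtain ⟨z, hz⟩ := hZ.nonempty
      -- `z` is a frontier point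
      have hzf : z ∈ frontier Z := by
        rw [frontier, hZc.closure_eq]
        refine ⟨hz, fun hzi => ?_⟩
        have h1 : volume (interior Z) = 0 :=
          measure_mono_null (interior_subset.trans hZA) h.volume_zero
        exact (isOpen_interior.measure_pos volume ⟨z, hzi⟩).ne' h1
      obtain ⟨y, hy, -, hyB, -⟩ := hZ.above z hzf
      exact Set.disjoint_left.1 h.disjoint (hZA hy) hyB
  · rintro ⟨f, R, hf, himm, hR, rfl, hno⟩
    obtain ⟨G, hG, hn, -, hGf, -⟩ := (diagram_births hf himm hR 0).2
      ⟨∅, by simp, by simp, fun Z hZ => absurd hZ (hno Z)⟩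
    have hb : births G = ∅ := by
      rw [← Set.encard_eq_zero]
      exact le_antisymm (by simpa using hn) bot_le
    have hbd : boundaryKnot G = f '' sphere 0 1 := by
      unfold boundaryKnot
      exact image_congr fun x _ => hGf x
    rw [← hbd]
    exact isRibbonKnot_of_noBirths hG hb

end Pool.Agent.Lib_MP_752436_nb
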