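import Pool.Agent.Lib_MP_752436_nb.Generic2
import Pool.Agent.Lib_MP_752436_nb.RibbonIff
import Pool.Agent.Lib_MP_752436_tp.Main

/-!
Ribbon knots are the knots which bound a slice disc in general position without locked set of
triple points.
-/

open Metric Set Filter
open scoped ContDiff Topology

namespace Pool.Agent.Lib_MP_752436_nb

open Pool.Agent.Lib_MP_752436_gt Pool.Agent.Lib_MP_752436_tp Pool.Agent.Lib_MP_752436_rb
  Pool.Agent.Lib_MP_752436_rc

theorem ribbon_of_shadow {F G : Plane → EuclideanSpace ℝ (Fin 4)} (hG : MorseDisc G)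
    (hb : (births G).encard ≤ (0 : ℕ)) (hs : ∀ x, shadow G x = shadow F x) :
    IsRibbonKnot (boundaryKnot F) := by
  have hb' : births G = ∅ := by
    rw [← Set.encard_eq_zero]
    exact le_antisymm (by simpa using hb) bot_le
  have h1 : boundaryKnot G = boundaryKnot F := by
    unfold boundaryKnot
    exact image_congr fun x _ => hs x
  rw [← h1]
  exact isRibbonKnot_of_noBirths hG hb'

/-- A slice disc in general position without locked sets of triple points bounds a ribbon knot. -/
theorem ribbon_of_noLocked {F : Plane → EuclideanSpace ℝ (Fin 4)} (hF : IsSliceDisc F)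
    (hg : InGeneralPosition F) (h : ∀ S, ¬ Locked F S) : IsRibbonKnot (boundaryKnot F) := by
  obtain ⟨G, hG, hn, hs⟩ := births_of_locked hF hg.generalPosition (n := 0) (P := ∅) (by simp)
    fun S hS => absurd hS (h S)
  exact ribbon_of_shadow hG hn hs

/-- A locked set has at least two elements. -/
theorem noLocked_of_encard_le {F : Plane → EuclideanSpace ℝ (Fin 4)}
    (h : (triplePoints F).encard ≤ 1) (S : Set Plane) : ¬ Locked F S := by
  intro hS
  obtain ⟨z1, h1, z2, h2, h12⟩ := hS.exists_pair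
  exact h12 (Set.encard_le_one_iff.1 h z1 z2 (hS.sub h1) (hS.sub h2))

/-- Ribbon knots and triple points. -/
theorem ribbon_iff_generic (K : Set Space) :
    (IsRibbonKnot K ↔ ∃ F, IsSliceDisc F ∧ InGeneralPosition F ∧ boundaryKnot F = K ∧
      triplePoints F = ∅) ∧
    (IsRibbonKnot K ↔ ∃ F, IsSliceDisc F ∧ InGeneralPosition F ∧ boundaryKnot F = K ∧
      (triplePoints F).encard ≤ 1) ∧
    (IsRibbonKnot K ↔ ∃ F, IsSliceDisc F ∧ InGeneralPosition F ∧ boundaryKnot F = K ∧
      ∀ S, ¬ Locked F S) := by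
  have key : ∀ F, IsSliceDisc F → InGeneralPosition F → boundaryKnot F = K →
      (triplePoints F).encard ≤ 1 → IsRibbonKnot K := by
    rintro F hF hg rfl h
    exact ribbon_of_noLocked hF hg (noLocked_of_encard_le h)
  refine ⟨⟨exists_generic, ?_⟩, ⟨fun h => ?_, ?_⟩, ⟨fun h => ?_, ?_⟩⟩
  · rintro ⟨F, hF, hg, hK, h⟩
    exact key F hF hg hK (by rw [h]; simp)
  · obtain ⟨F, hF, hg, hK, h0⟩ := exists_generic h
    exact ⟨F, hF, hg, hK, by rw [h0]; simp⟩
  · rintro ⟨F, hF, hg, hK, h⟩
    exact key F hF hg hK h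
  · obtain ⟨F, hF, hg, hK, h0⟩ := exists_generic h
    exact ⟨F, hF, hg, hK, noLocked_of_encard_le (by rw [h0]; simp)⟩
  · rintro ⟨F, hF, hg, rfl, h⟩
    exact ribbon_of_noLocked hF hg h

end Pool.Agent.Lib_MP_752436_nb
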