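import Pool.Agent.Lib_MP_752436_rb.Defs

/-!
Remarks on the definitions: the boundary of a ribbon immersion and the boundary of a slice disc are
embedded circles.
-/

open Metric Set
open scoped ContDiff Topology

namespace Pool.Agent.Lib_MP_752436_nb

open Pool.Agent.Lib_MP_752436_gt Pool.Agent.Lib_MP_752436_rb

theorem injOn_sphere_of_ribbonImmersion {f : EuclideanSpace ℝ (Fin 2) → EuclideanSpace ℝ (Fin 3)}
    (hf : RibbonImmersion f) : InjOn f (sphere 0 1) := by
  intro x hx y hy hxy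
  by_contra hne
  obtain ⟨n, α, β, hp, -, hd⟩ := hf.singularities
  have hball : ∀ z ∈ sphere (0 : EuclideanSpace ℝ (Fin 2)) 1, z ∉ ball (0 : EuclideanSpace ℝ (Fin 2)) 1 := by
    intro z hz hzb
    rw [mem_ball_zero_iff] at hzb
    rw [mem_sphere_zero_iff_norm] at hz
    linarith
  obtain ⟨i, s, hs, h | h⟩ := hd x (sphere_subset_closedBall hx) y (sphere_subset_closedBall hy)
    hne hxy
  · exact hball x hx (h.1 ▸ (hp i).inside s hs)
  · exact hball y hy (h.2 ▸ (hp i).inside s hs)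

/-- At a point of the disc there are at most two sheets of a ribbon immersion. -/
theorem double_of_ribbonImmersion {f : EuclideanSpace ℝ (Fin 2) → EuclideanSpace ℝ (Fin 3)}
    (hf : RibbonImmersion f) {x y z : EuclideanSpace ℝ (Fin 2)} (hx : x ∈ closedBall 0 1)
    (hy : y ∈ closedBall 0 1) (hz : z ∈ closedBall 0 1) (hxy : x ≠ y) (hxz : x ≠ z)
    (h1 : f x = f y) (h2 : f x = f z) : y = z := by
  by_contra hyz
  obtain ⟨n, α, β, hp, hsep, hd⟩ := hf.singularities
  have key : ∀ a ∈ closedBall (0 : EuclideanSpace ℝ (Fin 2)) 1, ∀ b ∈ closedBall (0 : EuclideanSpace ℝ (Fin 2)) 1,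
      a ≠ b → f a = f b → ∃ i, ∃ s ∈ Icc (0 : ℝ) 1, f a = f (α i s) ∧
        ((a = α i s ∧ b = β i s) ∨ (a = β i s ∧ b = α i s)) := by
    intro a ha b hb hab hfab
    obtain ⟨i, s, hs, h | h⟩ := hd a ha b hb hab hfab
    · exact ⟨i, s, hs, by rw [h.1], Or.inl h⟩
    · exact ⟨i, s, hs, by rw [h.1, (hp i).same s hs], Or.inr h⟩
  obtain ⟨i, s, hs, e1, k1⟩ := key x hx y hy hxy h1
  obtain ⟨j, t, ht, e2, k2⟩ := key x hx z hz hxz h2
  obtain ⟨k, r, hr, e3, k3⟩ := key y hy z hz hyz (h1.symm.trans h2)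
  have hij : i = j := by
    by_contra hne
    exact Set.disjoint_left.1 (hsep i j hne) ⟨s, hs, rfl⟩ ⟨t, ht, by
      simp only [Function.comp_apply]; rw [← e2, e1]⟩
  have hik : i = k := by
    by_contra hne
    exact Set.disjoint_left.1 (hsep i k hne) ⟨s, hs, rfl⟩ ⟨r, hr, by
      simp only [Function.comp_apply]; rw [← e3, ← h1, e1]⟩
  subst hij hik
  have hdisj := (hp i).disjoint
  have hno : ∀ a ∈ Icc (0 : ℝ) 1, ∀ b ∈ Icc (0 : ℝ) 1, α i a ≠ β i b := by
    intro a ha b hb hab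
    exact Set.disjoint_left.1 hdisj ⟨a, ha, rfl⟩ ⟨b, hb, hab.symm⟩
  have hαi := (hp i).arcα.inj
  have hβi := (hp i).arcβ.inj
  rcases k1 with ⟨a1, b1⟩ | ⟨a1, b1⟩ <;> rcases k2 with ⟨a2, b2⟩ | ⟨a2, b2⟩
  · have hst : s = t := hαi hs ht (a1.symm.trans a2)
    exact hyz (by rw [b1, b2, hst])
  · exact hno s hs t ht (a1.symm.trans a2)
  · exact hno t ht s hs (a2.symm.trans a1)
  · have hst : s = t := hβi hs ht (a1.symm.trans a2)
    exact hyz (by rw [b1, b2, hst])

end Pool.Agent.Lib_MP_752436_nb
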