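import Pool.Agent.Lib_MP_752436_nb.Diffeo
import Pool.Agent.Lib_MP_752436_gt.BirthsDir
import Pool.Agent.Lib_MP_752436_rb.RibbonDir
import Pool.Agent.Lib_MP_752436_rc.Main

/-!
Slice discs on which a linear function has no local minima.
-/

open MeasureTheory Metric Set
open scoped ContDiff Topology

namespace Pool.Agent.Lib_MP_752436_nb

open Pool.Agent.Lib_MP_752436_gt Pool.Agent.Lib_MP_752436_rb Pool.Agent.Lib_MP_752436_rc

/-- Births from the minima of any smooth function of `R^4` which does not decrease in the direction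
of the height. -/
theorem births_of_height {F : EuclideanSpace ℝ (Fin 2) → EuclideanSpace ℝ (Fin 4)}
    (hF : IsSliceDisc F) {ψ : EuclideanSpace ℝ (Fin 4) → ℝ} (hψ : ContDiff ℝ ∞ ψ)
    (hmono : ∀ p, 0 ≤ fderiv ℝ ψ p (EuclideanSpace.single 3 1))
    (P : Finset (EuclideanSpace ℝ (Fin 2)))
    (hP : ∀ p ∈ P, p ∈ ball (0 : EuclideanSpace ℝ (Fin 2)) 1 ∧
      ∀ u, u ≠ 0 → 0 < fderiv ℝ (fderiv ℝ (fun y => ψ (F y))) p u u)
    (hcrit : ∀ x ∈ closedBall (0 : EuclideanSpace ℝ (Fin 2)) 1,
      fderiv ℝ (fun y => ψ (F y)) x = 0 →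
        (∃ u, fderiv ℝ (fderiv ℝ (fun y => ψ (F y))) x u u < 0) ∨ x ∈ P) :
    ∃ G, MorseDisc G ∧ (births G).encard ≤ P.card ∧ (∀ x, ∀ i, i ≠ 3 → G x i = F x i) ∧
      ∀ s ∈ Icc (0 : ℝ) 1, IsSliceDisc (fun x => (1 - s) • F x + s • G x) := by
  obtain ⟨G, h1, h2, -, h4, h5⟩ := births_of_monotone hF (φ := fun y => ψ (F y))
    (hψ.comp hF.smooth) (by
      intro x hx y hy hi h3
      have hv : ∀ i, i ≠ 3 → (F x - F y) i = 0 := fun i hi3 => by simp [hi i hi3]
      have h5 : F x = F y + (F x 3 - F y 3) • EuclideanSpace.single 3 1 := by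
        have := eq_vertical hv
        rw [PiLp.sub_apply] at this
        rw [← this]; abel
      show ψ (F y) ≤ ψ (F x)
      rw [h5]
      exact mono_vertical hψ hmono (F y) (by linarith)) (by
      intro x hx u hi h3
      have h1 : HasFDerivAt ψ (fderiv ℝ ψ (F x)) (F x) :=
        ((hψ.differentiable (by simp)) _).hasFDerivAt
      have h2 : HasFDerivAt F (fderiv ℝ F x) x :=
        ((hF.smooth.differentiable (by simp)) x).hasFDerivAt
      have h4 : fderiv ℝ (fun y => ψ (F y)) x = (fderiv ℝ ψ (F x)).comp (fderiv ℝ F x) :=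
        (h1.comp x h2).fderiv
      rw [h4, ContinuousLinearMap.comp_apply, eq_vertical hi, map_smul, smul_eq_mul]
      exact mul_nonneg h3 (hmono _)) P hP hcrit one_pos
  exact ⟨G, h1, h2, h4, h5⟩

/-- A slice disc on which some smooth function of `R^4`, which does not decrease in the direction of
the height, has a direction of negative second derivative at each of its critical points, bounds a
ribbon knot. -/
theorem isRibbonKnot_of_height {F : EuclideanSpace ℝ (Fin 2) → EuclideanSpace ℝ (Fin 4)}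
    (hF : IsSliceDisc F) {ψ : EuclideanSpace ℝ (Fin 4) → ℝ} (hψ : ContDiff ℝ ∞ ψ)
    (hmono : ∀ p, 0 ≤ fderiv ℝ ψ p (EuclideanSpace.single 3 1))
    (hcrit : ∀ x ∈ closedBall (0 : EuclideanSpace ℝ (Fin 2)) 1,
      fderiv ℝ (fun y => ψ (F y)) x = 0 →
        ∃ u, fderiv ℝ (fderiv ℝ (fun y => ψ (F y))) x u u < 0) :
    IsRibbonKnot (boundaryKnot F) := by
  obtain ⟨G, hG, hn, hGF, -⟩ := births_of_height hF hψ hmono ∅ (by simp)
    (fun x hx h => Or.inl (hcrit x hx h))
  have hb : births G = ∅ := by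
    rw [← Set.encard_eq_zero]
    exact le_antisymm (by simpa using hn) bot_le
  have hbd : boundaryKnot F = boundaryKnot G := by
    unfold boundaryKnot
    refine Set.image_congr fun x _ => ?_
    unfold shadow
    rw [hGF x 0 (by decide), hGF x 1 (by decide), hGF x 2 (by decide)]
  rw [hbd]
  exact isRibbonKnot_of_noBirths hG hb

/-- A slice disc on which some linear function, which does not decrease upwards, has a direction of
negative second derivative at each of its critical points, bounds a ribbon knot. -/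
theorem isRibbonKnot_of_direction {F : EuclideanSpace ℝ (Fin 2) → EuclideanSpace ℝ (Fin 4)}
    (hF : IsSliceDisc F) {v : EuclideanSpace ℝ (Fin 4)} (hv : 0 ≤ v 3)
    (hcrit : ∀ x ∈ closedBall (0 : EuclideanSpace ℝ (Fin 2)) 1,
      (∀ u, (inner ℝ v (fderiv ℝ F x u) : ℝ) = 0) →
        ∃ u, (inner ℝ v (fderiv ℝ (fderiv ℝ F) x u u) : ℝ) < 0) :
    IsRibbonKnot (boundaryKnot F) := by
  have hbad : ∀ x ∈ closedBall (0 : EuclideanSpace ℝ (Fin 2)) 1, v ∉ badSet F {x} := by
    rintro x hx ⟨y, hy, h1, h2⟩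
    rw [mem_singleton_iff.1 hy] at h1 h2
    obtain ⟨u, hu⟩ := hcrit x hx h1
    exact absurd (h2 u) (not_le.2 hu)
  obtain ⟨G, hG, hn, hGF, -⟩ := births_of_direction hF hv (n := 0)
    (by
      have h0 : {x | x ∈ closedBall (0 : EuclideanSpace ℝ (Fin 2)) 1 ∧ v ∈ badSet F {x}} = ∅ := by
        ext x
        simp only [Set.mem_ofPred_eq, mem_empty_iff_false, iff_false, not_and]
        exact hbad x
      rw [h0]
      simp)
    (fun x hx h => absurd h (hbad x hx))
  have hb : births G = ∅ := by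
    rw [← Set.encard_eq_zero]
    exact le_antisymm (by simpa using hn) bot_le
  have hbd : boundaryKnot F = boundaryKnot G := by
    unfold boundaryKnot
    refine Set.image_congr fun x _ => ?_
    unfold shadow
    rw [hGF x 0 (by decide), hGF x 1 (by decide), hGF x 2 (by decide)]
  rw [hbd]
  exact isRibbonKnot_of_noBirths hG hb

/-- A knot is ribbon if and only if up to isotopy it bounds a slice disc on which some linear
coordinate of `R^3` has no critical point. -/
theorem isRibbonKnot_iff_direction {K : Set (EuclideanSpace ℝ (Fin 3))} :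
    IsRibbonKnot K ↔ ∃ (F : EuclideanSpace ℝ (Fin 2) → EuclideanSpace ℝ (Fin 4))
      (v : EuclideanSpace ℝ (Fin 4)), AmbientIsotopic K (boundaryKnot F) ∧ IsSliceDisc F ∧
        v 3 = 0 ∧ ∀ x ∈ closedBall (0 : EuclideanSpace ℝ (Fin 2)) 1,
          ∃ u, (inner ℝ v (fderiv ℝ F x u) : ℝ) ≠ 0 := by
  constructor
  · intro h
    obtain ⟨F, v, h1, h2, h3, h4⟩ := exists_dir_of_ribbonKnot h
    exact ⟨F, v, h4, h1, h2, h3⟩
  · rintro ⟨F, v, h1, h2, h3, h4⟩
    refine isRibbonKnot_of_ambientIsotopic h1 (isRibbonKnot_of_direction h2 h3.ge ?_)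
    intro x hx hcr
    obtain ⟨u, hu⟩ := h4 x hx
    exact absurd (hcr u) hu

end Pool.Agent.Lib_MP_752436_nb
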