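import Pool.Agent.Lib_MP_752436_nb.FromDisc
import Pool.Agent.Lib_MP_752436_rb.Push

/-!
Slice discs from their projection and height; the image of a Morse slice disc under a
diffeomorphism of `R^3` (times the identity).
-/

open Metric Set Filter
open scoped ContDiff Topology NNReal

namespace Pool.Agent.Lib_MP_752436_nb

open Pool.Agent.Lib_MP_752436_gt Pool.Agent.Lib_MP_752436_tp Pool.Agent.Lib_MP_752436_rb

theorem height_lift4 (g : Plane → Space) (h : Plane → ℝ) : height (lift4 g h) = h := by
  funext x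
  simp [height, lift4]

theorem isSliceDisc_of_sdisc {f : Plane → Space} {t : Plane → ℝ} (h : SDisc f t) :
    IsSliceDisc (lift4 f t) := by
  have hsm : ContDiff ℝ ∞ (lift4 f t) := by
    have hc := contDiff_euclidean.1 h.smf
    refine contDiff_euclidean.2 (fun i => ?_)
    fin_cases i
    · exact hc 0
    · exact hc 1
    · exact hc 2
    · exact h.smt
  have hval : ∀ x, lift4 f t x 0 = f x 0 ∧ lift4 f t x 1 = f x 1 ∧ lift4 f t x 2 = f x 2 ∧
      lift4 f t x 3 = t x := fun x => ⟨by simp [lift4], by simp [lift4], by simp [lift4],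
      by simp [lift4]⟩
  have hcoord : ∀ {n : ℕ} {G : Plane → EuclideanSpace ℝ (Fin n)} {x : Plane}
      (_ : DifferentiableAt ℝ G x) (i : Fin n) (u : Plane),
      (fderiv ℝ G x u) i = fderiv ℝ (fun y => G y i) x u := by
    intro n G x hG i u
    have h1 : HasFDerivAt (fun y => G y i)
        ((EuclideanSpace.proj i : EuclideanSpace ℝ (Fin n) →L[ℝ] ℝ).comp (fderiv ℝ G x)) x :=
      (EuclideanSpace.proj i : EuclideanSpace ℝ (Fin n) →L[ℝ] ℝ).hasFDerivAt.comp x hG.hasFDerivAt
    rw [h1.fderiv]
    rfl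
  refine ⟨hsm, ?_, ?_, ?_, ?_⟩
  · intro x hx y hy hxy
    refine h.inj x hx y hy ?_ ?_
    · ext i
      fin_cases i
      · have := congrArg (fun v : EuclideanSpace ℝ (Fin 4) => v 0) hxy
        simpa [(hval x).1, (hval y).1] using this
      · have := congrArg (fun v : EuclideanSpace ℝ (Fin 4) => v 1) hxy
        simpa [(hval x).2.1, (hval y).2.1] using this
      · have := congrArg (fun v : EuclideanSpace ℝ (Fin 4) => v 2) hxy
        simpa [(hval x).2.2.1, (hval y).2.2.1] using this
    · have := congrArg (fun v : EuclideanSpace ℝ (Fin 4) => v 3) hxy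
      simpa [(hval x).2.2.2, (hval y).2.2.2] using this
  · intro x hx
    rw [injective_iff_map_eq_zero]
    intro u hu
    have hd := (hsm.differentiable (by simp)) x
    have hdf := (h.smf.differentiable (by simp)) x
    refine h.imm x hx u ?_ ?_
    · ext i
      rw [hcoord hdf]
      fin_cases i
      · have h1 := hcoord hd 0 u
        rw [hu] at h1
        have h2 : (fun y => lift4 f t y 0) = fun y => f y 0 := funext fun y => (hval y).1
        rw [h2] at h1
        exact h1.symm
      · have h1 := hcoord hd 1 u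
        rw [hu] at h1
        have h2 : (fun y => lift4 f t y 1) = fun y => f y 1 := funext fun y => (hval y).2.1
        rw [h2] at h1
        exact h1.symm
      · have h1 := hcoord hd 2 u
        rw [hu] at h1
        have h2 : (fun y => lift4 f t y 2) = fun y => f y 2 := funext fun y => (hval y).2.2.1
        rw [h2] at h1
        exact h1.symm
    · have h1 := hcoord hd 3 u
      rw [hu] at h1
      have h2 : (fun y => lift4 f t y 3) = t := funext fun y => (hval y).2.2.2
      rw [h2] at h1
      exact h1.symm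
  · intro x hx
    rw [(hval x).2.2.2]
    exact h.bd x hx
  · intro x hx
    rw [(hval x).2.2.2]
    exact h.pos x hx

theorem SDisc.comp_diffeo {f : Plane → Space} {t : Plane → ℝ} (h : SDisc f t)
    {Φ Ψ : Space → Space} (hΦ : ContDiff ℝ ∞ Φ) (hΨ : ContDiff ℝ ∞ Ψ) (h1 : ∀ x, Ψ (Φ x) = x) :
    SDisc (fun x => Φ (f x)) t where
  smf := hΦ.comp h.smf
  smt := h.smt
  inj := fun x hx y hy hxy hxy' => h.inj x hx y hy (by
    have := congrArg Ψ hxy
    rwa [h1, h1] at this) hxy'
  imm := fun x hx u hu hu' => by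
    refine h.imm x hx u ?_ hu'
    have hdf := (h.smf.differentiable (by simp)) x
    have hdΦ := (hΦ.differentiable (by simp)) (f x)
    have hdΨ := (hΨ.differentiable (by simp)) (Φ (f x))
    have h2 : HasFDerivAt (fun y => Φ (f y)) ((fderiv ℝ Φ (f x)).comp (fderiv ℝ f x)) x :=
      hdΦ.hasFDerivAt.comp x hdf.hasFDerivAt
    rw [h2.fderiv] at hu
    have h3 : HasFDerivAt (fun y => Ψ (Φ y)) ((fderiv ℝ Ψ (Φ (f x))).comp (fderiv ℝ Φ (f x)))
        (f x) := hdΨ.hasFDerivAt.comp (f x) hdΦ.hasFDerivAt
    have h4 : HasFDerivAt (fun y => Ψ (Φ y)) (ContinuousLinearMap.id ℝ Space) (f x) := by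
      have : (fun y => Ψ (Φ y)) = fun y => y := funext h1
      rw [this]
      exact hasFDerivAt_id (f x)
    have h5 := h3.unique h4
    have h6 : fderiv ℝ Ψ (Φ (f x)) (fderiv ℝ Φ (f x) (fderiv ℝ f x u)) = fderiv ℝ f x u := by
      have := congrArg (fun L : Space →L[ℝ] Space => L (fderiv ℝ f x u)) h5
      simpa using this
    rw [← h6]
    have h7 : fderiv ℝ Φ (f x) (fderiv ℝ f x u) = 0 := hu
    rw [h7, map_zero]
  bd := h.bd
  pos := h.pos

/-- The image of a Morse slice disc under a diffeomorphism of `R^3`, with the same height. -/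
theorem exists_transport {G : Plane → EuclideanSpace ℝ (Fin 4)} (hG : MorseDisc G)
    {Φ Ψ : Space → Space} (hΦ : ContDiff ℝ ∞ Φ) (hΨ : ContDiff ℝ ∞ Ψ) (h1 : ∀ x, Ψ (Φ x) = x) :
    ∃ G', MorseDisc G' ∧ births G' = births G ∧ boundaryKnot G' = Φ '' boundaryKnot G := by
  have hs := (sdisc_of_sliceDisc hG.slice).comp_diffeo hΦ hΨ h1
  have hh : height (lift4 (fun x => Φ (shadow G x)) (height G)) = height G := height_lift4 _ _
  refine ⟨lift4 (fun x => Φ (shadow G x)) (height G), ⟨isSliceDisc_of_sdisc hs, ?_, ?_⟩, ?_, ?_⟩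
  · rw [hh]
    exact hG.neat
  · rw [hh]
    exact hG.morse
  · unfold births
    rw [hh]
  · unfold boundaryKnot
    rw [shadow_lift4, image_image]

end Pool.Agent.Lib_MP_752436_nb
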