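import Pool.Agent.Lib_MP_752436_tp.Defs2
import Pool.Agent.Lib_MP_752436_rb.Defs

/-!
Working definitions for the theorem: a Morse slice disc without births has a ribbon knot as its
boundary knot (in the literal sense `IsRibbonKnot`). Throughout `D = closedBall 0 1`, `f` is the
projection of the disc to `R^3` and `t` is its height.
-/

open Metric Set Filter
open scoped ContDiff Topology NNReal

namespace Pool.Agent.Lib_MP_752436_nb

open Pool.Agent.Lib_MP_752436_gt Pool.Agent.Lib_MP_752436_tp Pool.Agent.Lib_MP_752436_rb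

/-- `f`, `t` are the projection to `R^3` and the height of a slice disc. -/
structure SDisc (f : Plane → Space) (t : Plane → ℝ) : Prop where
  smf : ContDiff ℝ ∞ f
  smt : ContDiff ℝ ∞ t
  inj : ∀ x ∈ closedBall (0 : Plane) 1, ∀ y ∈ closedBall (0 : Plane) 1,
    f x = f y → t x = t y → x = y
  imm : ∀ x ∈ closedBall (0 : Plane) 1, ∀ u, fderiv ℝ f x u = 0 → fderiv ℝ t x u = 0 → u = 0
  bd : ∀ x ∈ sphere (0 : Plane) 1, t x = 0
  pos : ∀ x ∈ ball (0 : Plane) 1, 0 < t x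

/-- The height is a neat Morse function without local minima in the open disc. -/
structure MorseNB (t : Plane → ℝ) : Prop where
  neat : ∀ x ∈ sphere (0 : Plane) 1, fderiv ℝ t x ≠ 0
  morse : ∀ x ∈ ball (0 : Plane) 1, fderiv ℝ t x = 0 →
    ∀ u, u ≠ 0 → ∃ w, fderiv ℝ (fderiv ℝ t) x u w ≠ 0
  noMin : ∀ x ∈ ball (0 : Plane) 1, fderiv ℝ t x = 0 → ∃ u, fderiv ℝ (fderiv ℝ t) x u u < 0

/-- `V` is a gradient like vector field for `t` on the disc, linear near the saddles. -/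
structure GradField (t : Plane → ℝ) (V : Plane → Plane) : Prop where
  smooth : ContDiff ℝ ∞ V
  compact : HasCompactSupport V
  zero : ∀ x ∈ closedBall (0 : Plane) 1, fderiv ℝ t x = 0 → V x = 0
  incr : ∀ x ∈ closedBall (0 : Plane) 1, fderiv ℝ t x ≠ 0 → 0 < fderiv ℝ t x (V x)
  saddle : ∀ c ∈ ball (0 : Plane) 1, fderiv ℝ t c = 0 →
    (∃ u, 0 < fderiv ℝ (fderiv ℝ t) c u u) → ∃ (L : Plane ≃L[ℝ] Plane) (r : ℝ), 0 < r ∧
      ∀ z ∈ ball (0 : Plane) r, V (c + L z) = L !₂[z 0, -z 1]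

/-- `p` lies above `q`. -/
def Abv (f : Plane → Space) (t : Plane → ℝ) (p q : Plane) : Prop :=
  p ∈ closedBall (0 : Plane) 1 ∧ q ∈ closedBall (0 : Plane) 1 ∧ f p = f q ∧ t q < t p

/-- The points of the disc which never leave it under the backward flow: the critical points and
their ascending curves. -/
def Gam (φ : ℝ → Plane → Plane) : Set Plane :=
  {z | ∀ s : ℝ, 0 ≤ s → φ (-s) z ∈ closedBall (0 : Plane) 1}

/-- A compact forward invariant set which contains `Gam φ` and contains all points above its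
points; `f` is an immersion on it, and there are only finitely many pairs above it, at each of
which the two sheets are transverse. -/
structure Tree (f : Plane → Space) (t : Plane → ℝ) (φ : ℝ → Plane → Plane) (T : Set Plane) :
    Prop where
  compact : IsCompact T
  inside : T ⊆ ball 0 1
  gam : Gam φ ⊆ T
  fwd : ∀ s : ℝ, 0 ≤ s → ∀ z ∈ T, φ s z ∈ T
  lift : ∀ p q, Abv f t p q → q ∈ T → p ∈ T
  imm : ∀ z ∈ T, Function.Injective (fderiv ℝ f z)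
  unique : ∀ p p' q, Abv f t p q → Abv f t p' q → q ∈ T → p = p'
  finite : {a : Plane × Plane | Abv f t a.1 a.2 ∧ a.2 ∈ T}.Finite
  trans : ∀ p q, Abv f t p q → q ∈ T → ∀ w, ∃ u v, fderiv ℝ f p u + fderiv ℝ f q v = w

/-- `n` local double curves `(p j, q j)`, `-1 ≤ τ ≤ 1`, which contain all pairs `(x, y)`, `x` above
`y`, with `y` in the neighbourhood `N` of `T`. -/
structure Loc (f : Plane → Space) (t : Plane → ℝ) (T N : Set Plane) {n : ℕ}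
    (p q : Fin n → ℝ → Plane) : Prop where
  openN : IsOpen N
  sub : T ⊆ N
  inside : N ⊆ ball 0 1
  imm : ∀ z ∈ N, Function.Injective (fderiv ℝ f z)
  smp : ∀ j, ContDiff ℝ ∞ (p j)
  smq : ∀ j, ContDiff ℝ ∞ (q j)
  regp : ∀ j, ∀ τ ∈ Icc (-1 : ℝ) 1, deriv (p j) τ ≠ 0
  regq : ∀ j, ∀ τ ∈ Icc (-1 : ℝ) 1, deriv (q j) τ ≠ 0
  memp : ∀ j, ∀ τ ∈ Icc (-1 : ℝ) 1, p j τ ∈ ball (0 : Plane) 1
  memq : ∀ j, ∀ τ ∈ Icc (-1 : ℝ) 1, q j τ ∈ ball (0 : Plane) 1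
  injp : ∀ i j, ∀ σ ∈ Icc (-1 : ℝ) 1, ∀ τ ∈ Icc (-1 : ℝ) 1, p i σ = p j τ → i = j ∧ σ = τ
  injq : ∀ i j, ∀ σ ∈ Icc (-1 : ℝ) 1, ∀ τ ∈ Icc (-1 : ℝ) 1, q i σ = q j τ → i = j ∧ σ = τ
  disj : ∀ i j, ∀ σ ∈ Icc (-1 : ℝ) 1, ∀ τ ∈ Icc (-1 : ℝ) 1, p i σ ≠ q j τ
  same : ∀ j, ∀ τ ∈ Icc (-1 : ℝ) 1, f (p j τ) = f (q j τ)
  above : ∀ j, ∀ τ ∈ Icc (-1 : ℝ) 1, t (q j τ) < t (p j τ)
  ends : ∀ j, q j (-1) ∉ N ∧ q j 1 ∉ N
  cover : ∀ x y, Abv f t x y → y ∈ N → ∃ j, ∃ τ ∈ Ioo (-1 : ℝ) 1, x = p j τ ∧ y = q j τ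

/-- A height function `e` which orders the pairs of double points in the same way as `t`, increases
along `V` on `{e ≤ c₁}`, and with `{c₀ ≤ e}` contained in `N`. -/
structure HeightFn (f : Plane → Space) (t : Plane → ℝ) (V : Plane → Plane) (N : Set Plane)
    (e : Plane → ℝ) (c₀ c₁ : ℝ) : Prop where
  smooth : ContDiff ℝ ∞ e
  bd : ∀ x ∈ sphere (0 : Plane) 1, e x = 0
  pos : ∀ x ∈ ball (0 : Plane) 1, 0 < e x
  compat : ∀ p q, Abv f t p q → e q < e p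
  ker : ∀ x ∈ closedBall (0 : Plane) 1, ∀ u, fderiv ℝ f x u = 0 → fderiv ℝ e x u = 0 → u = 0
  c₀_pos : 0 < c₀
  lt : c₀ < c₁
  incr : ∀ x ∈ closedBall (0 : Plane) 1, e x ≤ c₁ → 0 < fderiv ℝ e x (V x)
  sub : ∀ x ∈ closedBall (0 : Plane) 1, c₀ ≤ e x → x ∈ N

/-- `Θ h`, `0 ≤ h ≤ h₀`, are diffeomorphisms of the plane which raise `e` by `h` as long as it
stays below `c`. -/
structure LevelPush (e : Plane → ℝ) (c h₀ : ℝ) (Θ : ℝ → Plane → Plane) : Prop where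
  smooth : ContDiff ℝ ∞ (fun p : ℝ × Plane => Θ p.1 p.2)
  start : ∀ x, Θ 0 x = x
  inverse : ∀ h ∈ Icc (0 : ℝ) h₀, ∃ Φ : Plane → Plane, ContDiff ℝ ∞ Φ ∧ (∀ x, Φ (Θ h x) = x) ∧
    ∀ x, Θ h (Φ x) = x
  level : ∀ h ∈ Icc (0 : ℝ) h₀, ∀ s : ℝ, 0 ≤ s → s + h ≤ c →
    Θ h '' {z | z ∈ closedBall (0 : Plane) 1 ∧ e z = s} =
      {z | z ∈ closedBall (0 : Plane) 1 ∧ e z = s + h}
  super : ∀ h ∈ Icc (0 : ℝ) h₀, ∀ s : ℝ, 0 ≤ s → s + h ≤ c →
    Θ h '' {z | z ∈ closedBall (0 : Plane) 1 ∧ s < e z} =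
      {z | z ∈ closedBall (0 : Plane) 1 ∧ s + h < e z}

end Pool.Agent.Lib_MP_752436_nb
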