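import Pool.Agent.Lib_MP_752436_nb.Defs
import Pool.Agent.Lib_MP_752436_rb.SmallDiffeo

/-!
PIECE DIFFEO: ambient isotopy is an equivalence relation (only what is needed), and ribbon knots
are invariant.
-/

open Metric Set Filter
open scoped ContDiff Topology NNReal

namespace Pool.Agent.Lib_MP_752436_nb

open Pool.Agent.Lib_MP_752436_gt Pool.Agent.Lib_MP_752436_tp Pool.Agent.Lib_MP_752436_rb

theorem ambientIsotopic_refl (K : Set Space) : AmbientIsotopic K K := by
  refine ⟨fun _ x => x, isIsotopy_id univ, ?_⟩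
  simp

theorem AmbientIsotopic.trans {K K' K'' : Set Space} (h : AmbientIsotopic K K')
    (h' : AmbientIsotopic K' K'') : AmbientIsotopic K K'' := by
  obtain ⟨Ψ, hΨ, h1⟩ := h
  obtain ⟨Ψ', hΨ', h1'⟩ := h'
  refine ⟨fun s x => Ψ' s (Ψ s x), hΨ'.comp hΨ, ?_⟩
  rw [← h1', ← h1, image_image]

theorem RibbonImmersion.comp_diffeo {f : Plane → Space} (hf : RibbonImmersion f)
    {Φ Ψ : Space → Space} (hΦ : ContDiff ℝ ∞ Φ) (hΨ : ContDiff ℝ ∞ Ψ) (h1 : ∀ x, Ψ (Φ x) = x)
    (h2 : ∀ x, Φ (Ψ x) = x) : RibbonImmersion (fun x => Φ (f x)) := by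
  have hinj : Function.Injective Φ := Function.LeftInverse.injective h1
  have hne : (∞ : WithTop ℕ∞) ≠ 0 := by simp
  refine ⟨hΦ.comp hf.smooth, fun x hx => ?_, ?_⟩
  · have hfx : DifferentiableAt ℝ f x := (hf.smooth.differentiable hne) x
    have hΦx : DifferentiableAt ℝ Φ (f x) := (hΦ.differentiable hne) (f x)
    have hΨx : DifferentiableAt ℝ Ψ (Φ (f x)) := (hΨ.differentiable hne) (Φ (f x))
    have hc : fderiv ℝ (fun y => Φ (f y)) x = (fderiv ℝ Φ (f x)).comp (fderiv ℝ f x) :=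
      fderiv_comp x hΦx hfx
    have hid : (fderiv ℝ Ψ (Φ (f x))).comp (fderiv ℝ Φ (f x)) =
        ContinuousLinearMap.id ℝ Space := by
      have h3 : fderiv ℝ (fun y => Ψ (Φ y)) (f x) =
          (fderiv ℝ Ψ (Φ (f x))).comp (fderiv ℝ Φ (f x)) := fderiv_comp (f x) hΨx hΦx
      rw [← h3]
      have h4 : (fun y => Ψ (Φ y)) = id := by
        funext y
        exact h1 y
      rw [h4, fderiv_id]
    have hΦi : Function.Injective (fderiv ℝ Φ (f x)) := by
      refine Function.LeftInverse.injective (g := fderiv ℝ Ψ (Φ (f x))) fun u => ?_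
      have h5 := congrArg (fun L : Space →L[ℝ] Space => L u) hid
      simpa using h5
    rw [hc]
    exact hΦi.comp (hf.immersion x hx)
  · obtain ⟨n, α, β, hp, hd, hs⟩ := hf.singularities
    refine ⟨n, α, β, fun i => ?_, fun i j hij => ?_, fun x hx y hy hxy he => ?_⟩
    · have h := hp i
      exact ⟨h.arcα, h.arcβ, h.inside, h.proper, h.left, h.right, h.disjoint,
        fun s hs' => congrArg Φ (h.same s hs')⟩
    · have h := hd i j hij
      have e1 : ∀ k : Fin n, ((fun x => Φ (f x)) ∘ α k) '' Icc 0 1 =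
          Φ '' ((f ∘ α k) '' Icc 0 1) := by
        intro k
        rw [image_image]
        rfl
      rw [e1 i, e1 j]
      exact (disjoint_image_iff hinj).2 h
    · exact hs x hx y hy hxy (hinj he)

theorem isRibbonKnot_of_ambientIsotopic {K K' : Set Space} (h : AmbientIsotopic K K')
    (hK' : IsRibbonKnot K') : IsRibbonKnot K := by
  obtain ⟨Ψ, hΨ, h1⟩ := h
  obtain ⟨f, hf, hfK⟩ := hK'
  obtain ⟨Φ, hΦ, hl, hr⟩ := hΨ.inverse 1 ⟨zero_le_one, le_refl 1⟩
  have hΨ1 : ContDiff ℝ ∞ (Ψ 1) := by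
    have h2 : ContDiff ℝ ∞ (fun x : Space => ((1 : ℝ), x)) := contDiff_const.prodMk contDiff_id
    exact hΨ.smooth.comp h2
  refine ⟨fun x => Φ (f x), RibbonImmersion.comp_diffeo hf hΦ hΨ1 hr hl, ?_⟩
  have h3 : (fun x => Φ (f x)) '' sphere 0 1 = Φ '' (f '' sphere 0 1) := by
    rw [image_image]
  rw [h3, hfK, ← h1, image_image]
  simp only [hl]
  exact image_id' K

end Pool.Agent.Lib_MP_752436_nb
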