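import Pool.Agent.Lib_MP_752436_tp.Defs2

/-!
Lipschitz functions which increase along a flow: the sup of a bump over backward orbits.
-/

open Metric Set Filter
open scoped ContDiff Topology NNReal

namespace Pool.Agent.Lib_MP_752436_nb

open Pool.Agent.Lib_MP_752436_gt Pool.Agent.Lib_MP_752436_tp

variable {E : Type*} [NormedAddCommGroup E] [NormedSpace ℝ E] {v : E → E} {Φ : ℝ → E → E}
  {L : ℝ≥0}

theorem flow_cont_time (h : IsFlow v Φ) (x : E) : Continuous fun s => Φ s x :=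
  continuous_iff_continuousAt.2 fun t => (h.deriv x t).continuousAt

theorem flow_neg (h : IsFlow v Φ) : IsFlow (fun x => - v x) (fun s => Φ (-s)) where
  zero := fun x => by simp [h.zero]
  deriv := fun x t => by
    have := (h.deriv x (-t)).scomp t (hasDerivAt_neg t)
    simpa [Function.comp_def] using this
  add := fun s t x => by
    rw [← h.add]
    congr 1
    ring

theorem flow_dist_le (h : IsFlow v Φ) (hL : LipschitzWith L v) (x y : E) {s : ℝ} (hs : 0 ≤ s) :
    dist (Φ s x) (Φ s y) ≤ dist x y * Real.exp (L * s) := by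
  have := dist_le_of_trajectories_ODE (v := fun _ => v) (K := L) (fun _ => hL)
    (f := fun t => Φ t x) (g := fun t => Φ t y) (a := 0) (b := s) (δ := dist x y)
    (flow_cont_time h x).continuousOn (fun t _ => (h.deriv x t).hasDerivWithinAt)
    (flow_cont_time h y).continuousOn (fun t _ => (h.deriv y t).hasDerivWithinAt)
    (by simp [h.zero]) s ⟨hs, le_rfl⟩
  simpa using this

theorem flow_lipschitz (h : IsFlow v Φ) (hL : LipschitzWith L v) {s n : ℝ} (hs : |s| ≤ n) :
    LipschitzWith ⟨Real.exp (L * n), (Real.exp_pos _).le⟩ (Φ s) := by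
  refine LipschitzWith.of_dist_le_mul fun x y => ?_
  show _ ≤ Real.exp (L * n) * dist x y
  have hn : (0 : ℝ) ≤ L := L.2
  rcases le_total 0 s with h0 | h0
  · refine (flow_dist_le h hL x y h0).trans ?_
    rw [mul_comm]
    gcongr
    exact (le_abs_self s).trans hs
  · have hL' : LipschitzWith L (fun x => - v x) := by
      refine LipschitzWith.of_dist_le_mul fun x y => ?_
      rw [dist_neg_neg]
      exact hL.dist_le_mul x y
    have := flow_dist_le (flow_neg h) hL' x y (s := -s) (by linarith)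
    simp only [neg_neg] at this
    refine this.trans ?_
    rw [mul_comm]
    gcongr
    exact (neg_le_abs s).trans hs

theorem flow_continuous (h : IsFlow v Φ) (hL : LipschitzWith L v) :
    Continuous fun p : ℝ × E => Φ p.1 p.2 := by
  rw [continuous_iff_continuousAt]
  rintro ⟨s, x⟩
  have h1 : Tendsto (fun p : ℝ × E => dist (Φ p.1 p.2) (Φ s x)) (𝓝 (s, x)) (𝓝 0) := by
    have h2 : Tendsto (fun p : ℝ × E => Real.exp (L * (|s| + 1)) * dist p.2 x +
        dist (Φ p.1 x) (Φ s x)) (𝓝 (s, x)) (𝓝 0) := by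
      have h3 : Tendsto (fun p : ℝ × E => dist p.2 x) (𝓝 (s, x)) (𝓝 0) := by
        have : Continuous fun p : ℝ × E => dist p.2 x := by fun_prop
        simpa using this.tendsto (s, x)
      have h4 : Tendsto (fun p : ℝ × E => dist (Φ p.1 x) (Φ s x)) (𝓝 (s, x)) (𝓝 0) := by
        have : Continuous fun p : ℝ × E => dist (Φ p.1 x) (Φ s x) :=
          ((flow_cont_time h x).comp continuous_fst).dist continuous_const
        simpa using this.tendsto (s, x)
      simpa using (h3.const_mul (Real.exp (L * (|s| + 1)))).add h4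
    refine squeeze_zero' (Eventually.of_forall fun _ => dist_nonneg) ?_ h2
    have hev : ∀ᶠ p : ℝ × E in 𝓝 (s, x), |p.1| ≤ |s| + 1 := by
      have : Continuous fun p : ℝ × E => |p.1| := by fun_prop
      have h5 := this.tendsto (s, x)
      exact h5.eventually_le_const (by show |s| < |s| + 1; linarith)
    filter_upwards [hev] with p hp
    refine (dist_triangle _ (Φ p.1 x) _).trans ?_
    gcongr
    exact (flow_lipschitz h hL hp).dist_le_mul p.2 x
  exact tendsto_iff_dist_tendsto_zero.2 h1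

/-- Forward invariant neighbourhoods. -/
theorem exists_forward_nhd (h : IsFlow v Φ) (hL : LipschitzWith L v) {D T N : Set E}
    (hD : IsCompact D) (hinv : ∀ z ∈ D, ∀ s, 0 ≤ s → Φ s z ∈ D)
    (hTinv : ∀ z ∈ T, ∀ s, 0 ≤ s → Φ s z ∈ T)
    (hΓ : ∀ z ∈ D, (∀ s, 0 ≤ s → Φ (-s) z ∈ D) → z ∈ T)
    (hN : IsOpen N) (hTN : T ⊆ N) :
    ∃ n : ℝ, 0 ≤ n ∧ (∀ z, Φ (-n) z ∈ D → z ∈ N) ∧ ∃ B : Set E, IsOpen B ∧ T ⊆ B ∧
      ∀ z ∈ B ∩ D, ∀ s, 0 ≤ s → Φ s z ∈ N := by
  -- the sets `Φ n D` decrease to a subset of `T`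
  have hcont := flow_continuous h hL
  have hback : ∀ {z : E} {s r : ℝ}, Φ (-s) z ∈ D → r ≤ s → Φ (-r) z ∈ D := by
    intro z s r hz hr
    have := hinv _ hz (s - r) (by linarith)
    rw [← h.add] at this
    rwa [show s - r + -s = -r by ring] at this
  have hn : ∃ n : ℕ, ∀ z, Φ (-(n : ℝ)) z ∈ D → z ∈ N := by
    by_contra hcon
    push Not at hcon
    choose z hz hzN using hcon
    have hzD : ∀ n, z n ∈ D := fun n => by
      have := hback (hz n) (r := 0) (by positivity)
      simpa [h.zero] using this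
    obtain ⟨w, hw, ψ, hψ, hlim⟩ := hD.tendsto_subseq hzD
    have hwΓ : ∀ s, 0 ≤ s → Φ (-s) w ∈ D := by
      intro s hs
      have h1 : Tendsto (fun n => Φ (-s) (z (ψ n))) atTop (𝓝 (Φ (-s) w)) := by
        have : Continuous fun x : E => Φ (-s) x :=
          hcont.comp (Continuous.prodMk continuous_const continuous_id)
        exact (this.tendsto w).comp hlim
      refine hD.isClosed.mem_of_tendsto h1 ?_
      obtain ⟨m, hm⟩ := exists_nat_ge s
      filter_upwards [hψ.tendsto_atTop.eventually_ge_atTop m] with n hn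
      refine hback (hz (ψ n)) (hm.trans ?_)
      exact_mod_cast hn
    have hwT := hTN (hΓ w hw hwΓ)
    have : ∀ᶠ n in atTop, z (ψ n) ∈ N := hlim.eventually (hN.mem_nhds hwT)
    obtain ⟨n, hn⟩ := this.exists
    exact hzN _ hn
  obtain ⟨n, hn⟩ := hn
  refine ⟨n, by positivity, hn, {z | ∀ s ∈ Icc (0 : ℝ) n, Φ s z ∈ N}, ?_, ?_, ?_⟩
  · rw [isOpen_iff_mem_nhds]
    intro z hz
    have ho : IsOpen {p : E × ℝ | Φ p.2 p.1 ∈ N} :=
      hN.preimage (hcont.comp continuous_swap)
    exact (isCompact_Icc (a := (0 : ℝ)) (b := n)).eventually_forall_of_forall_eventually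
      (P := fun x s => Φ s x ∈ N) fun s hs => ho.mem_nhds (hz s hs)
  · intro z hz s hs
    exact hTN (hTinv z hz s hs.1)
  · rintro z ⟨hz, hzD⟩ s hs
    rcases le_total s n with h1 | h1
    · exact hz s ⟨hs, h1⟩
    · apply hn
      have := hinv z hzD (s - n) (by linarith)
      rw [← h.add]
      rwa [show -(n : ℝ) + s = s - n by ring]

/-- The supremum of a function over the backward orbit up to time `n`. -/
noncomputable def backSup (Φ : ℝ → E → E) (θ : E → ℝ) (n : ℝ) (z : E) : ℝ :=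
  sSup ((fun s => θ (Φ (-s) z)) '' Icc 0 n)

/-- **Lyapunov-Urysohn lemma.** A compact forward invariant set `T` which contains all points with
backward orbit in `D` has Lipschitz Urysohn functions which increase along the flow. -/
theorem exists_urysohn (h : IsFlow v Φ) (hL : LipschitzWith L v) {D T N : Set E}
    (hD : IsCompact D) (hinv : ∀ z ∈ D, ∀ s, 0 ≤ s → Φ s z ∈ D)
    (hT : IsCompact T) (hTD : T ⊆ interior D) (hTinv : ∀ z ∈ T, ∀ s, 0 ≤ s → Φ s z ∈ T)
    (hΓ : ∀ z ∈ D, (∀ s, 0 ≤ s → Φ (-s) z ∈ D) → z ∈ T)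
    (hN : IsOpen N) (hTN : T ⊆ N) :
    ∃ (χ : E → ℝ) (K : ℝ≥0), LipschitzWith K χ ∧ (∀ z, χ z ∈ Icc (0 : ℝ) 1) ∧
      (∀ᶠ z in 𝓝ˢ T, χ z = 1) ∧ IsCompact (tsupport χ) ∧ tsupport χ ⊆ N ∩ D ∧
      ∀ z s, 0 ≤ s → χ z ≤ χ (Φ s z) := by
  rcases T.eq_empty_or_nonempty with rfl | hne
  · refine ⟨fun _ => 0, 0, LipschitzWith.const 0, fun _ => by simp, by simp, ?_, ?_, fun _ _ _ => le_rfl⟩
    · simp [tsupport]
    · simp [tsupport]
  obtain ⟨-, -, -, B, hBo, hTB, hB⟩ :=
    exists_forward_nhd h hL hD hinv hTinv hΓ hN hTN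
  obtain ⟨δ, hδ, hδs⟩ := hT.exists_cthickening_subset_open (hBo.inter isOpen_interior)
    (subset_inter hTB hTD)
  have hN' : IsOpen {z : E | infDist z T < δ / 3} :=
    isOpen_lt (continuous_infDist_pt T) continuous_const
  obtain ⟨n, hn0, hn, -⟩ :=
    exists_forward_nhd h hL hD hinv hTinv hΓ hN'
      (fun z hz => by simp only [mem_ofPred_eq, infDist_zero_of_mem hz]; positivity)
  set θ : E → ℝ := fun z => max 0 (min 1 (2 - 3 / δ * infDist z T)) with hθ
  have hθ0 : ∀ z, 0 ≤ θ z := fun z => le_max_left _ _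
  have hθ1 : ∀ z, θ z ≤ 1 := fun z => max_le zero_le_one (min_le_left _ _)
  have hθone : ∀ z, infDist z T < δ / 3 → θ z = 1 := by
    intro z hz
    have : 3 / δ * infDist z T ≤ 1 := by
      calc 3 / δ * infDist z T ≤ 3 / δ * (δ / 3) := by gcongr
        _ = 1 := by field_simp
    rw [hθ]
    simp only
    rw [min_eq_left (by linarith), max_eq_right zero_le_one]
  have hθC : ∀ z, θ z ≠ 0 → infDist z T ≤ 2 * δ / 3 := by
    intro z hz
    by_contra hcon
    push Not at hcon
    apply hz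
    have : 2 ≤ 3 / δ * infDist z T := by
      calc (2 : ℝ) = 3 / δ * (2 * δ / 3) := by field_simp
        _ ≤ 3 / δ * infDist z T := by gcongr
    rw [hθ]
    simp only
    rw [max_eq_left]
    exact (min_le_right _ _).trans (by linarith)
  have hθL : LipschitzWith ⟨3 / δ, by positivity⟩ θ := by
    refine LipschitzWith.of_dist_le_mul fun x y => ?_
    show _ ≤ 3 / δ * dist x y
    have h1 : |infDist x T - infDist y T| ≤ dist x y := by
      have := (lipschitz_infDist_pt T).dist_le_mul x y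
      simpa [Real.dist_eq] using this
    have h2 : |(2 - 3 / δ * infDist x T) - (2 - 3 / δ * infDist y T)| ≤ 3 / δ * dist x y := by
      rw [show (2 - 3 / δ * infDist x T) - (2 - 3 / δ * infDist y T) =
        - (3 / δ * (infDist x T - infDist y T)) by ring, abs_neg, abs_mul,
        abs_of_pos (by positivity : 0 < 3 / δ)]
      gcongr
    rw [Real.dist_eq]
    refine (abs_max_sub_max_le_max _ _ _ _).trans ?_
    rw [sub_self, abs_zero]
    refine max_le (by positivity) ((abs_min_sub_min_le_max _ _ _ _).trans ?_)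
    rw [sub_self, abs_zero]
    exact max_le (by positivity) h2
  have hcont := flow_continuous h hL
  have hcz : ∀ z, Continuous fun s : ℝ => θ (Φ (-s) z) := fun z =>
    hθL.continuous.comp ((flow_cont_time h z).comp continuous_neg)
  have hcomp : ∀ z, IsCompact ((fun s => θ (Φ (-s) z)) '' Icc 0 n) := fun z =>
    isCompact_Icc.image (hcz z)
  have hnonempty : ∀ z, ((fun s => θ (Φ (-s) z)) '' Icc 0 n).Nonempty := fun z =>
    ⟨_, 0, ⟨le_rfl, hn0⟩, rfl⟩
  have hattain : ∀ z, ∃ s ∈ Icc (0 : ℝ) n, backSup Φ θ n z = θ (Φ (-s) z) := by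
    intro z
    obtain ⟨s, hs, hs'⟩ := (hcomp z).sSup_mem (hnonempty z)
    exact ⟨s, hs, hs'.symm⟩
  have hle : ∀ z, ∀ s ∈ Icc (0 : ℝ) n, θ (Φ (-s) z) ≤ backSup Φ θ n z := fun z s hs =>
    le_csSup (hcomp z).bddAbove ⟨s, hs, rfl⟩
  have h0le : ∀ z, θ z ≤ backSup Φ θ n z := fun z => by
    have := hle z 0 ⟨le_rfl, hn0⟩
    simpa [h.zero] using this
  have hle1 : ∀ z, backSup Φ θ n z ≤ 1 := fun z => by
    obtain ⟨s, hs, hs'⟩ := hattain z
    rw [hs']
    exact hθ1 _
  have hclosed : IsClosed {z : E | infDist z T ≤ 2 * δ / 3} :=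
    isClosed_le (continuous_infDist_pt T) continuous_const
  have hCsub : {z : E | infDist z T ≤ 2 * δ / 3} ⊆ B ∩ interior D := by
    intro z hz
    apply hδs
    apply thickening_subset_cthickening
    rw [mem_thickening_iff_infDist_lt hne]
    have : infDist z T ≤ 2 * δ / 3 := hz
    linarith
  have hCcomp : IsCompact {z : E | infDist z T ≤ 2 * δ / 3} :=
    hD.of_isClosed_subset hclosed (hCsub.trans (inter_subset_right.trans interior_subset))
  have hQ : IsCompact ((fun p : ℝ × E => Φ p.1 p.2) ''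
      (Icc 0 n ×ˢ {z : E | infDist z T ≤ 2 * δ / 3})) :=
    (isCompact_Icc.prod hCcomp).image hcont
  have hsupp : tsupport (backSup Φ θ n) ⊆ (fun p : ℝ × E => Φ p.1 p.2) ''
      (Icc 0 n ×ˢ {z : E | infDist z T ≤ 2 * δ / 3}) := by
    refine closure_minimal ?_ hQ.isClosed
    intro z hz
    obtain ⟨s, hs, hs'⟩ := hattain z
    have hz' : θ (Φ (-s) z) ≠ 0 := by
      rw [← hs']
      exact hz
    refine ⟨(s, Φ (-s) z), ⟨hs, hθC _ hz'⟩, ?_⟩
    simp only
    rw [← h.add, add_neg_cancel, h.zero]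
  refine ⟨backSup Φ θ n, ⟨3 / δ, by positivity⟩ * ⟨Real.exp (L * n), (Real.exp_pos _).le⟩,
    ?_, ?_, ?_, ?_, ?_, ?_⟩
  · refine LipschitzWith.of_le_add_mul _ fun x y => ?_
    obtain ⟨s, hs, hs'⟩ := hattain x
    rw [hs']
    have h1 := (hθL.comp (flow_lipschitz h hL (s := -s) (n := n)
      (by rw [abs_neg, abs_of_nonneg hs.1]; exact hs.2))).dist_le_mul x y
    rw [Real.dist_eq] at h1
    have h2 := (abs_le.1 h1).2
    have h3 := hle y s hs
    simp only [Function.comp] at h2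
    linarith
  · exact fun z => ⟨(hθ0 z).trans (h0le z), hle1 z⟩
  · have : ∀ᶠ z in 𝓝ˢ T, infDist z T < δ / 3 := by
      refine hN'.mem_nhdsSet.2 fun z hz => ?_
      simp only [mem_ofPred_eq, infDist_zero_of_mem hz]
      positivity
    filter_upwards [this] with z hz
    refine le_antisymm (hle1 z) ?_
    rw [← hθone z hz]
    exact h0le z
  · exact hQ.of_isClosed_subset (isClosed_tsupport _) hsupp
  · intro z hz
    obtain ⟨⟨s, w⟩, ⟨hs, hw⟩, rfl⟩ := hsupp hz
    have hw' := hCsub hw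
    have hwD : w ∈ D := interior_subset hw'.2
    exact ⟨hB w ⟨hw'.1, hwD⟩ s hs.1, hinv w hwD s hs.1⟩
  · intro z r hr
    obtain ⟨s, hs, hs'⟩ := hattain z
    rcases le_total (r + s) n with h1 | h1
    · rw [hs']
      have := hle (Φ r z) (r + s) ⟨by linarith [hs.1], h1⟩
      rwa [← h.add, show -(r + s) + r = -s by ring] at this
    · by_cases h0 : θ (Φ (-s) z) = 0
      · rw [hs', h0]
        exact (hθ0 _).trans (h0le _)
      · have hwD : Φ (-s) z ∈ D := interior_subset (hCsub (hθC _ h0)).2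
        have h2 : Φ (-n) (Φ r z) ∈ D := by
          have := hinv _ hwD (r + s - n) (by linarith)
          rw [← h.add] at this
          rw [← h.add]
          rwa [show r + s - n + -s = -n + r by ring] at this
        calc backSup Φ θ n z ≤ 1 := hle1 z
          _ = θ (Φ r z) := (hθone _ (hn _ h2)).symm
          _ ≤ _ := h0le _

/-- **Lyapunov-Urysohn lemma** on the unit disc of the plane. -/
theorem exists_lyap {V : Plane → Plane} {φ : ℝ → Plane → Plane} (hV : ContDiff ℝ ∞ V)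
    (hVc : HasCompactSupport V) (hφ : IsFlow V φ)
    (hD : ∀ s, 0 ≤ s → ∀ z ∈ closedBall (0 : Plane) 1, φ s z ∈ closedBall (0 : Plane) 1)
    {A N : Set Plane} (hA : IsCompact A) (hfw : ∀ s, 0 ≤ s → ∀ z ∈ A, φ s z ∈ A)
    (hG : ∀ z, (∀ s, 0 ≤ s → φ (-s) z ∈ closedBall (0 : Plane) 1) → z ∈ A)
    (hN : IsOpen N) (hAN : A ⊆ N) (hAb : A ⊆ ball 0 1) :
    ∃ (χ : Plane → ℝ) (K : ℝ≥0), LipschitzWith K χ ∧ (∀ z, 0 ≤ χ z ∧ χ z ≤ 1) ∧
      (∃ O, IsOpen O ∧ A ⊆ O ∧ ∀ z ∈ O, χ z = 1) ∧ HasCompactSupport χ ∧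
      tsupport χ ⊆ N ∩ ball 0 1 ∧ ∀ s, 0 ≤ s → ∀ z, χ z ≤ χ (φ s z) := by
  obtain ⟨L, hL⟩ := hV.lipschitzWith_of_hasCompactSupport hVc (by simp)
  obtain ⟨χ, K, h1, h2, h3, h4, h5, h6⟩ := exists_urysohn hφ hL (isCompact_closedBall (0 : Plane) 1)
    (fun z hz s hs => hD s hs z hz) hA
    (hAb.trans ((interior_mono ball_subset_closedBall).trans' isOpen_ball.interior_eq.ge))
    (fun z hz s hs => hfw s hs z hz) (fun z _ hz => hG z hz) (hN.inter isOpen_ball)
    (subset_inter hAN hAb)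
  obtain ⟨O, hO, hAO, hO1⟩ := mem_nhdsSet_iff_exists.1 h3
  exact ⟨χ, K, h1, h2, ⟨O, hO, hAO, hO1⟩, h4, fun z hz => (h5 hz).1, fun s hs z => h6 z s hs⟩

end Pool.Agent.Lib_MP_752436_nb
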