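import Pool.Agent.Lib_MP_752436_nb.Defs
import Pool.Agent.Lib_MP_752436_nb.Urysohn

/-!
PIECE FLOW: basic facts on the flow of a smooth field with compact support, and of a gradient like
field.

`Urysohn.lean` contains `flow_cont_time`, `flow_neg`, `flow_dist_le`, `flow_lipschitz`,
`flow_continuous` for the flow of a Lipschitz field.
`flow_mem_ball`: on the unit circle `t = 0` and `0 < t` inside, so `fderiv ℝ t x` is a negative
multiple of `⟨x, ·⟩` and `⟨x, V x⟩ < 0`; an orbit which starts in the closed disc cannot leave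
the open disc (first exit time).
-/

open Metric Set Filter
open scoped ContDiff Topology NNReal

namespace Pool.Agent.Lib_MP_752436_nb

open Pool.Agent.Lib_MP_752436_gt Pool.Agent.Lib_MP_752436_tp Pool.Agent.Lib_MP_752436_rb

section General

variable {E : Type} [NormedAddCommGroup E] [NormedSpace ℝ E] [FiniteDimensional ℝ E]
  {V : E → E} {φ : ℝ → E → E}

theorem flow_left_inv (hφ : IsFlow V φ) (s : ℝ) (x : E) : φ (-s) (φ s x) = x := by
  rw [← hφ.add, neg_add_cancel, hφ.zero]

theorem flow_right_inv (hφ : IsFlow V φ) (s : ℝ) (x : E) : φ s (φ (-s) x) = x := by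
  rw [← hφ.add, add_neg_cancel, hφ.zero]

/-- See also `flow_lipschitz`. -/
theorem flow_joint_continuous (hV : ContDiff ℝ ∞ V) (hc : HasCompactSupport V)
    (hφ : IsFlow V φ) : Continuous fun p : ℝ × E => φ p.1 p.2 := by
  obtain ⟨L, hL⟩ := hV.lipschitzWith_of_hasCompactSupport hc (by simp)
  exact flow_continuous hφ hL

theorem flow_orbit_contDiff (hV : ContDiff ℝ ∞ V) (hφ : IsFlow V φ) (x : E) :
    ContDiff ℝ ∞ fun s => φ s x := by
  have hd : ∀ s, HasDerivAt (fun s => φ s x) (V (φ s x)) s := hφ.deriv x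
  have hderiv : deriv (fun s => φ s x) = fun s => V (φ s x) := funext fun s => (hd s).deriv
  have key : ∀ n : ℕ, ContDiff ℝ n fun s => φ s x := by
    intro n
    induction n with
    | zero => exact contDiff_zero.2 (flow_cont_time hφ x)
    | succ n ih =>
      rw [show ((n + 1 : ℕ) : WithTop ℕ∞) = (n : WithTop ℕ∞) + 1 by norm_cast,
        contDiff_succ_iff_deriv]
      refine ⟨fun s => (hd s).differentiableAt, fun h => by simp at h, ?_⟩
      rw [hderiv]
      exact (hV.of_le (by exact_mod_cast le_top)).comp ih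
  exact contDiff_infty.2 key

private theorem flow_of_zero_aux (hV : ContDiff ℝ ∞ V) (hc : HasCompactSupport V)
    (hφ : IsFlow V φ) {x : E} (hx : V x = 0) (s : ℝ) : φ s x = x := by
  obtain ⟨L, hL⟩ := hV.lipschitzWith_of_hasCompactSupport hc (by simp)
  have h := ODE_solution_unique_univ (v := fun _ => V) (s := fun _ => univ) (K := L)
    (f := fun s => φ s x) (g := fun _ => x) (t₀ := 0) (fun _ => hL.lipschitzOnWith)
    (fun t => ⟨hφ.deriv x t, mem_univ _⟩)
    (fun t => ⟨by simpa [hx] using hasDerivAt_const t x, mem_univ _⟩) (hφ.zero x)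
  exact congrFun h s

/-- An orbit through a point at which `V` does not vanish never meets the zeros of `V`. -/
theorem flow_ne_zero (hV : ContDiff ℝ ∞ V) (hc : HasCompactSupport V) (hφ : IsFlow V φ) {x : E}
    (hx : V x ≠ 0) (s : ℝ) : V (φ s x) ≠ 0 := by
  intro h
  have h1 := flow_of_zero_aux hV hc hφ h (-s)
  rw [flow_left_inv hφ] at h1
  exact hx (by rw [h1, h])

theorem flow_of_zero (hV : ContDiff ℝ ∞ V) (hc : HasCompactSupport V) (hφ : IsFlow V φ) {x : E}
    (hx : V x = 0) (s : ℝ) : φ s x = x :=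
  flow_of_zero_aux hV hc hφ hx s

end General

variable {f : Plane → Space} {t : Plane → ℝ} {V : Plane → Plane} {φ : ℝ → Plane → Plane}

/-- On the unit circle the field points into the disc. -/
private theorem flow_inner_neg (hf : SDisc f t) (ht : MorseNB t) (hV : GradField t V) {x : Plane}
    (hx : ‖x‖ = 1) : inner ℝ x (V x) < 0 := by
  have hxs : x ∈ sphere (0 : Plane) 1 := mem_sphere_zero_iff_norm.2 hx
  have hxc : x ∈ closedBall (0 : Plane) 1 := sphere_subset_closedBall hxs
  have hd : HasFDerivAt t (fderiv ℝ t x) x := (hf.smt.differentiable (by simp) x).hasFDerivAt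
  -- directions which point inwards
  have h1 : ∀ w : Plane, inner ℝ x w < 0 → 0 ≤ fderiv ℝ t x w := by
    intro w hw
    have hdw : HasDerivAt (fun s : ℝ => t (x + s • w)) (fderiv ℝ t x w) 0 := by
      have h2 : HasDerivAt (fun s : ℝ => x + s • w) w 0 := by
        simpa using ((hasDerivAt_id (0 : ℝ)).smul_const w).const_add x
      have h3 : HasFDerivAt t (fderiv ℝ t x) (x + (0 : ℝ) • w) := by simpa using hd
      exact h3.comp_hasDerivAt 0 h2
    have h4 := (hasDerivWithinAt_iff_tendsto_slope' (self_notMem_Ioi (a := (0 : ℝ)))).1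
      hdw.hasDerivWithinAt
    refine ge_of_tendsto h4 ?_
    have h5 : ∀ᶠ s : ℝ in 𝓝[>] 0, s * ‖w‖ ^ 2 < - (2 * inner ℝ x w) := by
      have h6 : Tendsto (fun s : ℝ => s * ‖w‖ ^ 2) (𝓝[>] 0) (𝓝 (0 * ‖w‖ ^ 2)) := by
        refine Tendsto.mono_left ?_ nhdsWithin_le_nhds
        exact (continuous_id.mul continuous_const).tendsto 0
      refine h6.eventually_lt_const ?_
      linarith
    filter_upwards [h5, self_mem_nhdsWithin] with s hs hs0
    have hs0' : (0 : ℝ) < s := hs0
    have h7 : ‖x + s • w‖ ^ 2 < 1 := by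
      rw [norm_add_sq_real, inner_smul_right, norm_smul, Real.norm_of_nonneg hs0'.le, hx]
      nlinarith
    have h8 : ‖x + s • w‖ < 1 := by
      by_contra h
      push Not at h
      nlinarith
    have h9 : 0 < t (x + s • w) := hf.pos _ (mem_ball_zero_iff.2 h8)
    have h10 : t x = 0 := hf.bd x hxs
    rw [slope_def_field]
    simp only [zero_smul, add_zero, h10, sub_zero]
    positivity
  have h2 : ∀ w : Plane, inner ℝ x w ≤ 0 → 0 ≤ fderiv ℝ t x w := by
    intro w hw
    have h3 : ∀ ε : ℝ, 0 < ε → 0 ≤ fderiv ℝ t x w - ε * fderiv ℝ t x x := by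
      intro ε hε
      have := h1 (w - ε • x) (by
        rw [inner_sub_right, inner_smul_right, real_inner_self_eq_norm_sq, hx]
        nlinarith)
      simpa using this
    have h4 : Tendsto (fun ε : ℝ => fderiv ℝ t x w - ε * fderiv ℝ t x x) (𝓝[>] 0)
        (𝓝 (fderiv ℝ t x w - 0 * fderiv ℝ t x x)) := by
      refine Tendsto.mono_left ?_ nhdsWithin_le_nhds
      exact (continuous_const.sub (continuous_id.mul continuous_const)).tendsto 0
    have h5 := ge_of_tendsto h4 (by filter_upwards [self_mem_nhdsWithin] with ε hε using h3 ε hε)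
    simpa using h5
  have h0 : fderiv ℝ t x ≠ 0 := ht.neat x hxs
  have hinc := hV.incr x hxc h0
  by_contra hcon
  push Not at hcon
  have h3 := h2 (-V x) (by rw [inner_neg_right]; linarith)
  rw [map_neg] at h3
  linarith

private theorem flow_normsq_deriv (hφ : IsFlow V φ) (z : Plane) (s : ℝ) :
    HasDerivAt (fun s => ‖φ s z‖ ^ 2) (2 * inner ℝ (φ s z) (V (φ s z))) s :=
  (hφ.deriv z s).norm_sq

private theorem flow_mem_aux (hf : SDisc f t) (ht : MorseNB t) (hV : GradField t V)
    (hφ : IsFlow V φ) {s : ℝ} (hs : 0 ≤ s) {z : Plane} (hz : z ∈ closedBall (0 : Plane) 1) :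
    φ s z ∈ closedBall (0 : Plane) 1 := by
  have hz' : ‖z‖ ≤ 1 := mem_closedBall_zero_iff.1 hz
  have h := image_le_of_deriv_right_lt_deriv_boundary (f := fun s => ‖φ s z‖ ^ 2)
    (f' := fun s => 2 * inner ℝ (φ s z) (V (φ s z))) (a := 0) (b := s)
    (B := fun _ => 1) (B' := fun _ => 0)
    (fun r _ => (flow_normsq_deriv hφ z r).continuousAt.continuousWithinAt)
    (fun r _ => (flow_normsq_deriv hφ z r).hasDerivWithinAt)
    (by simp only [hφ.zero]; exact pow_le_one₀ (norm_nonneg _) hz')
    (fun r => hasDerivAt_const r 1)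
    (fun r _ hr => by
      have h1 : ‖φ r z‖ = 1 := by
        have := norm_nonneg (φ r z)
        nlinarith
      have := flow_inner_neg hf ht hV h1
      linarith) ⟨hs, le_rfl⟩
  rw [mem_closedBall_zero_iff]
  by_contra hcon
  push Not at hcon
  nlinarith

theorem flow_mem_ball (hf : SDisc f t) (ht : MorseNB t) (hV : GradField t V) (hφ : IsFlow V φ)
    {s : ℝ} (hs : 0 < s) {z : Plane} (hz : z ∈ closedBall (0 : Plane) 1) : φ s z ∈ ball 0 1 := by
  have h1 := flow_mem_aux hf ht hV hφ hs.le hz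
  rw [mem_closedBall_zero_iff] at h1
  rw [mem_ball_zero_iff]
  refine lt_of_le_of_ne h1 fun h => ?_
  have h2 := flow_inner_neg hf ht hV h
  have h3 := (hasDerivWithinAt_iff_tendsto_slope' (self_notMem_Iio (a := s))).1
    (flow_normsq_deriv hφ z s).hasDerivWithinAt
  have h4 : (0 : ℝ) ≤ 2 * inner ℝ (φ s z) (V (φ s z)) := by
    refine ge_of_tendsto h3 ?_
    have h5 : ∀ᶠ r : ℝ in 𝓝[<] s, 0 < r :=
      nhdsWithin_le_nhds (Ioi_mem_nhds hs)
    filter_upwards [h5, self_mem_nhdsWithin] with r hr hr'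
    have hr'' : r < s := hr'
    have h6 := flow_mem_aux hf ht hV hφ hr.le hz
    rw [mem_closedBall_zero_iff] at h6
    rw [slope_def_field, h]
    have h7 : ‖φ r z‖ ^ 2 ≤ 1 := pow_le_one₀ (norm_nonneg _) h6
    refine div_nonneg_of_nonpos ?_ (by linarith)
    linarith
  linarith

theorem flow_mem (hf : SDisc f t) (ht : MorseNB t) (hV : GradField t V) (hφ : IsFlow V φ)
    {s : ℝ} (hs : 0 ≤ s) {z : Plane} (hz : z ∈ closedBall (0 : Plane) 1) :
    φ s z ∈ closedBall (0 : Plane) 1 :=
  flow_mem_aux hf ht hV hφ hs hz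

private theorem flow_height_deriv (hf : SDisc f t) (hφ : IsFlow V φ) (z : Plane) (s : ℝ) :
    HasDerivAt (fun s => t (φ s z)) (fderiv ℝ t (φ s z) (V (φ s z))) s :=
  ((hf.smt.differentiable (by simp) (φ s z)).hasFDerivAt).comp_hasDerivAt s (hφ.deriv z s)

theorem height_flow_le (hf : SDisc f t) (ht : MorseNB t) (hV : GradField t V) (hφ : IsFlow V φ)
    {s : ℝ} (hs : 0 ≤ s) {z : Plane} (hz : z ∈ closedBall (0 : Plane) 1) :
    t z ≤ t (φ s z) := by
  have h : MonotoneOn (fun s => t (φ s z)) (Ici 0) := by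
    refine monotoneOn_of_deriv_nonneg (convex_Ici 0)
      (fun r _ => (flow_height_deriv hf hφ z r).continuousAt.continuousWithinAt)
      (fun r _ => (flow_height_deriv hf hφ z r).differentiableAt.differentiableWithinAt) ?_
    intro r hr
    rw [interior_Ici] at hr
    rw [(flow_height_deriv hf hφ z r).deriv]
    have hr' : (0 : ℝ) < r := hr
    have hm := flow_mem hf ht hV hφ hr'.le hz
    by_cases h0 : fderiv ℝ t (φ r z) = 0
    · simp [h0]
    · exact (hV.incr _ hm h0).le
  have := h (self_mem_Ici (a := (0 : ℝ))) (show s ∈ Ici (0 : ℝ) from hs) hs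
  simpa [hφ.zero] using this

theorem height_flow_lt (hf : SDisc f t) (ht : MorseNB t) (hV : GradField t V) (hφ : IsFlow V φ)
    {s : ℝ} (hs : 0 < s) {z : Plane} (hz : z ∈ closedBall (0 : Plane) 1)
    (hz' : fderiv ℝ t z ≠ 0) : t z < t (φ s z) := by
  have hVz : V z ≠ 0 := fun h => by
    have := hV.incr z hz hz'
    simp [h] at this
  have h : StrictMonoOn (fun s => t (φ s z)) (Ici 0) := by
    refine strictMonoOn_of_deriv_pos (convex_Ici 0)
      (fun r _ => (flow_height_deriv hf hφ z r).continuousAt.continuousWithinAt) ?_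
    intro r hr
    rw [interior_Ici] at hr
    rw [(flow_height_deriv hf hφ z r).deriv]
    have hr' : (0 : ℝ) < r := hr
    have hm := flow_mem hf ht hV hφ hr'.le hz
    refine hV.incr _ hm fun h0 => ?_
    exact flow_ne_zero hV.smooth hV.compact hφ hVz r (hV.zero _ hm h0)
  have := h (self_mem_Ici (a := (0 : ℝ))) (show s ∈ Ici (0 : ℝ) from hs.le) hs
  simpa [hφ.zero] using this

theorem isCompact_gam (hf : SDisc f t) (ht : MorseNB t) (hV : GradField t V)
    (hφ : IsFlow V φ) : IsCompact (Gam φ) := by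
  have hc := flow_joint_continuous hV.smooth hV.compact hφ
  refine (isCompact_closedBall (0 : Plane) 1).of_isClosed_subset ?_ fun z hz => ?_
  · have : Gam φ = ⋂ s : ℝ, ⋂ _ : 0 ≤ s, (fun z => φ (-s) z) ⁻¹' closedBall (0 : Plane) 1 := by
      ext z
      simp [Gam]
    rw [this]
    refine isClosed_iInter fun s => isClosed_iInter fun _ => isClosed_closedBall.preimage ?_
    exact hc.comp (Continuous.prodMk continuous_const continuous_id)
  · have := hz 0 le_rfl
    simpa [hφ.zero] using this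

theorem gam_subset_ball (hf : SDisc f t) (ht : MorseNB t) (hV : GradField t V)
    (hφ : IsFlow V φ) : Gam φ ⊆ ball 0 1 := by
  intro z hz
  have h := flow_mem_ball hf ht hV hφ one_pos (hz 1 zero_le_one)
  rwa [flow_right_inv hφ] at h

theorem crit_mem_gam (hf : SDisc f t) (ht : MorseNB t) (hV : GradField t V)
    (hφ : IsFlow V φ) {z : Plane} (hz : z ∈ closedBall (0 : Plane) 1) (h0 : fderiv ℝ t z = 0) :
    z ∈ Gam φ := by
  intro s _
  rw [flow_of_zero hV.smooth hV.compact hφ (hV.zero z hz h0)]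
  exact hz

theorem flow_mem_gam (hf : SDisc f t) (ht : MorseNB t) (hV : GradField t V)
    (hφ : IsFlow V φ) (s : ℝ) {z : Plane} (hz : z ∈ Gam φ) : φ s z ∈ Gam φ := by
  intro r hr
  rw [← hφ.add]
  rcases le_total (-r + s) 0 with h | h
  · have := hz (-(-r + s)) (by linarith)
    rwa [neg_neg] at this
  · refine flow_mem hf ht hV hφ h ?_
    have := hz 0 le_rfl
    rwa [neg_zero, hφ.zero] at this

/-- Every neighbourhood of `Gam φ` contains `φ s '' D` for large `s`. -/
theorem exists_flow_subset (hf : SDisc f t) (ht : MorseNB t) (hV : GradField t V)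
    (hφ : IsFlow V φ) {O : Set Plane} (hO : IsOpen O) (hGO : Gam φ ⊆ O) :
    ∃ S : ℝ, 0 < S ∧ ∀ s, S ≤ s → ∀ z ∈ closedBall (0 : Plane) 1, φ s z ∈ O := by
  obtain ⟨L, hL⟩ := hV.smooth.lipschitzWith_of_hasCompactSupport hV.compact (by simp)
  obtain ⟨n, hn0, hn, -⟩ := exists_forward_nhd hφ hL (isCompact_closedBall (0 : Plane) 1)
    (T := Gam φ) (fun z hz s hs => flow_mem hf ht hV hφ hs hz)
    (fun z hz s _ => flow_mem_gam hf ht hV hφ s hz) (fun z _ hz => hz) hO hGO
  refine ⟨n + 1, by linarith, fun s hs z hz => hn _ ?_⟩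
  rw [← hφ.add]
  exact flow_mem hf ht hV hφ (by linarith) hz

end Pool.Agent.Lib_MP_752436_nb
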