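import Pool.Agent.Lib_MP_752436_nb.Straight
import Pool.Agent.Lib_MP_752436_nb.LevelPush
import Pool.Agent.Lib_MP_752436_tp.FlowBox

/-!
Every ribbon knot bounds a slice disc in general position without triple points: perturb the sheets
near the upper arcs.
-/

open MeasureTheory Metric Set Filter
open scoped ContDiff Topology NNReal

namespace Pool.Agent.Lib_MP_752436_nb

open Pool.Agent.Lib_MP_752436_gt Pool.Agent.Lib_MP_752436_tp Pool.Agent.Lib_MP_752436_rb

/-- The image of a space of smaller dimension is a null set. -/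
theorem volume_range_zero {X E : Type*} [NormedAddCommGroup X] [NormedSpace ℝ X]
    [FiniteDimensional ℝ X] [NormedAddCommGroup E] [NormedSpace ℝ E] [FiniteDimensional ℝ E]
    [MeasurableSpace E] [BorelSpace E] (μ : Measure E) [μ.IsAddHaarMeasure]
    (h : Module.finrank ℝ X < Module.finrank ℝ E) {Φ : X → E} (hΦ : Differentiable ℝ Φ) :
    μ (range Φ) = 0 := by
  obtain ⟨ι, hι⟩ : ∃ ι : X →ₗ[ℝ] E, Function.Injective ι := by
    exact finrank_le_iff_exists_linearMap.1 h.le
  obtain ⟨L, hL⟩ := ι.exists_leftInverse_of_injective (LinearMap.ker_eq_bot.2 hι)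
  have hrange : LinearMap.range ι ≠ ⊤ := by
    intro htop
    have h1 := LinearMap.finrank_range_of_inj hι
    rw [htop, finrank_top] at h1
    omega
  have h0 : μ (LinearMap.range ι : Set E) = 0 := Measure.addHaar_submodule μ _ hrange
  have h2 : μ ((fun z => Φ (L.toContinuousLinearMap z)) '' (LinearMap.range ι : Set E)) = 0 :=
    addHaar_image_eq_zero_of_differentiableOn_of_addHaar_eq_zero μ
      (hΦ.comp L.toContinuousLinearMap.differentiable).differentiableOn h0
  refine measure_mono_null ?_ h2
  rintro _ ⟨x, rfl⟩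
  refine ⟨ι x, ⟨x, rfl⟩, ?_⟩
  have h3 : L (ι x) = x := by
    have := congrArg (fun l : X →ₗ[ℝ] X => l x) hL
    simpa using this
  show Φ (L (ι x)) = Φ x
  rw [h3]

/-- The space of parameters. -/
abbrev Param : Type := Space × Space × Space

/-- The perturbation. -/
noncomputable def pert (f : Plane → Space) (χ : Plane → ℝ) (p : Param) (x : Plane) : Space :=
  f x + χ x • (p.1 + (x 0 • p.2.1 + x 1 • p.2.2))

theorem contDiff_coord (i : Fin 2) : ContDiff ℝ ∞ fun z : Plane => z i :=
  (EuclideanSpace.proj i : EuclideanSpace ℝ (Fin 2) →L[ℝ] ℝ).contDiff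

theorem contDiff_pert {f : Plane → Space} {χ : Plane → ℝ} (hf : ContDiff ℝ ∞ f)
    (hχ : ContDiff ℝ ∞ χ) : ContDiff ℝ ∞ fun q : Param × Plane => pert f χ q.1 q.2 := by
  have h0 : ContDiff ℝ ∞ fun q : Param × Plane => q.2 0 := (contDiff_coord 0).comp contDiff_snd
  have h1 : ContDiff ℝ ∞ fun q : Param × Plane => q.2 1 := (contDiff_coord 1).comp contDiff_snd
  have hv : ContDiff ℝ ∞ fun q : Param × Plane => q.1.1 := contDiff_fst.comp contDiff_fst
  have hm0 : ContDiff ℝ ∞ fun q : Param × Plane => q.1.2.1 :=
    contDiff_fst.comp (contDiff_snd.comp contDiff_fst)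
  have hm1 : ContDiff ℝ ∞ fun q : Param × Plane => q.1.2.2 :=
    contDiff_snd.comp (contDiff_snd.comp contDiff_fst)
  exact (hf.comp contDiff_snd).add ((hχ.comp contDiff_snd).smul
    (hv.add ((h0.smul hm0).add (h1.smul hm1))))

theorem pert_zero (f : Plane → Space) (χ : Plane → ℝ) : pert f χ 0 = f := by
  funext x
  simp [pert]

theorem contDiff_pert_right {f : Plane → Space} {χ : Plane → ℝ} (hf : ContDiff ℝ ∞ f)
    (hχ : ContDiff ℝ ∞ χ) (p : Param) : ContDiff ℝ ∞ (pert f χ p) :=
  (contDiff_pert hf hχ).comp (contDiff_const.prodMk contDiff_id)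

/-- For small parameters the perturbed map is an immersion. -/
theorem eventually_immersion {f : Plane → Space} {χ : Plane → ℝ} (hf : ContDiff ℝ ∞ f)
    (hχ : ContDiff ℝ ∞ χ)
    (him : ∀ x ∈ closedBall (0 : Plane) 1, Function.Injective (fderiv ℝ f x)) :
    ∀ᶠ p in 𝓝 (0 : Param), ∀ x ∈ closedBall (0 : Plane) 1,
      Function.Injective (fderiv ℝ (pert f χ p) x) := by
  refine (isCompact_closedBall (0 : Plane) 1).eventually_forall_of_forall_eventually
    (P := fun p x => Function.Injective (fderiv ℝ (pert f χ p) x)) fun x hx => ?_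
  have hcont : Continuous fun q : Param × Plane => fderiv ℝ (pert f χ q.1) q.2 := by
    have h1 : ContDiff ℝ ∞ fun q : Param × Plane => fderiv ℝ (pert f χ q.1) q.2 := by
      have h2 : ContDiff ℝ ∞ (Function.uncurry fun (q : Param × Plane) (y : Plane) =>
          pert f χ q.1 y) :=
        (contDiff_pert hf hχ).comp ((contDiff_fst.comp contDiff_fst).prodMk contDiff_snd)
      exact h2.fderiv contDiff_snd (by simp)
    exact h1.continuous
  have hopen : IsOpen {q : Param × Plane |
      Function.Injective (fderiv ℝ (pert f χ q.1) q.2)} :=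
    ContinuousLinearMap.isOpen_injective.preimage hcont
  refine hopen.mem_nhds ?_
  show Function.Injective (fderiv ℝ (pert f χ 0) x)
  rw [pert_zero]
  exact him x hx

/-- For small parameters the double points are close to the old ones. -/
theorem eventually_double {f : Plane → Space} {χ : Plane → ℝ} (hf : ContDiff ℝ ∞ f)
    (hχ : ContDiff ℝ ∞ χ)
    (him : ∀ x ∈ closedBall (0 : Plane) 1, Function.Injective (fderiv ℝ f x))
    {O : Set (Plane × Plane)} (hO : IsOpen O)
    (hdouble : ∀ x ∈ closedBall (0 : Plane) 1, ∀ y ∈ closedBall (0 : Plane) 1, x ≠ y →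
      f x = f y → (x, y) ∈ O) :
    ∀ᶠ p in 𝓝 (0 : Param), ∀ x ∈ closedBall (0 : Plane) 1, ∀ y ∈ closedBall (0 : Plane) 1,
      x ≠ y → pert f χ p x = pert f χ p y → (x, y) ∈ O := by
  have hK : IsCompact ((closedBall (0 : Plane) 1 ×ˢ closedBall (0 : Plane) 1) \ O) :=
    ((isCompact_closedBall _ _).prod (isCompact_closedBall _ _)).diff hO
  have hmain : ∀ᶠ p in 𝓝 (0 : Param),
      ∀ z ∈ (closedBall (0 : Plane) 1 ×ˢ closedBall (0 : Plane) 1) \ O,
        z.1 ≠ z.2 → pert f χ p z.1 ≠ pert f χ p z.2 := by
    refine hK.eventually_forall_of_forall_eventually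
      (P := fun p z => z.1 ≠ z.2 → pert f χ p z.1 ≠ pert f χ p z.2) ?_
    rintro ⟨x, y⟩ ⟨⟨hx, hy⟩, hxy⟩
    by_cases h : x = y
    · subst h
      -- uniform local injectivity
      set g : Param × Plane → Param × Space := fun q => (q.1, pert f χ q.1 q.2) with hg
      have hgs : ContDiff ℝ ∞ g := contDiff_fst.prodMk (contDiff_pert hf hχ)
      have hstrict : HasStrictFDerivAt g (fderiv ℝ g (0, x)) (0, x) :=
        (hgs.contDiffAt (x := ((0 : Param), x))).hasStrictFDerivAt (by simp)
      have hpd : HasFDerivAt (fun q : Param × Plane => pert f χ q.1 q.2)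
          (fderiv ℝ (fun q : Param × Plane => pert f χ q.1 q.2) (0, x)) (0, x) :=
        (((contDiff_pert hf hχ).differentiable (by simp)) _).hasFDerivAt
      have hgd : fderiv ℝ g (0, x) = (ContinuousLinearMap.fst ℝ Param Plane).prod
          (fderiv ℝ (fun q : Param × Plane => pert f χ q.1 q.2) (0, x)) :=
        (hasFDerivAt_fst.prodMk hpd).fderiv
      have hginj : Function.Injective (fderiv ℝ g (0, x)) := by
        rw [injective_iff_map_eq_zero]
        rintro ⟨a, u⟩ hau
        rw [hgd, ContinuousLinearMap.prod_apply, Prod.mk_eq_zero] at hau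
        obtain ⟨ha, hu⟩ := hau
        have ha' : a = 0 := ha
        subst ha'
        have h1 : HasFDerivAt (fun z : Plane => ((0 : Param), z))
            (ContinuousLinearMap.inr ℝ Param Plane) x := hasFDerivAt_prodMk_right 0 x
        have h2 : HasFDerivAt (fun z : Plane => pert f χ 0 z)
            ((fderiv ℝ (fun q : Param × Plane => pert f χ q.1 q.2) (0, x)).comp
              (ContinuousLinearMap.inr ℝ Param Plane)) x := hpd.comp x h1
        have h3 : fderiv ℝ f x u = 0 := by
          have h4 : fderiv ℝ (fun z : Plane => pert f χ 0 z) x u = 0 := by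
            rw [h2.fderiv]
            exact hu
          have h5 : (fun z : Plane => pert f χ 0 z) = f := pert_zero f χ
          rwa [h5] at h4
        have h6 : u = 0 := (injective_iff_map_eq_zero _).1 (him x hx) u h3
        rw [h6]
        rfl
      obtain ⟨N, hN, hinj⟩ := eventually_injOn_of_strict hstrict hginj
      have h1 : ∀ᶠ z : Param × (Plane × Plane) in 𝓝 (0, (x, x)), (z.1, z.2.1) ∈ N := by
        have hc : Continuous fun z : Param × (Plane × Plane) => (z.1, z.2.1) := by fun_prop
        exact hc.tendsto (0, (x, x)) hN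
      have h2 : ∀ᶠ z : Param × (Plane × Plane) in 𝓝 (0, (x, x)), (z.1, z.2.2) ∈ N := by
        have hc : Continuous fun z : Param × (Plane × Plane) => (z.1, z.2.2) := by fun_prop
        exact hc.tendsto (0, (x, x)) hN
      filter_upwards [h1, h2] with z hz1 hz2 hne heq
      apply hne
      have h3 : g (z.1, z.2.1) = g (z.1, z.2.2) := Prod.ext rfl heq
      exact congrArg Prod.snd (hinj hz1 hz2 h3)
    · have hne : f x ≠ f y := fun h1 => hxy (hdouble x hx y hy h h1)
      have hc1 : Continuous fun z : Param × (Plane × Plane) => pert f χ z.1 z.2.1 :=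
        (contDiff_pert hf hχ).continuous.comp (by fun_prop :
          Continuous fun z : Param × (Plane × Plane) => (z.1, z.2.1))
      have hc2 : Continuous fun z : Param × (Plane × Plane) => pert f χ z.1 z.2.2 :=
        (contDiff_pert hf hχ).continuous.comp (by fun_prop :
          Continuous fun z : Param × (Plane × Plane) => (z.1, z.2.2))
      have hopen : IsOpen {z : Param × (Plane × Plane) | pert f χ z.1 z.2.1 ≠
          pert f χ z.1 z.2.2} := isOpen_ne_fun hc1 hc2
      have hmem : ((0 : Param), (x, y)) ∈ {z : Param × (Plane × Plane) | pert f χ z.1 z.2.1 ≠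
          pert f χ z.1 z.2.2} := by
        show pert f χ 0 x ≠ pert f χ 0 y
        rw [pert_zero]
        exact hne
      filter_upwards [hopen.mem_nhds hmem] with z hz _
      exact hz
  filter_upwards [hmain] with p hp x hx y hy hxy heq
  by_contra hcon
  exact hp (x, y) ⟨⟨hx, hy⟩, hcon⟩ hxy heq

/-- Linear algebra: if the images of `S` and of the injective `T` do not span the space then the
image of `S` is contained in the image of `T`. -/
theorem range_le_of_not_span {S T : Plane →L[ℝ] Space} (hT : Function.Injective T)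
    (h : ¬ ∀ w, ∃ u v, S u + T v = w) (u : Plane) : ∃ v, T v = S u := by
  by_contra hcon
  apply h
  set W : Submodule ℝ Space := LinearMap.range (S : Plane →ₗ[ℝ] Space) ⊔
    LinearMap.range (T : Plane →ₗ[ℝ] Space) with hW
  have hTW : LinearMap.range (T : Plane →ₗ[ℝ] Space) < W := by
    refine lt_of_le_of_ne le_sup_right fun heq => hcon ?_
    have h1 : S u ∈ W := le_sup_left (a := LinearMap.range (S : Plane →ₗ[ℝ] Space))
      ⟨u, rfl⟩
    rw [← heq] at h1
    obtain ⟨v, hv⟩ := h1
    exact ⟨v, hv⟩
  have h2 := Submodule.finrank_lt_finrank_of_lt hTW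
  have h3 : Module.finrank ℝ (LinearMap.range (T : Plane →ₗ[ℝ] Space)) = 2 := by
    rw [LinearMap.finrank_range_of_inj hT]
    simp
  have h4 : W = ⊤ := by
    apply Submodule.eq_top_of_finrank_eq
    have h5 := Submodule.finrank_le W
    have h6 : Module.finrank ℝ Space = 3 := by simp
    omega
  intro w
  have h7 : w ∈ W := by rw [h4]; exact Submodule.mem_top
  obtain ⟨a, ⟨u, rfl⟩, b, ⟨v, rfl⟩, hab⟩ := Submodule.mem_sup.1 h7
  exact ⟨u, v, hab⟩

end Pool.Agent.Lib_MP_752436_nb
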