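import Pool.Agent.Lib_MP_752436_nb.Generic

/-!
Every ribbon knot bounds a slice disc in general position without triple points: the perturbation.
-/

open MeasureTheory Metric Set Filter
open scoped ContDiff Topology NNReal

namespace Pool.Agent.Lib_MP_752436_nb

open Pool.Agent.Lib_MP_752436_gt Pool.Agent.Lib_MP_752436_tp Pool.Agent.Lib_MP_752436_rb

/-- The standard basis vectors. -/
noncomputable def ebas (i : Fin 2) : Plane := EuclideanSpace.single i 1

theorem eq_ebas (u : Plane) : u = u 0 • ebas 0 + u 1 • ebas 1 := by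
  ext i
  fin_cases i <;> simp [ebas]

theorem pert_of_one {f : Plane → Space} {χ : Plane → ℝ} {p : Param} {x : Plane} (h : χ x = 1) :
    pert f χ p x = f x + (p.1 + (x 0 • p.2.1 + x 1 • p.2.2)) := by
  simp [pert, h]

theorem pert_of_zero {f : Plane → Space} {χ : Plane → ℝ} {p : Param} {x : Plane} (h : χ x = 0) :
    pert f χ p x = f x := by
  simp [pert, h]

theorem fderiv_pert_of_one {f : Plane → Space} {χ : Plane → ℝ} (hf : ContDiff ℝ ∞ f) (p : Param)
    {x : Plane} (h : ∀ᶠ z in 𝓝 x, χ z = 1) (u : Plane) :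
    fderiv ℝ (pert f χ p) x u = fderiv ℝ f x u + (u 0 • p.2.1 + u 1 • p.2.2) := by
  have h1 : pert f χ p =ᶠ[𝓝 x] fun z => f z + (p.1 + (z 0 • p.2.1 + z 1 • p.2.2)) := by
    filter_upwards [h] with z hz
    exact pert_of_one hz
  rw [h1.fderiv_eq]
  have hc : ∀ i : Fin 2, HasFDerivAt (fun z : Plane => z i)
      (EuclideanSpace.proj i : EuclideanSpace ℝ (Fin 2) →L[ℝ] ℝ) x := fun i =>
    (EuclideanSpace.proj i : EuclideanSpace ℝ (Fin 2) →L[ℝ] ℝ).hasFDerivAt
  have h2 : HasFDerivAt (fun z : Plane => f z + (p.1 + (z 0 • p.2.1 + z 1 • p.2.2)))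
      (fderiv ℝ f x + (((EuclideanSpace.proj (0 : Fin 2) :
        EuclideanSpace ℝ (Fin 2) →L[ℝ] ℝ).smulRight p.2.1) +
        ((EuclideanSpace.proj (1 : Fin 2) :
        EuclideanSpace ℝ (Fin 2) →L[ℝ] ℝ).smulRight p.2.2))) x :=
    (((hf.differentiable (by simp)) x).hasFDerivAt).add
      ((((hc 0).smul_const p.2.1).add ((hc 1).smul_const p.2.2)).const_add p.1)
  rw [h2.fderiv]
  rfl

theorem fderiv_pert_of_zero {f : Plane → Space} {χ : Plane → ℝ} (p : Param)
    {x : Plane} (h : ∀ᶠ z in 𝓝 x, χ z = 0) :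
    fderiv ℝ (pert f χ p) x = fderiv ℝ f x := by
  have h1 : pert f χ p =ᶠ[𝓝 x] f := by
    filter_upwards [h] with z hz
    exact pert_of_zero hz
  exact h1.fderiv_eq

/-- Parametrisation of the parameters with a non transverse pair. -/
noncomputable def bad1 (f : Plane → Space) (q : Plane × Plane × Plane × Plane) : Param :=
  (f q.2.1 - f q.1 - (q.1 0 • (fderiv ℝ f q.2.1 q.2.2.1 - fderiv ℝ f q.1 (ebas 0)) +
      q.1 1 • (fderiv ℝ f q.2.1 q.2.2.2 - fderiv ℝ f q.1 (ebas 1))),
    fderiv ℝ f q.2.1 q.2.2.1 - fderiv ℝ f q.1 (ebas 0),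
    fderiv ℝ f q.2.1 q.2.2.2 - fderiv ℝ f q.1 (ebas 1))

/-- The points of the unit circle. -/
noncomputable def circ (θ : ℝ) : Plane := !₂[Real.cos θ, Real.sin θ]

/-- The tangent vectors of the unit circle. -/
noncomputable def tang (θ : ℝ) : Plane := !₂[-Real.sin θ, Real.cos θ]

theorem contDiff_circ : ContDiff ℝ ∞ circ := by
  refine contDiff_euclidean.2 fun i => ?_
  fin_cases i
  · exact Real.contDiff_cos
  · exact Real.contDiff_sin

theorem contDiff_tang : ContDiff ℝ ∞ tang := by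
  refine contDiff_euclidean.2 fun i => ?_
  fin_cases i
  · exact Real.contDiff_sin.neg
  · exact Real.contDiff_cos

/-- The vector `m 0` in the second bad set. -/
noncomputable def badm (f : Plane → Space) (i j : Fin 2) (q : Plane × ℝ × ℝ × ℝ × Space) : Space :=
  q.2.2.1 • fderiv ℝ f (circ q.2.1) (tang q.2.1) +
    q.2.2.2.1 • (fderiv ℝ f q.1 (ebas j) + q.2.2.2.2) - fderiv ℝ f q.1 (ebas i)

/-- Parametrisation of the parameters with a tangent knot, first case. -/
noncomputable def bad2 (f : Plane → Space) (q : Plane × ℝ × ℝ × ℝ × Space) : Param :=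
  (f (circ q.2.1) - f q.1 - (q.1 0 • badm f 0 1 q + q.1 1 • q.2.2.2.2), badm f 0 1 q, q.2.2.2.2)

/-- Parametrisation of the parameters with a tangent knot, second case. -/
noncomputable def bad3 (f : Plane → Space) (q : Plane × ℝ × ℝ × ℝ × Space) : Param :=
  (f (circ q.2.1) - f q.1 - (q.1 0 • q.2.2.2.2 + q.1 1 • badm f 1 0 q), q.2.2.2.2, badm f 1 0 q)

theorem contDiff_bad1 {f : Plane → Space} (hf : ContDiff ℝ ∞ f) : ContDiff ℝ ∞ (bad1 f) := by
  have hd : ContDiff ℝ ∞ (fderiv ℝ f) := hf.fderiv_right (by simp)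
  have hx : ContDiff ℝ ∞ fun q : Plane × Plane × Plane × Plane => q.1 := contDiff_fst
  have hy : ContDiff ℝ ∞ fun q : Plane × Plane × Plane × Plane => q.2.1 :=
    contDiff_fst.comp contDiff_snd
  have hc0 : ContDiff ℝ ∞ fun q : Plane × Plane × Plane × Plane => q.2.2.1 :=
    contDiff_fst.comp (contDiff_snd.comp contDiff_snd)
  have hc1 : ContDiff ℝ ∞ fun q : Plane × Plane × Plane × Plane => q.2.2.2 :=
    contDiff_snd.comp (contDiff_snd.comp contDiff_snd)
  have h0 : ContDiff ℝ ∞ fun q : Plane × Plane × Plane × Plane =>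
      fderiv ℝ f q.2.1 q.2.2.1 - fderiv ℝ f q.1 (ebas 0) :=
    ((hd.comp hy).clm_apply hc0).sub ((hd.comp hx).clm_apply contDiff_const)
  have h1 : ContDiff ℝ ∞ fun q : Plane × Plane × Plane × Plane =>
      fderiv ℝ f q.2.1 q.2.2.2 - fderiv ℝ f q.1 (ebas 1) :=
    ((hd.comp hy).clm_apply hc1).sub ((hd.comp hx).clm_apply contDiff_const)
  exact (((hf.comp hy).sub (hf.comp hx)).sub ((((contDiff_coord 0).comp hx).smul h0).add
    (((contDiff_coord 1).comp hx).smul h1))).prodMk (h0.prodMk h1)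

theorem contDiff_badm {f : Plane → Space} (hf : ContDiff ℝ ∞ f) (i j : Fin 2) :
    ContDiff ℝ ∞ (badm f i j) := by
  have hd : ContDiff ℝ ∞ (fderiv ℝ f) := hf.fderiv_right (by simp)
  have hx : ContDiff ℝ ∞ fun q : Plane × ℝ × ℝ × ℝ × Space => q.1 := contDiff_fst
  have hθ : ContDiff ℝ ∞ fun q : Plane × ℝ × ℝ × ℝ × Space => q.2.1 :=
    contDiff_fst.comp contDiff_snd
  have ha : ContDiff ℝ ∞ fun q : Plane × ℝ × ℝ × ℝ × Space => q.2.2.1 :=
    contDiff_fst.comp (contDiff_snd.comp contDiff_snd)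
  have hb : ContDiff ℝ ∞ fun q : Plane × ℝ × ℝ × ℝ × Space => q.2.2.2.1 :=
    contDiff_fst.comp (contDiff_snd.comp (contDiff_snd.comp contDiff_snd))
  have hm : ContDiff ℝ ∞ fun q : Plane × ℝ × ℝ × ℝ × Space => q.2.2.2.2 :=
    contDiff_snd.comp (contDiff_snd.comp (contDiff_snd.comp contDiff_snd))
  exact ((ha.smul ((hd.comp (contDiff_circ.comp hθ)).clm_apply (contDiff_tang.comp hθ))).add
    (hb.smul (((hd.comp hx).clm_apply contDiff_const).add hm))).sub
    ((hd.comp hx).clm_apply contDiff_const)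

theorem contDiff_bad2 {f : Plane → Space} (hf : ContDiff ℝ ∞ f) : ContDiff ℝ ∞ (bad2 f) := by
  have hx : ContDiff ℝ ∞ fun q : Plane × ℝ × ℝ × ℝ × Space => q.1 := contDiff_fst
  have hθ : ContDiff ℝ ∞ fun q : Plane × ℝ × ℝ × ℝ × Space => q.2.1 :=
    contDiff_fst.comp contDiff_snd
  have hm : ContDiff ℝ ∞ fun q : Plane × ℝ × ℝ × ℝ × Space => q.2.2.2.2 :=
    contDiff_snd.comp (contDiff_snd.comp (contDiff_snd.comp contDiff_snd))
  have hb := contDiff_badm hf 0 1
  exact (((hf.comp (contDiff_circ.comp hθ)).sub (hf.comp hx)).sub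
    ((((contDiff_coord 0).comp hx).smul hb).add
    (((contDiff_coord 1).comp hx).smul hm))).prodMk (hb.prodMk hm)

theorem contDiff_bad3 {f : Plane → Space} (hf : ContDiff ℝ ∞ f) : ContDiff ℝ ∞ (bad3 f) := by
  have hx : ContDiff ℝ ∞ fun q : Plane × ℝ × ℝ × ℝ × Space => q.1 := contDiff_fst
  have hθ : ContDiff ℝ ∞ fun q : Plane × ℝ × ℝ × ℝ × Space => q.2.1 :=
    contDiff_fst.comp contDiff_snd
  have hm : ContDiff ℝ ∞ fun q : Plane × ℝ × ℝ × ℝ × Space => q.2.2.2.2 :=
    contDiff_snd.comp (contDiff_snd.comp (contDiff_snd.comp contDiff_snd))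
  have hb := contDiff_badm hf 1 0
  exact (((hf.comp (contDiff_circ.comp hθ)).sub (hf.comp hx)).sub
    ((((contDiff_coord 0).comp hx).smul hm).add
    (((contDiff_coord 1).comp hx).smul hb))).prodMk (hm.prodMk hb)

theorem haar_space2 : (volume : Measure (Space × Space)).IsAddHaarMeasure :=
  Measure.prod.instIsAddHaarMeasure (volume : Measure Space) (volume : Measure Space)

theorem haar_param : (volume : Measure Param).IsAddHaarMeasure := by
  have := haar_space2
  exact Measure.prod.instIsAddHaarMeasure (volume : Measure Space)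
    (volume : Measure (Space × Space))

/-- The bad parameters form a null set. -/
theorem volume_bad {f : Plane → Space} (hf : ContDiff ℝ ∞ f) :
    volume (range (bad1 f) ∪ (range (bad2 f) ∪ range (bad3 f))) = 0 := by
  have h9 : Module.finrank ℝ Param = 9 := by simp [Param]
  have := haar_param
  have h1 : volume (range (bad1 f)) = 0 := by
    refine volume_range_zero volume ?_ ((contDiff_bad1 hf).differentiable (by simp))
    rw [h9]
    simp
  have h2 : volume (range (bad2 f)) = 0 := by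
    refine volume_range_zero volume ?_ ((contDiff_bad2 hf).differentiable (by simp))
    rw [h9]
    simp
  have h3 : volume (range (bad3 f)) = 0 := by
    refine volume_range_zero volume ?_ ((contDiff_bad3 hf).differentiable (by simp))
    rw [h9]
    simp
  rw [measure_union_null_iff, measure_union_null_iff]
  exact ⟨h1, h2, h3⟩

/-- A non transverse pair gives a bad parameter. -/
theorem mem_bad1 {f : Plane → Space} {χ : Plane → ℝ} (hf : ContDiff ℝ ∞ f) {p : Param}
    {x y : Plane} (hx : ∀ᶠ z in 𝓝 x, χ z = 1) (hy : ∀ᶠ z in 𝓝 y, χ z = 0)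
    (hT : Function.Injective (fderiv ℝ f y)) (heq : pert f χ p x = pert f χ p y)
    (h : ¬ ∀ w, ∃ u v, fderiv ℝ (pert f χ p) x u + fderiv ℝ (pert f χ p) y v = w) :
    p ∈ range (bad1 f) := by
  rw [fderiv_pert_of_zero p hy] at h
  obtain ⟨c0, hc0⟩ := range_le_of_not_span hT h (ebas 0)
  obtain ⟨c1, hc1⟩ := range_le_of_not_span hT h (ebas 1)
  rw [fderiv_pert_of_one hf p hx] at hc0 hc1
  have e0 : (ebas 0) 0 = 1 := by simp [ebas]
  have e1 : (ebas 0) 1 = 0 := by simp [ebas]
  have e2 : (ebas 1) 0 = 0 := by simp [ebas]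
  have e3 : (ebas 1) 1 = 1 := by simp [ebas]
  rw [e0, e1, one_smul, zero_smul, add_zero] at hc0
  rw [e2, e3, one_smul, zero_smul, zero_add] at hc1
  rw [pert_of_one hx.self_of_nhds, pert_of_zero hy.self_of_nhds] at heq
  obtain ⟨v, m0, m1⟩ := p
  simp only at hc0 hc1 heq
  have hm0 : fderiv ℝ f y c0 - fderiv ℝ f x (ebas 0) = m0 := by rw [hc0]; abel
  have hm1 : fderiv ℝ f y c1 - fderiv ℝ f x (ebas 1) = m1 := by rw [hc1]; abel
  refine ⟨(x, y, c0, c1), ?_⟩
  simp only [bad1, hm0, hm1]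
  refine Prod.ext ?_ rfl
  show f y - f x - (x 0 • m0 + x 1 • m1) = v
  rw [← heq]
  abel

/-- A knot tangent in a sheet gives a bad parameter. -/
theorem mem_bad2 {f : Plane → Space} {χ : Plane → ℝ} (hf : ContDiff ℝ ∞ f) {p : Param}
    {x : Plane} {θ lam : ℝ} (hlam : lam ≠ 0) (hx : ∀ᶠ z in 𝓝 x, χ z = 1)
    (hy : ∀ᶠ z in 𝓝 (circ θ), χ z = 0)
    (hT : Function.Injective (fderiv ℝ f (circ θ)))
    (heq : pert f χ p x = pert f χ p (circ θ)) {u : Plane}
    (h : fderiv ℝ (pert f χ p) x u = fderiv ℝ (pert f χ p) (circ θ) (lam • tang θ)) :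
    p ∈ range (bad2 f) ∪ range (bad3 f) := by
  rw [fderiv_pert_of_zero p hy, fderiv_pert_of_one hf p hx, map_smul] at h
  rw [pert_of_one hx.self_of_nhds, pert_of_zero hy.self_of_nhds] at heq
  obtain ⟨v, m0, m1⟩ := p
  simp only at h heq
  have hu : fderiv ℝ f x u = u 0 • fderiv ℝ f x (ebas 0) + u 1 • fderiv ℝ f x (ebas 1) := by
    conv_lhs => rw [eq_ebas u]
    rw [map_add, map_smul, map_smul]
  rw [hu] at h
  have htang : tang θ ≠ 0 := by
    intro h0
    have h1 := congrArg (fun z : Plane => z 0) h0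
    have h2 := congrArg (fun z : Plane => z 1) h0
    simp [tang] at h1 h2
    have h3 := Real.sin_sq_add_cos_sq θ
    rw [h1, h2] at h3
    norm_num at h3
  have hTt : fderiv ℝ f (circ θ) (tang θ) ≠ 0 := fun h0 =>
    htang ((injective_iff_map_eq_zero _).1 hT _ h0)
  set a := fderiv ℝ f x (ebas 0) with ha
  set b := fderiv ℝ f x (ebas 1) with hb
  set c := fderiv ℝ f (circ θ) (tang θ) with hc
  by_cases hu0 : u 0 = 0
  · right
    have hu1 : u 1 ≠ 0 := by
      intro hu1
      rw [hu0, hu1] at h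
      simp only [zero_smul, add_zero] at h
      exact (smul_ne_zero hlam hTt) h.symm
    rw [hu0] at h
    simp only [zero_smul, zero_add] at h
    have hm1 : m1 = (lam / u 1) • c + (0 : ℝ) • (a + m0) - b := by
      have h1 : u 1 • (b + m1) = lam • c := by rw [smul_add]; exact h
      have h2 : b + m1 = (lam / u 1) • c := by
        rw [div_eq_inv_mul, mul_smul, ← h1, smul_smul, inv_mul_cancel₀ hu1, one_smul]
      rw [zero_smul, add_zero, ← h2]
      abel
    refine ⟨(x, θ, lam / u 1, 0, m0), ?_⟩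
    have hbm : badm f 1 0 (x, θ, lam / u 1, 0, m0) = m1 := by
      rw [hm1]
      rfl
    simp only [bad3, hbm]
    refine Prod.ext ?_ rfl
    show f (circ θ) - f x - (x 0 • m0 + x 1 • m1) = v
    rw [← heq]
    abel
  · left
    have hm0 : m0 = (lam / u 0) • c + (-(u 1 / u 0)) • (b + m1) - a := by
      have h1 : u 0 • (a + m0) = lam • c - u 1 • (b + m1) := by
        rw [← h]
        module
      have h2 : a + m0 = (lam / u 0) • c + (-(u 1 / u 0)) • (b + m1) := by
        have h3 : a + m0 = (u 0)⁻¹ • (u 0 • (a + m0)) := by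
          rw [smul_smul, inv_mul_cancel₀ hu0, one_smul]
        rw [h3, h1, smul_sub, smul_smul, smul_smul, neg_smul, div_eq_inv_mul, div_eq_inv_mul]
        abel
      rw [← h2]
      abel
    refine ⟨(x, θ, lam / u 0, -(u 1 / u 0), m1), ?_⟩
    have hbm : badm f 0 1 (x, θ, lam / u 0, -(u 1 / u 0), m1) = m0 := by
      rw [hm0]
      rfl
    simp only [bad2, hbm]
    refine Prod.ext ?_ rfl
    show f (circ θ) - f x - (x 0 • m0 + x 1 • m1) = v
    rw [← heq]
    abel

/-- Every ribbon knot bounds a slice disc in general position without triple points. -/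
theorem exists_generic {K : Set Space} (hK : IsRibbonKnot K) :
    ∃ F, IsSliceDisc F ∧ InGeneralPosition F ∧ boundaryKnot F = K ∧ triplePoints F = ∅ := by
  obtain ⟨f, A, B, G, h, hfK⟩ := exists_graphDisc hK
  -- the neighbourhoods
  set B₀ : Set Plane := B ∩ closedBall (0 : Plane) 1 with hB₀
  have hB₀c : IsClosed B₀ := h.closed.inter isClosed_closedBall
  have hdisj : Disjoint A B₀ := h.disjoint.mono_right inter_subset_left
  obtain ⟨δ₁, hδ₁, hdis⟩ := hdisj.exists_cthickenings h.compact hB₀c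
  obtain ⟨δ₂, hδ₂, hball⟩ := h.compact.exists_cthickening_subset_open isOpen_ball h.inside
  set δ := min δ₁ δ₂ with hδ
  have hδ0 : 0 < δ := lt_min hδ₁ hδ₂
  have hδ1 : δ ≤ δ₁ := min_le_left _ _
  have hδ2 : δ ≤ δ₂ := min_le_right _ _
  set A' := cthickening (δ / 3) A with hA'
  set B' := cthickening (δ / 3) B₀ with hB'
  have hA'c : IsCompact A' := h.compact.cthickening
  have hA'b : A' ⊆ ball 0 1 := (cthickening_mono (by linarith) A).trans hball
  have hAB' : Disjoint A' B' :=
    hdis.mono (cthickening_mono (by linarith) A) (cthickening_mono (by linarith) B₀)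
  -- the cut off function
  obtain ⟨χ, hχ, hχc, hχs, hχ01, hχ1⟩ := exists_smooth_cutoff
    (K := cthickening (2 * δ / 3) A) (G := thickening δ A) h.compact.cthickening
    isOpen_thickening (cthickening_subset_thickening' hδ0 (by linarith) A)
  have hχone : ∀ x ∈ A', ∀ᶠ z in 𝓝 x, χ z = 1 := by
    intro x hx
    have h1 : x ∈ thickening (2 * δ / 3) A :=
      cthickening_subset_thickening' (by positivity) (by linarith) A hx
    filter_upwards [isOpen_thickening.mem_nhds h1] with z hz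
    exact hχ1 z (thickening_subset_cthickening _ _ hz)
  have hχzero : ∀ x, x ∉ thickening δ A → ∀ᶠ z in 𝓝 x, χ z = 0 := by
    intro x hx
    exact notMem_tsupport_iff_eventuallyEq.1 fun h1 => hx (hχs h1)
  have hthick : thickening δ A ⊆ cthickening δ₁ A ∩ ball 0 1 := fun z hz =>
    ⟨thickening_subset_cthickening _ _ (thickening_mono hδ1 A hz),
      hball (thickening_subset_cthickening _ _ (thickening_mono hδ2 A hz))⟩
  have hχB : ∀ x ∈ B', ∀ᶠ z in 𝓝 x, χ z = 0 := by
    intro x hx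
    refine hχzero x fun h1 => ?_
    exact Set.disjoint_left.1 hdis (hthick h1).1 (cthickening_mono (by linarith) B₀ hx)
  have hχsph : ∀ x ∈ sphere (0 : Plane) 1, ∀ᶠ z in 𝓝 x, χ z = 0 := by
    intro x hx
    refine hχzero x fun h1 => ?_
    have h2 := mem_ball.1 (hthick h1).2
    have h3 := mem_sphere.1 hx
    linarith
  -- a good small parameter
  set O : Set (Plane × Plane) := (thickening (δ / 3) A ×ˢ thickening (δ / 3) B₀) ∪
    (thickening (δ / 3) B₀ ×ˢ thickening (δ / 3) A) with hO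
  have hOo : IsOpen O := (isOpen_thickening.prod isOpen_thickening).union
    (isOpen_thickening.prod isOpen_thickening)
  have hδ3 : 0 < δ / 3 := by positivity
  have hdb : ∀ x ∈ closedBall (0 : Plane) 1, ∀ y ∈ closedBall (0 : Plane) 1, x ≠ y →
      f x = f y → (x, y) ∈ O := by
    intro x hx y hy hxy hfxy
    rcases h.double x hx y hy hxy hfxy with ⟨h1, h2⟩ | ⟨h1, h2⟩
    · exact Or.inl ⟨self_subset_thickening hδ3 A h1, self_subset_thickening hδ3 B₀ ⟨h2, hy⟩⟩
    · exact Or.inr ⟨self_subset_thickening hδ3 B₀ ⟨h1, hx⟩, self_subset_thickening hδ3 A h2⟩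
  have hev := (eventually_immersion h.smooth hχ h.immersion).and
    (eventually_double h.smooth hχ h.immersion hOo hdb)
  obtain ⟨p, ⟨hpi, hpd⟩, hpbad⟩ : ∃ p : Param, ((∀ x ∈ closedBall (0 : Plane) 1,
      Function.Injective (fderiv ℝ (pert f χ p) x)) ∧
      ∀ x ∈ closedBall (0 : Plane) 1, ∀ y ∈ closedBall (0 : Plane) 1,
        x ≠ y → pert f χ p x = pert f χ p y → (x, y) ∈ O) ∧
      p ∉ range (bad1 f) ∪ (range (bad2 f) ∪ range (bad3 f)) := by
    by_contra hcon
    push Not at hcon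
    have := haar_param
    have h1 := Measure.measure_pos_of_mem_nhds (volume : Measure Param) hev
    have h2 : volume {p : Param | (∀ x ∈ closedBall (0 : Plane) 1,
        Function.Injective (fderiv ℝ (pert f χ p) x)) ∧
        ∀ x ∈ closedBall (0 : Plane) 1, ∀ y ∈ closedBall (0 : Plane) 1,
          x ≠ y → pert f χ p x = pert f χ p y → (x, y) ∈ O} = 0 :=
      measure_mono_null (fun p hp => hcon p hp) (volume_bad h.smooth)
    exact h1.ne' h2
  set g := pert f χ p with hg
  have hgs : ContDiff ℝ ∞ g := contDiff_pert_right h.smooth hχ p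
  have hcl : ∀ x ∈ closedBall (0 : Plane) 1, ∀ y ∈ closedBall (0 : Plane) 1, x ≠ y →
      g x = g y → (x ∈ A' ∧ y ∈ B') ∨ (x ∈ B' ∧ y ∈ A') := by
    intro x hx y hy hxy hgxy
    rcases hpd x hx y hy hxy hgxy with h1 | h1
    · exact Or.inl ⟨thickening_subset_cthickening _ _ h1.1, thickening_subset_cthickening _ _ h1.2⟩
    · exact Or.inr ⟨thickening_subset_cthickening _ _ h1.1, thickening_subset_cthickening _ _ h1.2⟩
  have hP : PairDisc g A' B' :=
    ⟨hgs, hpi, hA'c, hA'b, isClosed_cthickening, hAB', hcl⟩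
  obtain ⟨t, ht, hlt⟩ := hP.exists_height
  have hF := isSliceDisc_of_sdisc ht
  have hsh : shadow (lift4 g t) = g := shadow_lift4 g t
  have hval : ∀ x, lift4 g t x 3 = t x := fun x => by simp [lift4]
  have hDS : ∀ x y, (x, y) ∈ DoubleSet (lift4 g t) → x ∈ A' ∧ y ∈ B' ∧
      x ∈ closedBall (0 : Plane) 1 ∧ y ∈ closedBall (0 : Plane) 1 ∧ g x = g y := by
    rintro x y ⟨hx, hy, hxy, hlt'⟩
    simp only [hsh, hval] at hx hy hxy hlt'
    have hne : x ≠ y := fun h0 => by rw [h0] at hlt'; exact lt_irrefl _ hlt'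
    rcases hcl x hx y hy hne hxy with ⟨h1, h2⟩ | ⟨h1, h2⟩
    · exact ⟨h1, h2, hx, hy, hxy⟩
    · exact absurd hlt' (not_lt.2 (hlt y h2 x h1).le)
  have hno : ∀ x y z, ¬ Triple (lift4 g t) x y z := by
    rintro x y z ⟨h1, h2⟩
    exact Set.disjoint_left.1 hAB' (hDS y z h2).1 (hDS x y h1).2.1
  refine ⟨lift4 g t, hF, ⟨?_, ?_, ?_, ?_, ?_⟩, ?_, ?_⟩
  · intro x hx u hu
    unfold dproj at hu
    rw [hsh] at hu
    exact (injective_iff_map_eq_zero _).1 (hpi x hx) u hu
  · intro x y hxy v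
    obtain ⟨hx, hy, hxD, hyD, hgxy⟩ := hDS x y hxy
    unfold dproj
    rw [hsh]
    by_contra hcon
    refine hpbad (Or.inl (mem_bad1 h.smooth (hχone x hx) (hχB y hy) (h.immersion y hyD) hgxy ?_))
    intro h1
    exact hcon (h1 v)
  · intro x y hxy hy1 u w hw huw
    obtain ⟨hx, hy, hxD, hyD, hgxy⟩ := hDS x y hxy
    unfold dproj at huw
    rw [hsh] at huw
    by_contra hw0
    have hn : y 0 ^ 2 + y 1 ^ 2 = 1 := by
      have h1 : ‖y‖ ^ 2 = 1 := by rw [hy1]; norm_num
      rw [EuclideanSpace.norm_sq_eq, Fin.sum_univ_two, Real.norm_eq_abs, Real.norm_eq_abs,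
        sq_abs, sq_abs] at h1
      exact h1
    -- the angle
    obtain ⟨θ, hθ0, hθ1⟩ : ∃ θ : ℝ, y 0 = Real.cos θ ∧ y 1 = Real.sin θ := by
      have h1 : ‖(⟨y 0, y 1⟩ : ℂ)‖ = 1 := by
        rw [Complex.norm_def, Complex.normSq_mk]
        rw [show y 0 * y 0 + y 1 * y 1 = 1 by nlinarith]
        exact Real.sqrt_one
      refine ⟨Complex.arg ⟨y 0, y 1⟩, ?_, ?_⟩
      · have h2 : (⟨y 0, y 1⟩ : ℂ) ≠ 0 := by
          intro h0
          rw [h0, norm_zero] at h1
          norm_num at h1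
        rw [Complex.cos_arg h2, h1, div_one]
      · rw [Complex.sin_arg, h1, div_one]
    have hyc : y = circ θ := by
      ext i
      fin_cases i
      · simpa [circ] using hθ0
      · simpa [circ] using hθ1
    have hwt : w = (w 1 * Real.cos θ - w 0 * Real.sin θ) • tang θ := by
      have h1 : y 0 * w 0 + y 1 * w 1 = 0 := by
        have h2 : (inner ℝ y w : ℝ) = y 0 * w 0 + y 1 * w 1 := by
          rw [PiLp.inner_apply, Fin.sum_univ_two]
          simp only [RCLike.inner_apply, conj_trivial]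
          ring
        rw [← h2]
        exact hw
      rw [hθ0, hθ1] at h1
      have h3 := Real.sin_sq_add_cos_sq θ
      ext i
      fin_cases i
      · simp only [tang, PiLp.smul_apply, smul_eq_mul, Fin.zero_eta, Fin.isValue,
          Matrix.cons_val_zero]
        linear_combination (-(w 0)) * h3 + Real.cos θ * h1
      · simp only [tang, PiLp.smul_apply, smul_eq_mul, Fin.mk_one, Fin.isValue,
          Matrix.cons_val_one, Matrix.cons_val_fin_one]
        linear_combination (-(w 1)) * h3 + Real.sin θ * h1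
    have hlam : w 1 * Real.cos θ - w 0 * Real.sin θ ≠ 0 := by
      intro h0
      apply hw0
      rw [hwt, h0, zero_smul]
    refine hpbad (Or.inr ?_)
    rw [hyc] at hgxy huw hyD hy
    rw [hwt] at huw
    exact mem_bad2 h.smooth hlam (hχone x hx) (hχB _ hy) (h.immersion _ hyD) hgxy huw
  · intro x y z hxyz
    exact absurd hxyz (hno x y z)
  · intro x y z w hxyz
    exact absurd hxyz (hno x y z)
  · unfold boundaryKnot
    rw [hsh, ← hfK]
    refine image_congr fun x hx => ?_
    exact pert_of_zero (hχsph x hx).self_of_nhds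
  · rw [eq_empty_iff_forall_notMem]
    rintro z ⟨x, y, hxyz⟩
    exact hno x y z hxyz

end Pool.Agent.Lib_MP_752436_nb
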