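import Pool.Agent.Lib_MP_752436_nb.Urysohn

/-!
Mollification of a Lipschitz function which increases along a flow of the plane.
-/

open Metric Set Filter MeasureTheory
open scoped ContDiff Topology NNReal

namespace Pool.Agent.Lib_MP_752436_nb

open Pool.Agent.Lib_MP_752436_gt Pool.Agent.Lib_MP_752436_tp

theorem flow_euler {v : Plane → Plane} {Φ : ℝ → Plane → Plane} {L B : ℝ≥0}
    (h : IsFlow v Φ) (hL : LipschitzWith L v) (hB : ∀ x, ‖v x‖ ≤ B) (w : Plane) {r : ℝ}
    (hr : 0 ≤ r) : ‖Φ r w - w - r • v w‖ ≤ L * B * r ^ 2 := by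
  have h1 : ∀ s ∈ Icc (0 : ℝ) r, ‖Φ s w - w‖ ≤ B * s := by
    intro s hs
    have := norm_image_sub_le_of_norm_deriv_le_segment' (f := fun s => Φ s w)
      (f' := fun s => v (Φ s w)) (C := B) (a := 0) (b := r)
      (fun x _ => (h.deriv w x).hasDerivWithinAt) (fun x _ => hB _) s hs
    simpa [h.zero] using this
  have h2 := norm_image_sub_le_of_norm_deriv_le_segment' (f := fun s => Φ s w - s • v w)
    (f' := fun s => v (Φ s w) - v w) (C := L * (B * r)) (a := 0) (b := r)
    (fun x _ => ((h.deriv w x).sub (by simpa using (hasDerivAt_id x).smul_const (v w))).hasDerivWithinAt)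
    (fun x hx => by
      have h3 := hL.dist_le_mul (Φ x w) w
      rw [dist_eq_norm, dist_eq_norm] at h3
      refine h3.trans ?_
      have h4 := h1 x ⟨hx.1, hx.2.le⟩
      have : (B : ℝ) * x ≤ B * r := by
        have := hx.2.le
        gcongr
      gcongr
      exact h4.trans this) r ⟨hr, le_rfl⟩
  simp only [h.zero, zero_smul, sub_zero] at h2
  calc ‖Φ r w - w - r • v w‖ = ‖Φ r w - r • v w - w‖ := by congr 1; abel
    _ ≤ L * (B * r) * r := h2
    _ = _ := by ring

/-- Smoothing of a Lipschitz function which increases along the flow. -/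
theorem exists_smooth {v : Plane → Plane} {Φ : ℝ → Plane → Plane} {L B K : ℝ≥0}
    (h : IsFlow v Φ) (hL : LipschitzWith L v) (hB : ∀ x, ‖v x‖ ≤ B) {χ : Plane → ℝ}
    (hχ : LipschitzWith K χ) (hmono : ∀ z s, 0 ≤ s → χ z ≤ χ (Φ s z))
    (h01 : ∀ z, χ z ∈ Icc (0 : ℝ) 1) {δ ε : ℝ} (hδ : 0 < δ) (hε : 0 < ε) :
    ∃ χ' : Plane → ℝ, ContDiff ℝ ∞ χ' ∧ (∀ z, χ' z ∈ Icc (0 : ℝ) 1) ∧
      (∀ z c, (∀ w ∈ ball z δ, χ w = c) → χ' z = c) ∧
      ∀ z, -ε ≤ fderiv ℝ χ' z (v z) := by
  obtain ⟨δ', hδ', hδ'δ, hδ'ε⟩ : ∃ δ' : ℝ, 0 < δ' ∧ δ' ≤ δ ∧ K * (L * δ') ≤ ε := by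
    refine ⟨min δ (ε / (K * L + 1)), lt_min hδ (by positivity), min_le_left _ _, ?_⟩
    calc (K : ℝ) * (L * min δ (ε / (K * L + 1))) ≤ K * (L * (ε / (K * L + 1))) := by
          gcongr
          exact min_le_right _ _
      _ = ε * (K * L / (K * L + 1)) := by ring
      _ ≤ ε * 1 := by
          gcongr
          rw [div_le_one (by positivity)]
          linarith
      _ = ε := mul_one _
  let φ : ContDiffBump (0 : Plane) := ⟨δ' / 2, δ', by positivity, by linarith⟩
  have hφout : φ.rOut = δ' := rfl
  have hφ : ContDiff ℝ ∞ (φ.normed volume) := φ.contDiff_normed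
  have hφc : HasCompactSupport (φ.normed volume) := φ.hasCompactSupport_normed
  have hχc := hχ.continuous
  set χ' : Plane → ℝ := convolution (φ.normed volume) χ (ContinuousLinearMap.lsmul ℝ ℝ) volume
    with hχ'
  have hsm : ContDiff ℝ ∞ χ' :=
    hφc.contDiff_convolution_left (ContinuousLinearMap.lsmul ℝ ℝ) hφ hχc.locallyIntegrable
  have hval : ∀ z, χ' z = ∫ y, φ.normed volume y * χ (z - y) := by
    intro z
    rw [hχ', convolution_def]
    simp
  have hint : ∀ z, Integrable (fun y => φ.normed volume y * χ (z - y)) volume := by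
    intro z
    refine Continuous.integrable_of_hasCompactSupport ?_ ?_
    · exact hφ.continuous.mul (hχc.comp (continuous_const.sub continuous_id))
    · exact hφc.mul_right
  have hone : ∫ y, φ.normed volume y = 1 := φ.integral_normed
  have hint1 : Integrable (φ.normed volume) (volume : Measure Plane) := φ.integrable_normed
  have hnn : ∀ y, 0 ≤ φ.normed volume y := fun y => φ.nonneg_normed y
  refine ⟨χ', hsm, fun z => ⟨?_, ?_⟩, ?_, ?_⟩
  · rw [hval]
    exact integral_nonneg fun y => mul_nonneg (hnn y) (h01 _).1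
  · rw [hval, ← hone]
    refine integral_mono (hint z) hint1 fun y => ?_
    simpa using mul_le_mul_of_nonneg_left (h01 (z - y)).2 (hnn y)
  · intro z c hc
    have hz := hc z (mem_ball_self hδ)
    rw [hχ', φ.normed_convolution_eq_right (g := χ) (x₀ := z), hz]
    intro x hx
    rw [hz]
    exact hc x (ball_subset_ball (by rw [hφout]; exact hδ'δ) hx)
  · intro z
    have key : ∀ r : ℝ, 0 ≤ r → -(ε * r + K * (L * B * r ^ 2)) ≤ χ' (z + r • v z) - χ' z := by
      intro r hr
      rw [hval, hval, ← integral_sub (hint _) (hint _)]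
      have h1 : ∫ y, φ.normed volume y * (-(ε * r + K * (L * B * r ^ 2))) ∂(volume : Measure Plane)
          = -(ε * r + K * (L * B * r ^ 2)) := by
        rw [integral_mul_const, hone, one_mul]
      rw [← h1]
      refine integral_mono (hint1.mul_const _) ((hint _).sub (hint _)) fun y => ?_
      simp only
      rw [← mul_sub]
      by_cases hy : y ∈ ball (0 : Plane) δ'
      · refine mul_le_mul_of_nonneg_left ?_ (hnn y)
        have h2 := hmono (z - y) r hr
        have h3 := hχ.dist_le_mul (Φ r (z - y)) (z + r • v z - y)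
        rw [Real.dist_eq, dist_eq_norm] at h3
        have h4 : ‖Φ r (z - y) - (z + r • v z - y)‖ ≤ L * δ' * r + L * B * r ^ 2 := by
          have h5 := flow_euler h hL hB (z - y) hr
          have h6 : ‖v (z - y) - v z‖ ≤ L * δ' := by
            have := hL.dist_le_mul (z - y) z
            rw [dist_eq_norm, dist_eq_norm] at this
            refine this.trans ?_
            rw [show z - y - z = -y by abel, norm_neg]
            gcongr
            exact (mem_ball_zero_iff.1 hy).le
          calc ‖Φ r (z - y) - (z + r • v z - y)‖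
              = ‖(Φ r (z - y) - (z - y) - r • v (z - y)) + r • (v (z - y) - v z)‖ := by
                congr 1
                rw [smul_sub]
                abel
            _ ≤ ‖Φ r (z - y) - (z - y) - r • v (z - y)‖ + ‖r • (v (z - y) - v z)‖ :=
                norm_add_le _ _
            _ ≤ L * B * r ^ 2 + r * (L * δ') := by
                rw [norm_smul, Real.norm_of_nonneg hr]
                gcongr
            _ = _ := by ring
        have h7 : (K : ℝ) * ‖Φ r (z - y) - (z + r • v z - y)‖ ≤
            ε * r + K * (L * B * r ^ 2) := by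
          calc (K : ℝ) * ‖Φ r (z - y) - (z + r • v z - y)‖
              ≤ K * (L * δ' * r + L * B * r ^ 2) := by gcongr
            _ = (K * (L * δ')) * r + K * (L * B * r ^ 2) := by ring
            _ ≤ _ := by gcongr
        have h8 := (abs_le.1 h3).2
        linarith
      · have : φ.normed volume y = 0 := by
          have : y ∉ Function.support (φ.normed volume) := by
            rw [φ.support_normed_eq]
            exact hy
          simpa using this
        rw [this]
        simp
    have hd : HasDerivAt (fun r : ℝ => χ' (z + r • v z)) (fderiv ℝ χ' z (v z)) 0 := by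
      have h1 : HasFDerivAt χ' (fderiv ℝ χ' z) (z + (0 : ℝ) • v z) := by
        rw [zero_smul, add_zero]
        exact (hsm.differentiable (by simp) z).hasFDerivAt
      have h2 : HasDerivAt (fun r : ℝ => z + r • v z) (v z) 0 := by
        simpa using ((hasDerivAt_id (0 : ℝ)).smul_const (v z)).const_add z
      exact h1.comp_hasDerivAt 0 h2
    have hslope := hd.tendsto_slope_zero_right
    simp only [zero_add, zero_smul, add_zero] at hslope
    have hlow : Tendsto (fun r : ℝ => -(ε + K * (L * B * r))) (𝓝[>] 0) (𝓝 (-ε)) := by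
      have : Continuous fun r : ℝ => -(ε + K * (L * B * r)) := by fun_prop
      have h3 := (this.tendsto 0).mono_left (nhdsWithin_le_nhds (s := Ioi 0))
      simpa using h3
    refine le_of_tendsto_of_tendsto hlow hslope ?_
    filter_upwards [self_mem_nhdsWithin] with r hr
    have hr' : (0 : ℝ) < r := hr
    have := key r hr'.le
    rw [smul_eq_mul, ← sub_nonneg]
    have h5 : r⁻¹ * (χ' (z + r • v z) - χ' z) - -(ε + K * (L * B * r)) =
      r⁻¹ * ((χ' (z + r • v z) - χ' z) - -(ε * r + K * (L * B * r ^ 2))) := by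
      field_simp
    rw [h5]
    exact mul_nonneg (by positivity) (by linarith)

end Pool.Agent.Lib_MP_752436_nb
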