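import Pool.Agent.Lib_MP_752436_nb.Defs
import Pool.Agent.Lib_MP_752436_nb.Mollify

/-!
The smooth Lyapunov-Urysohn lemma.
-/

open Metric Set Filter MeasureTheory
open scoped ContDiff Topology NNReal

namespace Pool.Agent.Lib_MP_752436_nb

open Pool.Agent.Lib_MP_752436_gt Pool.Agent.Lib_MP_752436_tp

/-- **Lyapunov-Urysohn lemma.** Smooth Urysohn functions of a compact forward invariant set, which
almost increase along the flow. -/
theorem exists_lyap_smooth {V : Plane → Plane} {φ : ℝ → Plane → Plane} (hV : ContDiff ℝ ∞ V)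
    (hVc : HasCompactSupport V) (hφ : IsFlow V φ)
    (hD : ∀ s : ℝ, 0 ≤ s → ∀ z ∈ closedBall (0 : Plane) 1, φ s z ∈ closedBall (0 : Plane) 1)
    {A N : Set Plane} (hA : IsCompact A) (hfw : ∀ s : ℝ, 0 ≤ s → ∀ z ∈ A, φ s z ∈ A)
    (hG : Gam φ ⊆ A) (hN : IsOpen N) (hAN : A ⊆ N) (hAb : A ⊆ ball 0 1) :
    ∃ O, IsOpen O ∧ A ⊆ O ∧ ∀ ε > 0, ∃ χ : Plane → ℝ, ContDiff ℝ ∞ χ ∧
      (∀ z, 0 ≤ χ z ∧ χ z ≤ 1) ∧ (∀ z ∈ O, χ z = 1) ∧ tsupport χ ⊆ N ∩ ball 0 1 ∧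
      ∀ z, -ε ≤ fderiv ℝ χ z (V z) := by
  obtain ⟨L, hL⟩ := hV.lipschitzWith_of_hasCompactSupport hVc (by simp)
  obtain ⟨B, hB⟩ := hVc.exists_bound_of_continuous hV.continuous
  have hB' : ∀ x, ‖V x‖ ≤ ((⟨max B 0, le_max_right _ _⟩ : ℝ≥0) : ℝ) :=
    fun x => (hB x).trans (le_max_left _ _)
  obtain ⟨χ, K, hχ, h01, ⟨O, hO, hAO, hO1⟩, hc, hs, hm⟩ :=
    exists_lyap hV hVc hφ hD hA hfw (fun z hz => hG hz) hN hAN hAb
  -- a margin
  obtain ⟨δ₁, hδ₁, hδ₁O⟩ := hA.exists_cthickening_subset_open hO hAO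
  obtain ⟨δ₂, hδ₂, hδ₂N⟩ := (show IsCompact (tsupport χ) from hc).exists_cthickening_subset_open
    (hN.inter isOpen_ball) hs
  set δ := min (δ₁ / 2) (δ₂ / 2) with hδ
  have hδ0 : 0 < δ := lt_min (by positivity) (by positivity)
  refine ⟨thickening (δ₁ / 2) A, isOpen_thickening, self_subset_thickening (by positivity) A,
    fun ε hε => ?_⟩
  obtain ⟨χ', h1, h2, h3, h4⟩ := exists_smooth hφ hL hB' hχ (fun z s hs' => hm s hs' z)
    (fun z => h01 z) hδ0 hε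
  have hsupp : tsupport χ' ⊆ cthickening δ₂ (tsupport χ) := by
    refine closure_minimal ?_ isClosed_cthickening
    intro z hz
    by_contra hcon
    apply hz
    refine h3 z 0 fun w hw => ?_
    by_contra hw0
    apply hcon
    have hw1 : w ∈ tsupport χ := subset_closure hw0
    refine mem_cthickening_of_dist_le z w δ₂ _ hw1 ?_
    rw [dist_comm]
    have : δ ≤ δ₂ / 2 := min_le_right _ _
    have := mem_ball.1 hw
    linarith
  refine ⟨χ', h1, h2, fun z hz => h3 z 1 fun w hw => hO1 w (hδ₁O ?_), hsupp.trans hδ₂N, h4⟩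
  obtain ⟨a, ha, haz⟩ := mem_thickening_iff.1 hz
  refine mem_cthickening_of_dist_le w a δ₁ _ ha ?_
  have h5 : δ ≤ δ₁ / 2 := min_le_left _ _
  have h6 := mem_ball.1 hw
  have h7 := dist_triangle w z a
  linarith

end Pool.Agent.Lib_MP_752436_nb
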