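import Pool.Agent.Lib_MP_752436_tp.Defs2
import Mathlib.Analysis.Calculus.ImplicitContDiff

/-!
Smoothness of the root of an equation which is strictly monotone in the unknown.
-/

open Metric Set Filter
open scoped ContDiff Topology NNReal

namespace Pool.Agent.Lib_MP_752436_nb

variable {X : Type*} [NormedAddCommGroup X] [NormedSpace ℝ X] [CompleteSpace X]

/-- The root in `(-r, r)` of an equation `F (x, u) = 0` which is strictly monotone in `u` depends
smoothly on `x`. -/
theorem contDiffAt_root {F : X × ℝ → ℝ} (hF : ContDiff ℝ ∞ F) {Ω : Set X} (hΩ : IsOpen Ω) {r : ℝ}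
    (hpos : ∀ x ∈ Ω, ∀ u ∈ Icc (-r) r, 0 < deriv (fun u : ℝ => F (x, u)) u) {g : X → ℝ}
    (hg : ∀ x ∈ Ω, g x ∈ Ioo (-r) r) (hroot : ∀ x ∈ Ω, F (x, g x) = 0) {x : X} (hx : x ∈ Ω) :
    ContDiffAt ℝ ∞ g x := by
  have hFd : Differentiable ℝ F := hF.differentiable (by simp)
  -- strict monotonicity in `u`
  have hder : ∀ y u, HasDerivAt (fun u : ℝ => F (y, u)) (fderiv ℝ F (y, u) (0, 1)) u := by
    intro y u
    have h1 : HasDerivAt (fun u : ℝ => (y, u)) ((0 : X), (1 : ℝ)) u :=
      (hasDerivAt_const u y).prodMk (hasDerivAt_id u)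
    exact (hFd (y, u)).hasFDerivAt.comp_hasDerivAt u h1
  have hmono : ∀ y ∈ Ω, StrictMonoOn (fun u : ℝ => F (y, u)) (Icc (-r) r) := by
    intro y hy
    refine strictMonoOn_of_deriv_pos (convex_Icc _ _)
      (fun u _ => (hder y u).continuousAt.continuousWithinAt) fun u hu => ?_
    exact hpos y hy u (interior_subset hu)
  -- continuity of the root
  have hcont : ContinuousAt g x := by
    rw [ContinuousAt, Metric.tendsto_nhds]
    intro ε hε
    obtain ⟨ε', hε', hε'ε, h1, h2⟩ : ∃ ε' : ℝ, 0 < ε' ∧ ε' < ε ∧ -r < g x - ε' ∧ g x + ε' < r := by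
      have := hg x hx
      refine ⟨min (ε / 2) (min ((g x + r) / 2) ((r - g x) / 2)), ?_, ?_, ?_, ?_⟩
      · refine lt_min (by positivity) (lt_min ?_ ?_) <;> linarith [this.1, this.2]
      · exact (min_le_left _ _).trans_lt (by linarith)
      · have : min (ε / 2) (min ((g x + r) / 2) ((r - g x) / 2)) ≤ (g x + r) / 2 :=
          (min_le_right _ _).trans (min_le_left _ _)
        linarith [(hg x hx).1]
      · have : min (ε / 2) (min ((g x + r) / 2) ((r - g x) / 2)) ≤ (r - g x) / 2 :=
          (min_le_right _ _).trans (min_le_right _ _)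
        linarith [(hg x hx).2]
    have h3 : F (x, g x - ε') < 0 := by
      rw [← hroot x hx]
      exact hmono x hx ⟨h1.le, by linarith⟩ ⟨(hg x hx).1.le, (hg x hx).2.le⟩ (by linarith)
    have h4 : 0 < F (x, g x + ε') := by
      rw [← hroot x hx]
      exact hmono x hx ⟨(hg x hx).1.le, (hg x hx).2.le⟩ ⟨by linarith, h2.le⟩ (by linarith)
    have hc1 : ContinuousAt (fun y => F (y, g x - ε')) x :=
      (hF.continuous.comp (by fun_prop : Continuous fun y : X => (y, g x - ε'))).continuousAt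
    have hc2 : ContinuousAt (fun y => F (y, g x + ε')) x :=
      (hF.continuous.comp (by fun_prop : Continuous fun y : X => (y, g x + ε'))).continuousAt
    filter_upwards [hΩ.mem_nhds hx, hc1.eventually_lt continuousAt_const h3,
      continuousAt_const.eventually_lt hc2 h4] with y hy h5 h6
    have hgy := hg y hy
    have h7 : g x - ε' < g y := by
      by_contra hcon
      push Not at hcon
      have := (hmono y hy).monotoneOn ⟨hgy.1.le, hgy.2.le⟩ ⟨h1.le, by linarith⟩ hcon
      simp only [hroot y hy] at this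
      linarith
    have h8 : g y < g x + ε' := by
      by_contra hcon
      push Not at hcon
      have := (hmono y hy).monotoneOn ⟨by linarith, h2.le⟩ ⟨hgy.1.le, hgy.2.le⟩ hcon
      simp only [hroot y hy] at this
      linarith
    rw [Real.dist_eq, abs_lt]
    constructor <;> linarith
  -- the implicit function
  have hne : fderiv ℝ F (x, g x) (0, 1) ≠ 0 := by
    rw [← (hder x (g x)).deriv]
    exact (hpos x hx _ ⟨(hg x hx).1.le, (hg x hx).2.le⟩).ne'
  have hlin : ∀ u : ℝ, fderiv ℝ F (x, g x) (0, u) = u * fderiv ℝ F (x, g x) (0, 1) := fun u => by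
    rw [show ((0 : X), u) = u • ((0 : X), (1 : ℝ)) by simp, map_smul, smul_eq_mul]
  have hinv : (fderiv ℝ F (x, g x) ∘L .inr ℝ X ℝ).IsInvertible := by
    refine ⟨ContinuousLinearEquiv.equivOfInverse (fderiv ℝ F (x, g x) ∘L .inr ℝ X ℝ)
      ((fderiv ℝ F (x, g x) (0, 1))⁻¹ • ContinuousLinearMap.id ℝ ℝ) ?_ ?_, ?_⟩
    · intro u
      show (fderiv ℝ F (x, g x) (0, 1))⁻¹ * fderiv ℝ F (x, g x) (0, u) = u
      rw [hlin u, mul_comm u, ← mul_assoc, inv_mul_cancel₀ hne, one_mul]
    · intro u
      show fderiv ℝ F (x, g x) (0, (fderiv ℝ F (x, g x) (0, 1))⁻¹ * u) = u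
      rw [hlin, mul_comm, ← mul_assoc, mul_inv_cancel₀ hne, one_mul]
    · rfl
  have hFc : ContDiffAt ℝ ∞ F (x, g x) := hF.contDiffAt
  have hiff := hFc.eventually_apply_eq_iff_implicitFunction (by simp) hinv
  have hψ := hFc.contDiffAt_implicitFunction (by simp) hinv
  refine hψ.congr_of_eventuallyEq ?_
  have h9 : Tendsto (fun y => (y, g y)) (𝓝 x) (𝓝 (x, g x)) :=
    (continuousAt_id.prodMk hcont)
  filter_upwards [h9.eventually hiff, hΩ.mem_nhds hx] with y hy hyΩ
  exact (hy.1 (by rw [hroot y hyΩ, hroot x hx])).symm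

end Pool.Agent.Lib_MP_752436_nb
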