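import Pool.Agent.Lib_MP_752436_rb.RibbonSmall
import Pool.Agent.Lib_MP_752436_nb.Transport

/-!
Every ribbon knot bounds an immersed disc whose double points have one preimage on the graph of a
function; these upper double points do not enclose anything.
-/

open MeasureTheory Metric Set Filter
open scoped ContDiff Topology NNReal

namespace Pool.Agent.Lib_MP_752436_nb

open Pool.Agent.Lib_MP_752436_gt Pool.Agent.Lib_MP_752436_tp Pool.Agent.Lib_MP_752436_rb

/-- An immersed disc in `R^3` whose double points have one preimage in the compact subset `A` of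
the open disc and the other one in the closed set `B`, disjoint from `A`. -/
structure PairDisc (f : Plane → Space) (A B : Set Plane) : Prop where
  smooth : ContDiff ℝ ∞ f
  immersion : ∀ x ∈ closedBall (0 : Plane) 1, Function.Injective (fderiv ℝ f x)
  compact : IsCompact A
  inside : A ⊆ ball 0 1
  closed : IsClosed B
  disjoint : Disjoint A B
  double : ∀ x ∈ closedBall (0 : Plane) 1, ∀ y ∈ closedBall (0 : Plane) 1, x ≠ y → f x = f y →
    (x ∈ A ∧ y ∈ B) ∨ (x ∈ B ∧ y ∈ A)

/-- A `PairDisc` such that `A` lies on the graph of `G`. -/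
structure GraphDisc (f : Plane → Space) (A B : Set Plane) (G : ℝ → ℝ) : Prop
    extends PairDisc f A B where
  smoothG : ContDiff ℝ ∞ G
  graph : ∀ z ∈ A, z 1 = G (z 0)

theorem exists_graphDisc {K : Set Space} (hK : IsRibbonKnot K) :
    ∃ f A B G, GraphDisc f A B G ∧ f '' sphere 0 1 = K := by
  obtain ⟨f, hf, rfl⟩ := hK
  obtain ⟨n, α, B, h⟩ := hf.doubleData
  have h00 : (0 : ℝ) ∈ Icc (0 : ℝ) 1 := by simp
  obtain ⟨R, hR1, hR2⟩ := exists_axes (fun i => α i 0) (fun i => deriv (α i) 0)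
    (fun i j hij h0 => Set.disjoint_left.1 (h.disj i j hij) ⟨0, h00, rfl⟩ ⟨0, h00, h0.symm⟩)
    (fun i => (h.arc i).regular 0 h00)
  have hr := h.rotate R
  obtain ⟨c, hc, hc1, G, hG, h1, h2, h3⟩ := exists_graph (fun i => (hr.arc i).smooth)
    (fun i => hr.inside i 0 h00) hR1 (fun i => by
      have h1 : deriv (fun s => R (α i s)) 0 = R (deriv (α i) 0) := by
        have h2 := (((h.arc i).smooth.differentiable (by simp)) 0).hasDerivAt
        exact (R.toContinuousLinearEquiv.hasFDerivAt.comp_hasDerivAt 0 h2).deriv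
      rw [h1]
      exact hR2 i)
  obtain ⟨Ψ, hΨ, hΨα⟩ := exists_shrink hr.arc hr.inside hr.disj hc hc1
  obtain ⟨κ, hκ, hi1, hi2⟩ := hΨ.inverse 1 (by simp)
  have hΨ1 : ContDiff ℝ ∞ (Ψ 1) := hΨ.smooth.comp (contDiff_const.prodMk contDiff_id)
  have hout : ∀ x ∉ ball (0 : Plane) 1, κ x = x := by
    intro x hx
    have h4 := hi1 x
    rwa [hΨ.outside 1 x hx] at h4
  have hout' : ∀ x ∉ ball (0 : Plane) 1, Ψ 1 x = x := fun x hx => hΨ.outside 1 x hx
  have hκball : ∀ x ∈ ball (0 : Plane) 1, κ x ∈ ball (0 : Plane) 1 := by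
    intro x hx
    by_contra hcon
    have h4 := hout' _ hcon
    rw [hi2] at h4
    rw [← h4] at hcon
    exact hcon hx
  have hκb : ∀ x ∈ closedBall (0 : Plane) 1, κ x ∈ closedBall (0 : Plane) 1 := by
    intro x hx
    by_cases hxb : x ∈ ball (0 : Plane) 1
    · exact ball_subset_closedBall (hκball x hxb)
    · rw [hout x hxb]
      exact hx
  have hκinj : Function.Injective κ := by
    intro x y hxy
    have h4 := congrArg (Ψ 1) hxy
    rwa [hi2, hi2] at h4
  set A : Set Plane := ⋃ i, (fun s => R (α i (c * s))) '' Icc (0 : ℝ) 1 with hA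
  have hcs : ∀ s ∈ Icc (0 : ℝ) 1, c * s ∈ Icc (0 : ℝ) c := fun s hs =>
    ⟨mul_nonneg hc.le hs.1, by nlinarith [hs.2]⟩
  refine ⟨fun x => f (R.symm (κ x)), A, Ψ 1 '' (R '' B), G, ?_, ?_⟩
  · refine ⟨⟨(h.smooth.comp R.symm.contDiff).comp hκ, ?_, ?_, ?_, ?_, ?_, ?_⟩, hG, ?_⟩
    · intro x hx
      have e1 : HasFDerivAt κ (fderiv ℝ κ x) x := ((hκ.differentiable (by simp)) x).hasFDerivAt
      have e2 : HasFDerivAt (Ψ 1) (fderiv ℝ (Ψ 1) (κ x)) (κ x) :=
        ((hΨ1.differentiable (by simp)) _).hasFDerivAt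
      have e3 : HasFDerivAt (fun y => Ψ 1 (κ y)) ((fderiv ℝ (Ψ 1) (κ x)).comp (fderiv ℝ κ x)) x :=
        e2.comp x e1
      have e4 : HasFDerivAt (fun y => Ψ 1 (κ y)) (ContinuousLinearMap.id ℝ Plane) x := by
        have : (fun y => Ψ 1 (κ y)) = fun y => y := funext hi2
        rw [this]
        exact hasFDerivAt_id x
      have e5 := e3.unique e4
      have e6 : Function.Injective (fderiv ℝ κ x) := by
        intro u v huv
        have := congrArg (fun L : Plane →L[ℝ] Plane => L u) e5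
        have h' := congrArg (fun L : Plane →L[ℝ] Plane => L v) e5
        simp only [ContinuousLinearMap.comp_apply, ContinuousLinearMap.id_apply] at this h'
        rw [← this, ← h', huv]
      have e7 : HasFDerivAt (fun y => f (R.symm y)) (fderiv ℝ (fun y => f (R.symm y)) (κ x))
          (κ x) := ((hr.smooth.differentiable (by simp)) _).hasFDerivAt
      have e8 : fderiv ℝ (fun y => f (R.symm (κ y))) x =
          (fderiv ℝ (fun y => f (R.symm y)) (κ x)).comp (fderiv ℝ κ x) := (e7.comp x e1).fderiv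
      rw [e8]
      exact (hr.immersion _ (hκb x hx)).comp e6
    · refine isCompact_iUnion fun i => isCompact_Icc.image ?_
      exact R.continuous.comp ((h.arc i).smooth.continuous.comp (continuous_const.mul continuous_id))
    · intro x hx
      obtain ⟨i, s, hs, rfl⟩ := mem_iUnion.1 hx
      exact (h3 i (c * s) (hcs s hs)).1
    · exact (Homeomorph.mk (Equiv.mk (Ψ 1) κ hi1 hi2) hΨ1.continuous hκ.continuous).isClosedMap _
        hr.closed
    · rw [Set.disjoint_left]
      rintro x hx ⟨b, hb, hbx⟩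
      obtain ⟨i, s, hs, rfl⟩ := mem_iUnion.1 hx
      have h5 : Ψ 1 b = Ψ 1 (R (α i s)) := by rw [hΨα i s hs]; exact hbx
      have h6 : b = R (α i s) := by
        have := congrArg κ h5
        rwa [hi1, hi1] at this
      exact hr.disjB i s hs (h6 ▸ hb)
    · intro x hx y hy hxy hfxy
      have key : ∀ z, (∃ i, ∃ s ∈ Icc (0 : ℝ) 1, κ z = R (α i s)) → z ∈ A := by
        rintro z ⟨i, s, hs, hz⟩
        refine mem_iUnion.2 ⟨i, s, hs, ?_⟩
        have h5 := congrArg (Ψ 1) hz
        rw [hi2, hΨα i s hs] at h5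
        exact h5.symm
      have key2 : ∀ z, κ z ∈ R '' B → z ∈ Ψ 1 '' (R '' B) := fun z hz => ⟨κ z, hz, hi2 z⟩
      rcases hr.double (κ x) (hκb x hx) (κ y) (hκb y hy) (fun h5 => hxy (hκinj h5)) hfxy with
        ⟨h5, h6⟩ | ⟨h5, h6⟩
      · exact Or.inl ⟨key x h5, key2 y h6⟩
      · exact Or.inr ⟨key2 x h5, key y h6⟩
    · intro z hz
      obtain ⟨i, s, hs, rfl⟩ := mem_iUnion.1 hz
      exact (h3 i (c * s) (hcs s hs)).2
  · have h5 : (fun x => f (R.symm (κ x))) '' sphere (0 : Plane) 1 =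
        (fun x => f (R.symm x)) '' sphere (0 : Plane) 1 := by
      refine image_congr fun x hx => ?_
      rw [hout x]
      intro hxb
      rw [mem_ball_zero_iff] at hxb
      rw [mem_sphere_zero_iff_norm] at hx
      linarith
    rw [h5]
    have h6 : (fun x => f (R.symm x)) '' sphere (0 : Plane) 1 = f '' (R.symm '' sphere 0 1) := by
      rw [image_image]
    rw [h6, R.symm.image_sphere]
    simp

/-- A point of the closed disc off a subset of the graph set can be joined to the unit circle. -/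
theorem GraphDisc.joined {f : Plane → Space} {A B : Set Plane} {G : ℝ → ℝ}
    (h : GraphDisc f A B G) {U : Set Plane} (hUA : U ⊆ A) {z : Plane}
    (hz : z ∈ closedBall (0 : Plane) 1) (hzA : z ∉ U) :
    ∃ y ∈ sphere (0 : Plane) 1, JoinedIn (closedBall (0 : Plane) 1 \ U) z y := by
  have hnorm : ∀ x : Plane, ‖x‖ ^ 2 = x 0 ^ 2 + x 1 ^ 2 := fun x => by
    rw [EuclideanSpace.norm_sq_eq, Fin.sum_univ_two, Real.norm_eq_abs, Real.norm_eq_abs, sq_abs,
      sq_abs]
  have hz1 : z 0 ^ 2 + z 1 ^ 2 ≤ 1 := by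
    rw [← hnorm]
    have := mem_closedBall_zero_iff.1 hz
    have h0 := norm_nonneg z
    nlinarith
  set w := Real.sqrt (1 - z 0 ^ 2) with hw
  have hw2 : w ^ 2 = 1 - z 0 ^ 2 := Real.sq_sqrt (by nlinarith [sq_nonneg (z 1)])
  have hw0 : 0 ≤ w := Real.sqrt_nonneg _
  have hzw : |z 1| ≤ w := by
    rw [← abs_of_nonneg hw0]
    exact sq_le_sq.1 (by rw [hw2]; linarith)
  have key : ∀ σ : ℝ, (σ = 1 ∨ σ = -1) → 0 ≤ σ * (z 1 - G (z 0)) →
      ∃ y ∈ sphere (0 : Plane) 1, JoinedIn (closedBall (0 : Plane) 1 \ U) z y := by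
    intro σ hσ hσz
    have hσ2 : σ ^ 2 = 1 := by rcases hσ with h | h <;> rw [h] <;> norm_num
    set y : Plane := !₂[z 0, σ * w] with hy
    have hy0 : y 0 = z 0 := by simp [hy]
    have hy1 : y 1 = σ * w := by simp [hy]
    have hys : y ∈ sphere (0 : Plane) 1 := by
      rw [mem_sphere_zero_iff_norm]
      have h1 : ‖y‖ ^ 2 = 1 := by
        rw [hnorm, hy0, hy1, mul_pow, hσ2, hw2]
        ring
      nlinarith [norm_nonneg y]
    refine ⟨y, hys, ?_⟩
    refine JoinedIn.of_segment_subset ?_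
    intro x hx
    refine ⟨(convex_closedBall (0 : Plane) 1).segment_subset hz (sphere_subset_closedBall hys) hx,
      fun hxA => ?_⟩
    obtain ⟨a, b, ha, hb, hab, rfl⟩ := hx
    have hx0 : (a • z + b • y) 0 = z 0 := by
      simp only [PiLp.add_apply, PiLp.smul_apply, smul_eq_mul, hy0]
      rw [← add_mul, hab, one_mul]
    have hx1 : (a • z + b • y) 1 = a * z 1 + b * (σ * w) := by
      simp only [PiLp.add_apply, PiLp.smul_apply, smul_eq_mul, hy1]
    have h1 := h.graph _ (hUA hxA)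
    rw [hx0, hx1] at h1
    have h2 : σ * (a * z 1 + b * (σ * w)) = a * (σ * z 1) + b * w := by
      have : σ * (a * z 1 + b * (σ * w)) = a * (σ * z 1) + b * (σ ^ 2 * w) := by ring
      rw [this, hσ2, one_mul]
    have h3 : σ * z 1 ≤ w := by
      rcases hσ with h | h
      · rw [h, one_mul]; exact (le_abs_self _).trans hzw
      · rw [h, neg_one_mul]; exact (neg_le_abs _).trans hzw
    -- `σ z 1 ≥ σ G`, and the combination equals `σ G`
    have h4 : a * (σ * z 1) + b * w = σ * G (z 0) := by rw [← h2, h1]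
    have h5 : σ * G (z 0) ≤ σ * z 1 := by linarith
    have h6 : b * (w - σ * z 1) = σ * G (z 0) - σ * z 1 := by
      have : a = 1 - b := by linarith
      rw [this] at h4
      linarith
    have h7 : 0 ≤ b * (w - σ * z 1) := mul_nonneg hb (by linarith)
    have h8 : b * (w - σ * z 1) = 0 := le_antisymm (by rw [h6]; linarith) h7
    -- so the point is `z`
    apply hzA
    have h9 : a • z + b • y = z := by
      ext i
      fin_cases i
      · exact hx0
      · show (a • z + b • y) 1 = z 1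
        rw [hx1]
        have h10 : σ * (a * z 1 + b * (σ * w)) = σ * z 1 := by
          rw [h2]
          have : a = 1 - b := by linarith
          rw [this]
          linarith
        rcases hσ with h | h
        · rw [h] at h10 ⊢
          linarith
        · rw [h] at h10 ⊢
          linarith
    rw [← h9]
    exact hxA
  rcases le_total (G (z 0)) (z 1) with hle | hle
  · exact key 1 (Or.inl rfl) (by rw [one_mul]; linarith)
  · exact key (-1) (Or.inr rfl) (by linarith)

theorem GraphDisc.volume_zero {f : Plane → Space} {A B : Set Plane} {G : ℝ → ℝ}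
    (h : GraphDisc f A B G) : volume A = 0 := by
  set φ : Plane → Plane := fun z => !₂[z 0, G (z 0)] with hφ
  have hφs : ContDiff ℝ ∞ φ := by
    refine contDiff_euclidean.2 fun i => ?_
    have h0 : ContDiff ℝ ∞ fun z : Plane => z 0 :=
      (EuclideanSpace.proj (0 : Fin 2) : EuclideanSpace ℝ (Fin 2) →L[ℝ] ℝ).contDiff
    fin_cases i
    · exact h0
    · exact h.smoothG.comp h0
  set P : Submodule ℝ Plane := LinearMap.ker ((EuclideanSpace.proj (1 : Fin 2) :
    EuclideanSpace ℝ (Fin 2) →L[ℝ] ℝ) : Plane →ₗ[ℝ] ℝ) with hP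
  have hPt : P ≠ ⊤ := by
    intro htop
    have h1 : (EuclideanSpace.single 1 1 : Plane) ∈ P := by rw [htop]; trivial
    have h2 : (EuclideanSpace.single 1 1 : Plane) 1 = 0 := h1
    simp at h2
  have hP0 : volume (P : Set Plane) = 0 := Measure.addHaar_submodule volume P hPt
  have h1 : volume (φ '' (P : Set Plane)) = 0 :=
    addHaar_image_eq_zero_of_differentiableOn_of_addHaar_eq_zero volume
      (hφs.differentiable (by simp)).differentiableOn hP0
  refine measure_mono_null ?_ h1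
  intro z hz
  refine ⟨!₂[z 0, 0], ?_, ?_⟩
  · show (!₂[z 0, 0] : Plane) 1 = 0
    simp
  · ext i
    fin_cases i
    · simp [hφ]
    · simp only [hφ]
      exact (by simp [h.graph z hz])

/-- Such a disc is the projection of a slice disc whose upper double points lie in `A`. -/
theorem PairDisc.exists_height {f : Plane → Space} {A B : Set Plane} (h : PairDisc f A B) :
    ∃ t : Plane → ℝ, SDisc f t ∧ ∀ x ∈ A, ∀ y ∈ B, t y < t x := by
  obtain ⟨r, hr0, hr1, hAr⟩ : ∃ r : ℝ, 0 ≤ r ∧ r < 1 ∧ ∀ x ∈ A, ‖x‖ ≤ r := by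
    rcases A.eq_empty_or_nonempty with hE | hE
    · exact ⟨0, le_rfl, zero_lt_one, by simp [hE]⟩
    · obtain ⟨x0, hx0, hmax⟩ := h.compact.exists_isMaxOn hE continuous_norm.continuousOn
      have h1 : ‖x0‖ < 1 := by
        have := h.inside hx0
        rwa [mem_ball_zero_iff] at this
      exact ⟨‖x0‖, norm_nonneg _, h1, fun x hx => hmax hx⟩
  obtain ⟨χ, hχ, hχr, hχ0, hχ1⟩ := exists_contMDiff_zero_iff_one_iff_of_isClosed (n := ⊤)
    (modelWithCornersSelf ℝ (EuclideanSpace ℝ (Fin 2))) h.closed h.compact.isClosed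
    h.disjoint.symm
  have hχs : ContDiff ℝ ∞ χ := hχ.contDiff
  have hχn : ∀ x, 0 ≤ χ x := fun x => (hχr ⟨x, rfl⟩).1
  have hr2 : 0 < 1 - r ^ 2 := by nlinarith
  obtain ⟨C, hC0, hC⟩ : ∃ C : ℝ, 0 ≤ C ∧ 1 < (1 - r ^ 2) * (1 + C) := by
    refine ⟨(1 - r ^ 2)⁻¹, (inv_pos.2 hr2).le, ?_⟩
    rw [mul_add, mul_one, mul_inv_cancel₀ hr2.ne']
    linarith
  have hfac : ∀ x, 1 ≤ 1 + C * χ x := fun x => by
    have := mul_nonneg hC0 (hχn x)
    linarith
  have hhs : ContDiff ℝ ∞ (fun x : Plane => (1 - ‖x‖ ^ 2) * (1 + C * χ x)) :=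
    (contDiff_const.sub (contDiff_norm_sq ℝ)).mul (contDiff_const.add (contDiff_const.mul hχs))
  have hlt : ∀ x ∈ A, ∀ y ∈ B,
      (1 - ‖y‖ ^ 2) * (1 + C * χ y) < (1 - ‖x‖ ^ 2) * (1 + C * χ x) := by
    intro x hx y hy
    rw [(hχ0 y).1 hy, (hχ1 x).1 hx]
    have h1 : ‖x‖ ^ 2 ≤ r ^ 2 := pow_le_pow_left₀ (norm_nonneg x) (hAr x hx) 2
    have h2 : (1 - r ^ 2) * (1 + C) ≤ (1 - ‖x‖ ^ 2) * (1 + C * 1) := by
      rw [mul_one]
      exact mul_le_mul_of_nonneg_right (by linarith) (by linarith)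
    have h3 : 0 ≤ ‖y‖ ^ 2 := by positivity
    rw [mul_zero, add_zero, mul_one]
    linarith
  refine ⟨_, ⟨h.smooth, hhs, ?_, ?_, ?_, ?_⟩, hlt⟩
  · intro x hx y hy hfxy hxy
    by_contra hne
    rcases h.double x hx y hy hne hfxy with ⟨h1, h2⟩ | ⟨h1, h2⟩
    · exact absurd hxy (hlt x h1 y h2).ne'
    · exact absurd hxy (hlt y h2 x h1).ne
  · intro x hx u hu _
    exact (injective_iff_map_eq_zero _).1 (h.immersion x hx) u hu
  · intro x hx
    have := mem_sphere_zero_iff_norm.1 hx
    simp [this]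
  · intro x hx
    have h1 := mem_ball_zero_iff.1 hx
    have h2 : 0 < 1 - ‖x‖ ^ 2 := by nlinarith [norm_nonneg x]
    exact mul_pos h2 (by linarith [hfac x])

end Pool.Agent.Lib_MP_752436_nb
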